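import Pool.Agent.Lib.H44O.Defs

/-!
# Chunk A1 (S): edge vectors of matchings, linearity

All of this is direct from the definitions (`split_ifs`, `Finset.sum_add_distrib`, ...).
-/

namespace Pool.Agent.H44O

open Finset
open scoped Classical

variable {V : Type*}

theorem chi_pm {τ : Equiv.Perm V} (h : IsPM τ) (u v : V) : chi τ u v = if τ u = v then 1 else 0 := by
  unfold chi
  by_cases huv : τ u = v
  · have : u ≠ v := fun h' => h.2 u (huv.trans h'.symm)
    simp [huv, this]
  · simp [huv]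

theorem chi_symm {τ : Equiv.Perm V} (h : ∀ v, τ (τ v) = v) (u v : V) : chi τ u v = chi τ v u := by
  unfold chi
  have h1 : τ u = v ↔ τ v = u := by
    constructor
    · rintro rfl
      exact h u
    · rintro rfl
      exact h v
  by_cases h2 : τ u = v
  · by_cases h3 : u = v
    · simp [h3]
    · rw [if_pos ⟨h2, h3⟩, if_pos ⟨h1.1 h2, fun h' => h3 h'.symm⟩]
  · rw [if_neg fun h' => h2 h'.1, if_neg fun h' => h2 (h1.2 h'.1)]

theorem chi_diag (τ : Equiv.Perm V) (v : V) : chi τ v v = 0 := by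
  simp [chi]

theorem chi_nonneg (τ : Equiv.Perm V) (u v : V) : 0 ≤ chi τ u v := by
  unfold chi
  split_ifs <;> simp

theorem chi_le_one (τ : Equiv.Perm V) (u v : V) : chi τ u v ≤ 1 := by
  unfold chi
  split_ifs <;> simp

theorem isW_chi {τ : Equiv.Perm V} (h : ∀ v, τ (τ v) = v) : IsW (chi τ) := by
  exact ⟨chi_symm h, chi_diag τ, chi_nonneg τ⟩

theorem isW_add {x y : V → V → ℤ} (hx : IsW x) (hy : IsW y) : IsW (x + y) := by
  refine ⟨fun u v => ?_, fun v => ?_, fun u v => ?_⟩
  · simp only [Pi.add_apply]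
    rw [hx.symm u v, hy.symm u v]
  · simp only [Pi.add_apply]
    rw [hx.diag, hy.diag, add_zero]
  · simp only [Pi.add_apply]
    exact add_nonneg (hx.nonneg u v) (hy.nonneg u v)

theorem isW_nsmul {x : V → V → ℤ} (hx : IsW x) (k : ℕ) : IsW (k • x) := by
  refine ⟨fun u v => ?_, fun v => ?_, fun u v => ?_⟩
  · simp only [Pi.smul_apply]
    rw [hx.symm u v]
  · simp only [Pi.smul_apply]
    rw [hx.diag, smul_zero]
  · simp only [Pi.smul_apply]
    exact nsmul_nonneg (hx.nonneg u v) k

variable [Fintype V]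

theorem isW_sig {𝓜 : Finset (Equiv.Perm V)} (h : ∀ τ ∈ 𝓜, IsPM τ) : IsW (sig 𝓜) := by
  refine ⟨fun u v => ?_, fun v => ?_, fun u v => ?_⟩
  · exact Finset.sum_congr rfl fun τ hτ => chi_symm (h τ hτ).1 u v
  · exact Finset.sum_eq_zero fun τ _ => chi_diag τ v
  · exact Finset.sum_nonneg fun τ _ => chi_nonneg τ u v

theorem dg_add (x y : V → V → ℤ) (u : V) : dg (x + y) u = dg x u + dg y u := by
  simp [dg, Finset.sum_add_distrib]

theorem dg_sub (x y : V → V → ℤ) (u : V) : dg (x - y) u = dg x u - dg y u := by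
  simp [dg, Finset.sum_sub_distrib]

theorem dg_nsmul (x : V → V → ℤ) (k : ℕ) (u : V) : dg (k • x) u = k * dg x u := by
  simp [dg, Finset.mul_sum]

theorem cutW_add (x y : V → V → ℤ) (U : Finset V) : cutW (x + y) U = cutW x U + cutW y U := by
  simp [cutW, Finset.sum_add_distrib]

theorem cutW_sub (x y : V → V → ℤ) (U : Finset V) : cutW (x - y) U = cutW x U - cutW y U := by
  simp [cutW, Finset.sum_sub_distrib]

theorem cutW_nsmul (x : V → V → ℤ) (k : ℕ) (U : Finset V) : cutW (k • x) U = k * cutW x U := by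
  simp [cutW, Finset.mul_sum]

end Pool.Agent.H44O
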