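import Pool.Agent.Lib.H44O.Defs

/-!
# Chunk A2 (S/M): degrees, cuts and inner sums

* `sum_dg`: split the inner sum over all `v` into `v ∈ U` and `v ∈ Uᶜ` (`Finset.sum_add_sum_compl`).
* `cutW_compl`: `Finset.sum_comm` and symmetry.
* `cutW_singleton`: the diagonal entry is zero.
* `inW_singleton`: same.
* `even_inW`: induction on `U` (`Finset.induction_on`): inserting `a` adds
  `2 * ∑ v ∈ U, x a v + x a a`.
* `inW_union_inter`: every pair in `U ×ˢ U` or `W ×ˢ W` lies in the corresponding products of the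
  union and of the intersection with the right multiplicity; write all four as sums over
  `univ ×ˢ univ` (or over `univ`, `univ`) of `x u v * [indicator]` and compare termwise using
  nonnegativity: `[u,v ∈ U] + [u,v ∈ W] ≤ [u,v ∈ U ∪ W] + [u,v ∈ U ∩ W]`.
* `inW_sdiff`: termwise: `[u,v ∈ U] + [u,v ∈ W] ≤ [u,v ∈ U \ W] + [u,v ∈ W \ U] + [u ∈ U ∩ W] +
  [v ∈ U ∩ W]`, then `∑ u, ∑ v, x u v [v ∈ U ∩ W] = ∑ v ∈ U ∩ W, dg x v` by symmetry.
* `cut_eq_dg`: for sets with one element or with all but one element.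
* `dg_ge_row`, `dg_nonneg`: nonnegativity of the entries.
-/

namespace Pool.Agent.H44O

open Finset
open scoped Classical

variable {V : Type*} [Fintype V]

theorem sum_dg (x : V → V → ℤ) (U : Finset V) : ∑ u ∈ U, dg x u = inW x U + cutW x U := by
  unfold dg inW cutW
  rw [← Finset.sum_add_distrib]
  refine Finset.sum_congr rfl fun u _ => ?_
  rw [Finset.sum_add_sum_compl]

theorem cutW_compl {x : V → V → ℤ} (hx : IsW x) (U : Finset V) : cutW x Uᶜ = cutW x U := by
  unfold cutW
  rw [compl_compl, Finset.sum_comm]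
  exact Finset.sum_congr rfl fun u _ => Finset.sum_congr rfl fun v _ => hx.symm _ _

theorem cutW_singleton {x : V → V → ℤ} (hx : IsW x) (a : V) : cutW x {a} = dg x a := by
  unfold cutW dg
  rw [Finset.sum_singleton, ← Finset.sum_add_sum_compl {a} (fun v => x a v), Finset.sum_singleton,
    hx.diag, zero_add]

theorem inW_singleton {x : V → V → ℤ} (hx : IsW x) (a : V) : inW x {a} = 0 := by
  unfold inW
  rw [Finset.sum_singleton, Finset.sum_singleton, hx.diag]

theorem even_inW {x : V → V → ℤ} (hx : IsW x) (U : Finset V) : Even (inW x U) := by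
  induction U using Finset.induction_on with
  | empty => simp [inW]
  | insert a U ha ih =>
    have h1 : inW x (insert a U) = 2 * (∑ v ∈ U, x a v) + inW x U := by
      unfold inW
      rw [Finset.sum_insert ha, Finset.sum_insert ha, hx.diag]
      have h2 : ∀ u ∈ U, ∑ v ∈ insert a U, x u v = x a u + ∑ v ∈ U, x u v := by
        intro u _
        rw [Finset.sum_insert ha, hx.symm u a]
      rw [Finset.sum_congr rfl h2, Finset.sum_add_distrib]
      ring
    rw [h1]
    exact (even_two_mul _).add ih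

theorem a2_inW (x : V → V → ℤ) (U : Finset V) :
    inW x U = ∑ u, ∑ v, if u ∈ U then (if v ∈ U then x u v else 0) else 0 := by
  unfold inW
  rw [← Finset.sum_filter_add_sum_filter_not univ (fun u => u ∈ U)]
  have h1 : ∀ u ∈ univ.filter (fun u => ¬ u ∈ U),
      (∑ v, if u ∈ U then (if v ∈ U then x u v else 0) else 0) = 0 := by
    intro u hu
    have := (Finset.mem_filter.1 hu).2
    simp [this]
  rw [Finset.sum_eq_zero h1, add_zero]
  have h2 : univ.filter (fun u => u ∈ U) = U := by ext; simp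
  rw [h2]
  refine Finset.sum_congr rfl fun u hu => ?_
  simp [hu, Finset.sum_ite_mem]

theorem a2_dg (x : V → V → ℤ) (U : Finset V) :
    ∑ u ∈ U, dg x u = ∑ u, ∑ v, if u ∈ U then x u v else 0 := by
  unfold dg
  have h2 : ∀ u : V, (∑ v, if u ∈ U then x u v else 0) = if u ∈ U then ∑ v, x u v else 0 := by
    intro u
    split_ifs <;> simp
  rw [Finset.sum_congr rfl fun u _ => h2 u]
  simp [Finset.sum_ite_mem]

theorem a2_dg' {x : V → V → ℤ} (hx : IsW x) (U : Finset V) :
    ∑ u ∈ U, dg x u = ∑ u, ∑ v, if v ∈ U then x u v else 0 := by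
  rw [a2_dg, Finset.sum_comm]
  refine Finset.sum_congr rfl fun u _ => Finset.sum_congr rfl fun v _ => ?_
  rw [hx.symm v u]

theorem inW_union_inter {x : V → V → ℤ} (hx : IsW x) (U W : Finset V) :
    inW x U + inW x W ≤ inW x (U ∪ W) + inW x (U ∩ W) := by
  rw [a2_inW, a2_inW, a2_inW, a2_inW, ← Finset.sum_add_distrib, ← Finset.sum_add_distrib]
  refine Finset.sum_le_sum fun u _ => ?_
  rw [← Finset.sum_add_distrib, ← Finset.sum_add_distrib]
  refine Finset.sum_le_sum fun v _ => ?_
  have h0 := hx.nonneg u v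
  by_cases h1 : u ∈ U <;> by_cases h2 : u ∈ W <;> by_cases h3 : v ∈ U <;> by_cases h4 : v ∈ W <;>
    simp [h1, h2, h3, h4] <;> linarith

theorem inW_sdiff {x : V → V → ℤ} (hx : IsW x) (U W : Finset V) :
    inW x U + inW x W ≤ inW x (U \ W) + inW x (W \ U) + 2 * ∑ v ∈ U ∩ W, dg x v := by
  have h2 : 2 * ∑ v ∈ U ∩ W, dg x v = (∑ u, ∑ v, if u ∈ U ∩ W then x u v else 0) +
      ∑ u, ∑ v, if v ∈ U ∩ W then x u v else 0 := by
    rw [← a2_dg, ← a2_dg' hx]
    ring
  rw [h2, a2_inW, a2_inW, a2_inW, a2_inW, ← Finset.sum_add_distrib, ← Finset.sum_add_distrib,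
    ← Finset.sum_add_distrib, ← Finset.sum_add_distrib]
  refine Finset.sum_le_sum fun u _ => ?_
  rw [← Finset.sum_add_distrib, ← Finset.sum_add_distrib, ← Finset.sum_add_distrib,
    ← Finset.sum_add_distrib]
  refine Finset.sum_le_sum fun v _ => ?_
  have h0 := hx.nonneg u v
  by_cases h1 : u ∈ U <;> by_cases h2 : u ∈ W <;> by_cases h3 : v ∈ U <;> by_cases h4 : v ∈ W <;>
    simp [h1, h2, h3, h4] <;> linarith

theorem dg_nonneg {x : V → V → ℤ} (hx : IsW x) (u : V) : 0 ≤ dg x u :=
  Finset.sum_nonneg fun v _ => hx.nonneg u v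

theorem le_dg {x : V → V → ℤ} (hx : IsW x) (u v : V) : x u v ≤ dg x u :=
  Finset.single_le_sum (f := fun v => x u v) (fun v _ => hx.nonneg u v) (Finset.mem_univ v)

theorem cutW_nonneg {x : V → V → ℤ} (hx : IsW x) (U : Finset V) : 0 ≤ cutW x U :=
  Finset.sum_nonneg fun u _ => Finset.sum_nonneg fun v _ => hx.nonneg u v

theorem inW_nonneg {x : V → V → ℤ} (hx : IsW x) (U : Finset V) : 0 ≤ inW x U :=
  Finset.sum_nonneg fun u _ => Finset.sum_nonneg fun v _ => hx.nonneg u v

/-- For an even number of vertices and a regular weight, all odd cuts with at most one vertex on one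
side have the value of the degree; so the cut inequality has to be checked only for
`3 ≤ |U| ≤ |V| - 3`. -/
theorem odd_cuts {x : V → V → ℤ} {r : ℤ} (hV : Even (Fintype.card V)) (hx : IsW x)
    (hr : ∀ u, dg x u = r)
    (h : ∀ U : Finset V, Odd U.card → 3 ≤ U.card → U.card + 3 ≤ Fintype.card V → r ≤ cutW x U) :
    ∀ U : Finset V, Odd U.card → r ≤ cutW x U := by
  intro U hU
  have hone : ∀ W : Finset V, W.card = 1 → cutW x W = r := by
    intro W hW
    obtain ⟨a, rfl⟩ := Finset.card_eq_one.1 hW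
    rw [cutW_singleton hx, hr]
  by_cases h3 : 3 ≤ U.card
  · by_cases h4 : U.card + 3 ≤ Fintype.card V
    · exact h U hU h3 h4
    · have h5 : U.card ≤ Fintype.card V := Finset.card_le_univ U
      have h6 : Uᶜ.card = Fintype.card V - U.card := Finset.card_compl U
      obtain ⟨k, hk⟩ := hU
      obtain ⟨l, hl⟩ := hV
      have h7 : Uᶜ.card = 1 := by omega
      rw [← cutW_compl hx U, hone _ h7]
  · obtain ⟨k, hk⟩ := hU
    have h7 : U.card = 1 := by omega
    rw [hone _ h7]

end Pool.Agent.H44O
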