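import Pool.Agent.Lib.H44O.A1
import Pool.Agent.Lib.H44O.A2

/-!
# Chunk A3 (S): degrees and cuts of perfect matchings; sums of perfect matchings

* `dg_chi`: exactly one `v` with `τ u = v`.
* `cut_chi_pos`: `U` odd. `cutW (chi τ) U` is the number of `u ∈ U` with `τ u ∉ U`. If it is zero
  then `τ` maps `U` into `U`, is an involution without fixed points on `U`, so `U.card` is even
  (`Finset.card_involution` or: `inW (chi τ) U` is even by `even_inW` and
  `∑ u ∈ U, dg = U.card = inW + cutW`).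
  Best: `U.card = inW (chi τ) U + cutW (chi τ) U` by `sum_dg`, `dg_chi`; parity gives `cutW` odd and
  it is nonnegative.
* `cut_chi_le`: from the same identity and `inW_nonneg`, `U.card ≤ card V`.
* `dec_*`: add the coefficient functions.
* `dec_isW`, `dec_dg`: from `isW_chi`, `dg_chi`; `∃ r, ∀ u, dg x u = r` with `r = ∑ τ, a τ`.
-/

namespace Pool.Agent.H44O

open Finset
open scoped Classical

variable {V : Type*} [Fintype V]

theorem dg_chi {τ : Equiv.Perm V} (h : IsPM τ) (u : V) : dg (chi τ) u = 1 := by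
  unfold dg
  rw [Finset.sum_congr rfl fun v _ => chi_pm h u v]
  simp

theorem dg_sig {𝓜 : Finset (Equiv.Perm V)} (h : ∀ τ ∈ 𝓜, IsPM τ) (u : V) :
    dg (sig 𝓜) u = 𝓜.card := by
  unfold dg sig
  rw [Finset.sum_comm]
  have h1 : ∀ τ ∈ 𝓜, ∑ v, chi τ u v = 1 := fun τ hτ => dg_chi (h τ hτ) u
  rw [Finset.sum_congr rfl h1]
  simp

theorem cut_sig (𝓜 : Finset (Equiv.Perm V)) (U : Finset V) :
    cutW (sig 𝓜) U = ∑ τ ∈ 𝓜, cutW (chi τ) U := by
  unfold cutW sig
  rw [Finset.sum_comm (s := 𝓜)]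
  refine Finset.sum_congr rfl fun u _ => ?_
  rw [Finset.sum_comm]

theorem a3_card {τ : Equiv.Perm V} (h : IsPM τ) (U : Finset V) :
    (U.card : ℤ) = inW (chi τ) U + cutW (chi τ) U := by
  rw [← sum_dg, Finset.sum_congr rfl fun u _ => dg_chi h u]
  simp

theorem cut_chi_pos {τ : Equiv.Perm V} (h : IsPM τ) {U : Finset V} (hU : Odd U.card) :
    1 ≤ cutW (chi τ) U := by
  have h1 := a3_card h U
  have h2 := even_inW (isW_chi h.1) U
  have h3 := cutW_nonneg (isW_chi h.1) U
  obtain ⟨k, hk⟩ := hU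
  obtain ⟨l, hl⟩ := h2
  rw [hk] at h1
  push_cast at h1
  omega

theorem cut_chi_le {τ : Equiv.Perm V} (h : IsPM τ) (U : Finset V) :
    cutW (chi τ) U ≤ Fintype.card V := by
  have h1 := a3_card h U
  have h2 := inW_nonneg (isW_chi h.1) U
  have h3 : (U.card : ℤ) ≤ Fintype.card V := by exact_mod_cast Finset.card_le_univ U
  linarith

theorem dec_zero : Dec (0 : V → V → ℤ) :=
  ⟨fun _ => 0, fun _ h => absurd rfl h, fun u v => by simp⟩

theorem dec_chi {τ : Equiv.Perm V} (h : IsPM τ) : Dec (chi τ) := by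
  refine ⟨fun σ => if σ = τ then 1 else 0, fun σ hσ => ?_, fun u v => ?_⟩
  · by_cases h1 : σ = τ
    · rw [h1]
      exact h
    · simp [h1] at hσ
  · simp

theorem dec_add {x y : V → V → ℤ} (hx : Dec x) (hy : Dec y) : Dec (x + y) := by
  obtain ⟨a, ha, hax⟩ := hx
  obtain ⟨b, hb, hby⟩ := hy
  refine ⟨fun τ => a τ + b τ, fun τ hτ => ?_, fun u v => ?_⟩
  · by_cases h1 : a τ = 0
    · by_cases h2 : b τ = 0
      · simp [h1, h2] at hτ
      · exact hb τ h2
    · exact ha τ h1
  · rw [Pi.add_apply, Pi.add_apply, hax, hby, ← Finset.sum_add_distrib]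
    refine Finset.sum_congr rfl fun τ _ => ?_
    push_cast
    ring

theorem dec_nsmul {x : V → V → ℤ} (hx : Dec x) (k : ℕ) : Dec (k • x) := by
  induction k with
  | zero =>
    rw [zero_smul]
    exact dec_zero
  | succ k ih =>
    rw [succ_nsmul]
    exact dec_add ih hx

theorem dec_sig {𝓜 : Finset (Equiv.Perm V)} (h : ∀ τ ∈ 𝓜, IsPM τ) : Dec (sig 𝓜) := by
  refine ⟨fun σ => if σ ∈ 𝓜 then 1 else 0, fun σ hσ => ?_, fun u v => ?_⟩
  · by_cases h1 : σ ∈ 𝓜
    · exact h σ h1
    · simp [h1] at hσ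
  · unfold sig
    simp [Finset.sum_ite_mem]

theorem dec_isW {x : V → V → ℤ} (hx : Dec x) : IsW x := by
  obtain ⟨a, ha, hax⟩ := hx
  refine ⟨fun u v => ?_, fun v => ?_, fun u v => ?_⟩
  · rw [hax, hax]
    refine Finset.sum_congr rfl fun τ _ => ?_
    by_cases h1 : a τ = 0
    · simp [h1]
    · rw [chi_symm (ha τ h1).1]
  · rw [hax]
    refine Finset.sum_eq_zero fun τ _ => ?_
    rw [chi_diag, mul_zero]
  · rw [hax]
    exact Finset.sum_nonneg fun τ _ => mul_nonneg (by positivity) (chi_nonneg τ u v)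

theorem dec_sum {ι : Type*} (s : Finset ι) (x : ι → V → V → ℤ) (h : ∀ i ∈ s, Dec (x i)) :
    Dec (∑ i ∈ s, x i) := by
  induction s using Finset.induction_on with
  | empty =>
    rw [Finset.sum_empty]
    exact dec_zero
  | insert i s hi ih =>
    rw [Finset.sum_insert hi]
    exact dec_add (h i (Finset.mem_insert_self i s))
      (ih fun j hj => h j (Finset.mem_insert_of_mem hj))

end Pool.Agent.H44O
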