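import Pool.Agent.Lib.H44O.Defs

/-!
# Chunk B1 (M): sums over pairs

`wt x e` is `x u v` for the pair `e = {u, v}`.

* `wt_pair`: `∑ u ∈ {u, v}, ∑ w ∈ {u, v}, x u w = x u u + x u v + x v u + x v v`.
* `sum_wt_at`: the pairs containing `v` are the `{v, w}`, `w ≠ v` (bijection
  `w ↦ {v, w}` from `univ.erase v`, `Finset.sum_bij` or `sum_image`), and `x v v = 0`.
* `sum_wt_inside`: double counting: `∑ v ∈ S, ∑ e ∋ v, e ⊆ S = 2 * ∑ e ⊆ S`, and for a fixed
  `v ∈ S` the pairs `e ⊆ S` with `v ∈ e` are the `{v, w}`, `w ∈ S \ {v}`.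
* `sum_wt_univ`: the case `S = univ`.
-/

namespace Pool.Agent.H44O

open Finset
open scoped Classical

variable {V : Type*} [Fintype V]

/-- The weight of a pair. -/
noncomputable def wt (x : V → V → ℤ) (e : Finset V) : ℝ := (∑ u ∈ e, ∑ v ∈ e, (x u v : ℝ)) / 2

theorem wt_pair {x : V → V → ℤ} (hx : IsW x) {u v : V} (huv : u ≠ v) : wt x {u, v} = x u v := by
  unfold wt
  rw [Finset.sum_pair huv, Finset.sum_pair huv, Finset.sum_pair huv, hx.diag, hx.diag,
    hx.symm v u]
  push_cast
  ring

theorem b1_eq_pair {e : Finset V} (he : e.card = 2) {u v : V} (huv : u ≠ v) (hu : u ∈ e)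
    (hv : v ∈ e) : e = {u, v} := by
  symm
  apply Finset.eq_of_subset_of_card_le
  · intro w hw
    rcases Finset.mem_insert.1 hw with h | h
    · rw [h]; exact hu
    · rw [Finset.mem_singleton.1 h]; exact hv
  · rw [he, Finset.card_pair huv]

theorem sum_wt_at {x : V → V → ℤ} (hx : IsW x) (v : V) :
    ∑ e ∈ univ.filter (fun e : Finset V => e.card = 2 ∧ v ∈ e), wt x e = dg x v := by
  have h1 : univ.filter (fun e : Finset V => e.card = 2 ∧ v ∈ e) =
      (univ.erase v).image (fun w => ({v, w} : Finset V)) := by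
    ext e
    rw [Finset.mem_filter, Finset.mem_image]
    constructor
    · rintro ⟨-, he, hv⟩
      obtain ⟨a, b, hab, hs⟩ := Finset.card_eq_two.1 he
      rw [hs] at hv
      rcases Finset.mem_insert.1 hv with h | h
      · refine ⟨b, Finset.mem_erase.2 ⟨?_, Finset.mem_univ _⟩, ?_⟩
        · rw [h]
          exact hab.symm
        · rw [hs, h]
      · have h' := Finset.mem_singleton.1 h
        refine ⟨a, Finset.mem_erase.2 ⟨?_, Finset.mem_univ _⟩, ?_⟩
        · rw [h']
          exact hab
        · rw [hs, h', Finset.pair_comm]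
    · rintro ⟨w, hw, rfl⟩
      refine ⟨Finset.mem_univ _, ?_, by simp⟩
      exact Finset.card_pair (Finset.mem_erase.1 hw).1.symm
  rw [h1, Finset.sum_image]
  · rw [Finset.sum_congr rfl fun w hw => wt_pair hx (Finset.mem_erase.1 hw).1.symm]
    unfold dg
    rw [Finset.sum_erase _ (by rw [hx.diag]; simp)]
    push_cast
    rfl
  · intro a ha b hb hab
    have ha' := (Finset.mem_erase.1 (Finset.mem_coe.1 ha)).1
    have h2 : a ∈ ({v, b} : Finset V) := by
      have h3 : ({v, a} : Finset V) = {v, b} := hab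
      rw [← h3]
      simp
    rcases Finset.mem_insert.1 h2 with h | h
    · exact absurd h ha'
    · exact Finset.mem_singleton.1 h

theorem sum_wt_inside {x : V → V → ℤ} (hx : IsW x) (S : Finset V) :
    2 * ∑ e ∈ univ.filter (fun e : Finset V => e.card = 2 ∧ e ⊆ S), wt x e = inW x S := by
  set F := univ.filter (fun e : Finset V => e.card = 2 ∧ e ⊆ S) with hF
  have h1 : ∀ e ∈ F, 2 * wt x e =
      ∑ u ∈ S, ∑ v ∈ S, if u ∈ e then (if v ∈ e then (x u v : ℝ) else 0) else 0 := by
    intro e he
    have heS : e ⊆ S := (Finset.mem_filter.1 he).2.2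
    have h2 : ∀ f : V → ℝ, ∑ u ∈ S, (if u ∈ e then f u else 0) = ∑ u ∈ e, f u := by
      intro f
      rw [Finset.sum_ite_mem, Finset.inter_eq_right.2 heS]
    have h3 : ∀ u : V, (∑ v ∈ S, if u ∈ e then (if v ∈ e then (x u v : ℝ) else 0) else 0) =
        if u ∈ e then ∑ v ∈ e, (x u v : ℝ) else 0 := by
      intro u
      split_ifs
      · exact h2 _
      · simp
    rw [Finset.sum_congr rfl fun u _ => h3 u, h2]
    unfold wt
    ring
  rw [Finset.mul_sum, Finset.sum_congr rfl h1, Finset.sum_comm]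
  unfold inW
  push_cast
  refine Finset.sum_congr rfl fun u hu => ?_
  rw [Finset.sum_comm]
  refine Finset.sum_congr rfl fun v hv => ?_
  by_cases huv : u = v
  · subst huv
    rw [hx.diag]
    simp
  · have hmem : ({u, v} : Finset V) ∈ F := by
      rw [hF, Finset.mem_filter]
      refine ⟨Finset.mem_univ _, Finset.card_pair huv, ?_⟩
      intro w hw
      rcases Finset.mem_insert.1 hw with h | h
      · rw [h]; exact hu
      · rw [Finset.mem_singleton.1 h]; exact hv
    rw [Finset.sum_eq_single_of_mem _ hmem]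
    · simp
    · intro e he hne
      by_cases h4 : u ∈ e
      · by_cases h5 : v ∈ e
        · exact absurd (b1_eq_pair (Finset.mem_filter.1 he).2.1 huv h4 h5) hne
        · simp [h5]
      · simp [h4]

end Pool.Agent.H44O
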