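import Pool.Agent.Lib.H44O.A2
import Pool.Agent.Lib.H44O.B1
import Pool.Agent.Lib.Helper17.BFE.Edm

/-!
# Chunk B2 (M): the perfect matching polytope theorem, as a decomposition

Let `r > 0`. Put `G := univ.filter (fun e => e.card = 2 ∧ 0 < wt x e)` and `z e := wt x e / r`.
`G` is nonempty if `V` is nonempty (`dg x v = r > 0` and `sum_wt_at`); if `V` is empty take
`y M := 0` for all `M` (there is no pair).
* `exists_demandPair G hne z` gives `k, u, y` with `∑ z u = k`, `∑ y = k`,
  `∑ e ∈ M, u e ≤ 1` for all matchings `M` and `z e ≤ ∑ M ∋ e, y M`.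
* `edmonds_dual G _ z _ _ _ u` (hypotheses: `∑ e ∋ v, z e = dg x v / r = 1`;
  `2 ∑ e ⊆ S, z e = inW x S / r ≤ |S| - 1` because `inW x S = r |S| - cutW x S ≤ r |S| - r` by
  `sum_dg`) gives a matching `N` with `k = ∑ z u ≤ ∑ e ∈ N, u e ≤ 1`. So `k ≤ 1`.
* Counting: `∑ M, y M * (2 * M.card) = 2 * ∑ e ∈ G, ∑ M ∋ e, y M ≥ 2 * ∑ e ∈ G, z e = |V|` (last
  step: `sum_wt_inside` for `univ`, `inW x univ = ∑ dg = r |V|`) and `2 * M.card ≤ |V|` for a
  matching (its edges are disjoint pairs), `∑ y = k ≤ 1`. So all inequalities are equalities: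
  `y M ≠ 0` implies `2 * M.card = |V|`, so `M` covers every vertex, and `∑ M ∋ e, y M = z e` for
  every `e ∈ G`. For a pair `e ∉ G`: `wt x e = 0` (it is nonnegative) and no matching in
  `matchings G` contains `e`.
* The wanted function is `r * y M` on `matchings G` and `0` elsewhere.

(`IsMatching`, `matchings` are in `Pool.Agent.Lib.Helper4.BF`; a matching is a set of pairwise
disjoint sets; see `mem_matchings` and `sum_matchings_swap` in the imported file.)
-/

namespace Pool.Agent.H44O

open Finset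
open scoped Classical

variable {V : Type*} [Fintype V]

open Pool.Agent.Helper17.BFE Pool.Agent.Helper4.BF

omit [Fintype V] in
theorem b2_wt_nonneg {x : V → V → ℤ} (hx : IsW x) (e : Finset V) : 0 ≤ wt x e := by
  unfold wt
  refine div_nonneg (sum_nonneg fun u _ => sum_nonneg fun v _ => ?_) (by norm_num)
  exact_mod_cast hx.nonneg u v

theorem b2_sum {x : V → V → ℤ} (hx : IsW x) (Q : Finset V → Prop) [DecidablePred Q] :
    ∑ e ∈ (univ.filter (fun e : Finset V => e.card = 2 ∧ 0 < wt x e)).filter Q, wt x e =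
      ∑ e ∈ univ.filter (fun e : Finset V => e.card = 2 ∧ Q e), wt x e := by
  refine sum_subset ?_ ?_
  · intro e he
    rw [mem_filter, mem_filter] at he
    exact mem_filter.2 ⟨mem_univ _, he.1.2.1, he.2⟩
  · intro e he hne
    rw [mem_filter] at he
    by_contra h
    apply hne
    rw [mem_filter, mem_filter]
    exact ⟨⟨mem_univ _, he.2.1, lt_of_le_of_ne (b2_wt_nonneg hx e) (Ne.symm h)⟩, he.2.2⟩

theorem b2_card {G M : Finset (Finset V)} (h2 : ∀ e ∈ G, e.card = 2) (hM : M ∈ matchings G) :
    2 * M.card ≤ Fintype.card V ∧ (2 * M.card = Fintype.card V → ∀ v, ∃ e ∈ M, v ∈ e) := by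
  have hM' := mem_matchings.1 hM
  have h1 : (M.biUnion id).card = 2 * M.card := by
    rw [card_biUnion]
    · rw [sum_congr rfl (fun e he => show (id e : Finset V).card = 2 from h2 e (hM'.1 he)), sum_const,
        smul_eq_mul, mul_comm]
    · intro e he f hf hef
      exact hM'.2 e he f hf hef
  constructor
  · rw [← h1]
    exact card_le_univ _
  · intro h v
    rw [← h1, card_eq_iff_eq_univ] at h
    have h3 : v ∈ M.biUnion id := by
      rw [h]
      exact mem_univ v
    rw [mem_biUnion] at h3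
    exact h3

theorem exists_set_dec {x : V → V → ℤ} {r : ℤ} (h0 : 0 < r) (hx : IsW x) (hr : ∀ u, dg x u = r)
    (hodd : ∀ U : Finset V, Odd U.card → r ≤ cutW x U) :
    ∃ y : Finset (Finset V) → ℝ, (∀ M, 0 ≤ y M) ∧
      (∀ M, y M ≠ 0 → (∀ e ∈ M, e.card = 2) ∧ (∀ e ∈ M, ∀ f ∈ M, e ≠ f → Disjoint e f) ∧
        ∀ v, ∃ e ∈ M, v ∈ e) ∧
      ∀ e : Finset V, e.card = 2 → wt x e = ∑ M ∈ univ.filter (fun M => e ∈ M), y M := by
  by_cases hem : IsEmpty V
  · refine ⟨fun _ => 0, fun _ => le_rfl, fun M h => absurd rfl h, ?_⟩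
    intro e he
    obtain ⟨v, -⟩ : e.Nonempty := card_pos.1 (by omega)
    exact (hem.false v).elim
  rw [not_isEmpty_iff] at hem
  obtain ⟨v0⟩ := hem
  have hr0 : (0 : ℝ) < r := by exact_mod_cast h0
  obtain ⟨G, hG⟩ : ∃ G : Finset (Finset V),
      G = univ.filter (fun e : Finset V => e.card = 2 ∧ 0 < wt x e) := ⟨_, rfl⟩
  have hG2 : ∀ e ∈ G, e.card = 2 := by
    intro e he
    rw [hG, mem_filter] at he
    exact he.2.1
  have hGw : ∀ e ∈ G, 0 < wt x e := by
    intro e he
    rw [hG, mem_filter] at he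
    exact he.2.2
  have hat : ∀ v, ∑ e ∈ G.filter (fun e => v ∈ e), wt x e = r := by
    intro v
    rw [hG, b2_sum hx, sum_wt_at hx, hr]
  have hin : ∀ S : Finset V, 2 * ∑ e ∈ G.filter (fun e => e ⊆ S), wt x e = inW x S := by
    intro S
    rw [hG, b2_sum hx, sum_wt_inside hx]
  have hne : G.Nonempty := by
    rw [nonempty_iff_ne_empty]
    intro h
    have h1 := hat v0
    rw [h, filter_empty, sum_empty] at h1
    linarith
  have hz : ∀ e ∈ G, 0 < wt x e / r := fun e he => div_pos (hGw e he) hr0
  obtain ⟨k, u, y, hu0, hy0, huk, hyk, hk0, hpack, hcov, -, -⟩ :=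
    exists_demandPair G hne (fun e => wt x e / r) hz
  have hinU : ∀ S : Finset V, (inW x S : ℝ) = r * S.card - cutW x S := by
    intro S
    have h1 := sum_dg x S
    rw [sum_congr rfl fun u _ => hr u, sum_const, nsmul_eq_mul] at h1
    have h2 : ((S.card : ℤ) : ℝ) * (r : ℝ) = (inW x S : ℝ) + (cutW x S : ℝ) := by exact_mod_cast h1
    push_cast at h2
    linarith
  obtain ⟨N, hN, hkN⟩ := edmonds_dual G hG2 (fun e => wt x e / r) hz
    (fun v => by
      rw [← sum_div, hat v, div_self hr0.ne'])
    (fun S hS => by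
      rw [← sum_div, ← mul_div_assoc, hin S, div_le_iff₀ hr0, hinU]
      have h1 : (r : ℝ) ≤ (cutW x S : ℝ) := by exact_mod_cast hodd S hS
      nlinarith) u hu0
  have hk1 : k ≤ 1 := by
    rw [← huk]
    exact hkN.trans (hpack N hN)
  have hcutu : cutW x univ = 0 := by
    unfold cutW
    simp
  have htot : 2 * ∑ e ∈ G, wt x e = r * Fintype.card V := by
    have h1 := hin univ
    rw [hinU, hcutu, Int.cast_zero, sub_zero, card_univ] at h1
    rw [← h1]
    congr 2
    refine (filter_true_of_mem ?_).symm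
    intro e _
    exact subset_univ e
  have hswap : ∑ M ∈ matchings G, y M * (M.card : ℝ) =
      ∑ e ∈ G, ∑ M ∈ (matchings G).filter (fun M => e ∈ M), y M := by
    rw [← sum_matchings_swap G G (Subset.refl G) y]
    refine sum_congr rfl fun M hM => ?_
    have h1 : M.filter (fun e => e ∈ G) = M := by
      refine filter_true_of_mem ?_
      intro e he
      exact (mem_matchings.1 hM).1 he
    rw [h1]
  have hupper : ∑ M ∈ matchings G, y M * (2 * (M.card : ℝ)) ≤ Fintype.card V := by
    calc ∑ M ∈ matchings G, y M * (2 * (M.card : ℝ))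
        ≤ ∑ M ∈ matchings G, y M * (Fintype.card V : ℝ) := by
          refine sum_le_sum fun M hM => mul_le_mul_of_nonneg_left ?_ (hy0 M)
          exact_mod_cast (b2_card hG2 hM).1
      _ = k * Fintype.card V := by rw [← sum_mul, hyk]
      _ ≤ 1 * Fintype.card V := mul_le_mul_of_nonneg_right hk1 (Nat.cast_nonneg _)
      _ = Fintype.card V := one_mul _
  have hupper2 : k * Fintype.card V ≤ Fintype.card V := by
    calc k * (Fintype.card V : ℝ) ≤ 1 * Fintype.card V :=
          mul_le_mul_of_nonneg_right hk1 (Nat.cast_nonneg _)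
      _ = Fintype.card V := one_mul _
  have hlow : (Fintype.card V : ℝ) = 2 * ∑ e ∈ G, wt x e / r := by
    rw [← sum_div, ← mul_div_assoc, htot]
    field_simp
  have h2y : ∑ M ∈ matchings G, y M * (2 * (M.card : ℝ)) =
      2 * ∑ e ∈ G, ∑ M ∈ (matchings G).filter (fun M => e ∈ M), y M := by
    rw [← hswap, mul_sum]
    exact sum_congr rfl fun M _ => by ring
  have hsum_le : ∑ e ∈ G, wt x e / r ≤
      ∑ e ∈ G, ∑ M ∈ (matchings G).filter (fun M => e ∈ M), y M := sum_le_sum hcov
  -- equality in the covering inequalities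
  have heq1 : ∀ e ∈ G, wt x e / r = ∑ M ∈ (matchings G).filter (fun M => e ∈ M), y M := by
    have h3 : ∑ e ∈ G, wt x e / r =
        ∑ e ∈ G, ∑ M ∈ (matchings G).filter (fun M => e ∈ M), y M := by
      refine le_antisymm hsum_le ?_
      linarith
    exact (sum_eq_sum_iff_of_le hcov).1 h3
  -- all matchings that are used are perfect
  have heq2 : ∀ M ∈ matchings G, y M * (2 * (M.card : ℝ)) = y M * Fintype.card V := by
    have h4 : ∀ M ∈ matchings G, y M * (2 * (M.card : ℝ)) ≤ y M * Fintype.card V := by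
      intro M hM
      refine mul_le_mul_of_nonneg_left ?_ (hy0 M)
      exact_mod_cast (b2_card hG2 hM).1
    have h3 : ∑ M ∈ matchings G, y M * (2 * (M.card : ℝ)) =
        ∑ M ∈ matchings G, y M * (Fintype.card V : ℝ) := by
      refine le_antisymm (sum_le_sum h4) ?_
      rw [← sum_mul, hyk]
      linarith
    exact (sum_eq_sum_iff_of_le h4).1 h3
  refine ⟨fun M => if M ∈ matchings G then r * y M else 0, ?_, ?_, ?_⟩
  · intro M
    dsimp only
    split_ifs
    · exact mul_nonneg hr0.le (hy0 M)
    · exact le_rfl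
  · intro M hM
    dsimp only at hM
    split_ifs at hM with hMG
    · have hyM : y M ≠ 0 := fun h => hM (by rw [h, mul_zero])
      have h5 := mul_left_cancel₀ hyM (heq2 M hMG)
      have h6 : 2 * M.card = Fintype.card V := by exact_mod_cast h5
      exact ⟨fun e he => hG2 e ((mem_matchings.1 hMG).1 he), (mem_matchings.1 hMG).2,
        (b2_card hG2 hMG).2 h6⟩
    · exact absurd rfl hM
  · intro e he
    have h7 : ∑ M ∈ univ.filter (fun M : Finset (Finset V) => e ∈ M),
        (if M ∈ matchings G then r * y M else 0) =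
          r * ∑ M ∈ (matchings G).filter (fun M => e ∈ M), y M := by
      rw [mul_sum, ← sum_filter]
      refine sum_congr ?_ fun _ _ => rfl
      ext M
      simp only [mem_filter, mem_univ, true_and]
      exact and_comm
    rw [h7]
    by_cases heG : e ∈ G
    · rw [← heq1 e heG]
      field_simp
    · have h8 : wt x e = 0 := by
        by_contra h
        apply heG
        rw [hG, mem_filter]
        exact ⟨mem_univ _, he, lt_of_le_of_ne (b2_wt_nonneg hx e) (Ne.symm h)⟩
      have h9 : (matchings G).filter (fun M => e ∈ M) = ∅ := by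
        rw [filter_eq_empty_iff]
        intro M hM heM
        exact heG ((mem_matchings.1 hM).1 heM)
      rw [h8, h9, sum_empty, mul_zero]

end Pool.Agent.H44O
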