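import Pool.Agent.Lib.H44O.Defs

/-!
# Chunk B3 (S/M): a perfect matching given as a set of pairs is a permutation

For every `v` there is exactly one `e ∈ M` with `v ∈ e` (existence: hypothesis; uniqueness:
disjointness). Let `e v` be this pair and `τ v` its other element (`Finset.card_eq_two`). Then
`τ (τ v) = v`, `τ v ≠ v`; make it a permutation with `Function.Involutive.toPerm`.
`τ u = v` iff `{u, v} ∈ M` for `u ≠ v`.
-/

namespace Pool.Agent.H44O

open Finset
open scoped Classical

variable {V : Type*} [Fintype V]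

theorem exists_perm {M : Finset (Finset V)} (h2 : ∀ e ∈ M, e.card = 2)
    (hd : ∀ e ∈ M, ∀ f ∈ M, e ≠ f → Disjoint e f) (hc : ∀ v, ∃ e ∈ M, v ∈ e) :
    ∃ τ : Equiv.Perm V, IsPM τ ∧ ∀ u v, u ≠ v → (τ u = v ↔ ({u, v} : Finset V) ∈ M) := by
  have h1 : ∀ u : V, ∃ v : V, u ≠ v ∧ ({u, v} : Finset V) ∈ M := by
    intro u
    obtain ⟨e, he, hu⟩ := hc u
    obtain ⟨a, b, hab, hs⟩ := Finset.card_eq_two.1 (h2 e he)
    rw [hs] at hu he
    rcases Finset.mem_insert.1 hu with h | h
    · exact ⟨b, h ▸ hab, h ▸ he⟩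
    · have h' := Finset.mem_singleton.1 h
      refine ⟨a, ?_, ?_⟩
      · rw [h']
        exact hab.symm
      · rw [h', Finset.pair_comm]
        exact he
  have huniq : ∀ u v w : V, u ≠ v → u ≠ w → ({u, v} : Finset V) ∈ M → ({u, w} : Finset V) ∈ M →
      v = w := by
    intro u v w huv huw hv hw
    have h3 : ({u, v} : Finset V) = {u, w} := by
      by_contra hne
      have h4 := hd _ hv _ hw hne
      exact (Finset.disjoint_left.1 h4) (Finset.mem_insert_self u _) (Finset.mem_insert_self u _)
    have h5 : v ∈ ({u, w} : Finset V) := by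
      rw [← h3]
      simp
    rcases Finset.mem_insert.1 h5 with h6 | h6
    · exact absurd h6.symm huv
    · exact Finset.mem_singleton.1 h6
  choose f hf1 hf2 using h1
  have hinv : Function.Involutive f := by
    intro u
    refine huniq (f u) (f (f u)) u (hf1 (f u)) (hf1 u).symm (hf2 (f u)) ?_
    rw [Finset.pair_comm]
    exact hf2 u
  refine ⟨hinv.toPerm, ⟨fun v => hinv v, fun v => (hf1 v).symm⟩, fun u v huv => ?_⟩
  constructor
  · intro h
    have h3 : f u = v := h
    rw [← h3]
    exact hf2 u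
  · intro h
    exact huniq u (f u) v (hf1 u) huv (hf2 u) h

end Pool.Agent.H44O
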