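import Pool.Agent.Lib.H44O.A1
import Pool.Agent.Lib.H44O.B2
import Pool.Agent.Lib.H44O.B3

/-!
# Chunk B4 (S/M): real decomposition into perfect matchings

If `r = 0` (or `r ≤ 0`): `x u v ≤ dg x u ≤ 0` by `le_dg`, so `x = 0` and `lam = 0` works.
If `0 < r`: take `y` from `exists_set_dec` and for every `M` with `y M ≠ 0` the permutation `τ M`
from `exists_perm`; `lam τ := ∑ M with y M ≠ 0 and τ M = τ, y M`. For `u ≠ v`:
`x u v = wt x {u, v} = ∑ M ∋ {u, v}, y M = ∑ M, y M * [τ M u = v] = ∑ τ, lam τ * chi τ u v`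
(`Finset.sum_fiberwise` or `Finset.sum_comm`); for `u = v` both sides are zero (`chi_diag`).
-/

namespace Pool.Agent.H44O

open Finset
open scoped Classical

variable {V : Type*} [Fintype V]

theorem exists_real_dec {x : V → V → ℤ} {r : ℤ} (hx : IsW x) (hr : ∀ u, dg x u = r)
    (hodd : ∀ U : Finset V, Odd U.card → r ≤ cutW x U) :
    ∃ lam : Equiv.Perm V → ℝ, (∀ τ, 0 ≤ lam τ) ∧ (∀ τ, lam τ ≠ 0 → IsPM τ) ∧
      ∀ u v, (x u v : ℝ) = ∑ τ, lam τ * (chi τ u v : ℝ) := by
  rcases le_or_gt r 0 with h0 | h0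
  · refine ⟨fun _ => 0, fun _ => le_rfl, fun _ h => absurd rfl h, fun u v => ?_⟩
    have h1 := le_dg hx u v
    have h2 := hx.nonneg u v
    have h3 : x u v = 0 := by
      have := hr u
      omega
    rw [h3]
    simp
  · obtain ⟨y, hy0, hyM, hye⟩ := exists_set_dec h0 hx hr hodd
    have hex : ∀ M, ∃ τ : Equiv.Perm V, y M ≠ 0 →
        IsPM τ ∧ ∀ u v, u ≠ v → (τ u = v ↔ ({u, v} : Finset V) ∈ M) := by
      intro M
      by_cases hM : y M = 0
      · exact ⟨1, fun h => absurd hM h⟩
      · obtain ⟨h1, h2, h3⟩ := hyM M hM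
        obtain ⟨τ, hτ⟩ := exists_perm h1 h2 h3
        exact ⟨τ, fun _ => hτ⟩
    choose T hT using hex
    refine ⟨fun τ => ∑ M ∈ univ.filter (fun M => y M ≠ 0 ∧ T M = τ), y M,
      fun τ => Finset.sum_nonneg fun M _ => hy0 M, fun τ hτ => ?_, fun u v => ?_⟩
    · obtain ⟨M, hM, -⟩ := Finset.exists_ne_zero_of_sum_ne_zero hτ
      obtain ⟨-, h1, h2⟩ := Finset.mem_filter.1 hM
      rw [← h2]
      exact (hT M h1).1
    · by_cases huv : u = v
      · subst huv
        rw [hx.diag]
        simp [chi_diag]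
      · rw [← wt_pair hx huv, hye _ (Finset.card_pair huv)]
        have h1 : ∀ τ : Equiv.Perm V,
            (∑ M ∈ univ.filter (fun M => y M ≠ 0 ∧ T M = τ), y M) * (chi τ u v : ℝ) =
            ∑ M, if T M = τ then y M * (chi (T M) u v : ℝ) else 0 := by
          intro τ
          rw [Finset.sum_filter, Finset.sum_mul]
          refine Finset.sum_congr rfl fun M _ => ?_
          by_cases h2 : T M = τ
          · by_cases h3 : y M = 0
            · simp [h3]
            · rw [if_pos ⟨h3, h2⟩, if_pos h2, h2]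
          · rw [if_neg (fun h => h2 h.2), if_neg h2, zero_mul]
        rw [Finset.sum_congr rfl fun τ _ => h1 τ, Finset.sum_comm, Finset.sum_filter]
        refine Finset.sum_congr rfl fun M _ => ?_
        rw [Finset.sum_ite_eq, if_pos (Finset.mem_univ _)]
        by_cases h3 : y M = 0
        · simp [h3]
        · obtain ⟨h4, h5⟩ := hT M h3
          rw [chi_pm h4]
          by_cases h6 : ({u, v} : Finset V) ∈ M
          · rw [if_pos h6, if_pos ((h5 u v huv).2 h6)]
            simp
          · rw [if_neg h6, if_neg (fun h => h6 ((h5 u v huv).1 h))]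
            simp

end Pool.Agent.H44O
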