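import Pool.Agent.Lib.H44O.A3
import Pool.Agent.Lib.H44O.B4

/-!
# Chunk C1 (M): a multiple is a sum of perfect matchings

Take `lam` from `exists_real_dec`. For `k : ℕ` let `a k τ := ⌊k * lam τ⌋₊` and
`b k u v := k * x u v - ∑ τ, a k τ * chi τ u v` (an integer). Since
`b k u v = ∑ τ, (k * lam τ - a k τ) * chi τ u v` and `0 ≤ k * lam τ - a k τ < 1`, `0 ≤ chi ≤ 1`, one
has `0 ≤ b k u v ≤ card (Equiv.Perm V)`. So all `b k` lie in a finite set of functions
(`Set.Finite` of the functions with values in an interval: `Set.Finite.pi'` or use the map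
`k ↦ (fun u v => (b k u v).toNat : V → V → Fin (card + 1))`), and by the pigeonhole principle
(`Finite.exists_ne_map_eq_of_infinite`) there are `k < k'` with `b k = b k'`. Then
`(k' - k) * x u v = ∑ τ, (a k' τ - a k τ) * chi τ u v` with `a k τ ≤ a k' τ` (monotone floor), and
`a k' τ - a k τ ≠ 0` implies `lam τ ≠ 0`, so `IsPM τ`.
-/

namespace Pool.Agent.H44O

open Finset
open scoped Classical

variable {V : Type*} [Fintype V]

theorem exists_mul_dec {x : V → V → ℤ} {r : ℤ} (hx : IsW x) (hr : ∀ u, dg x u = r)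
    (hodd : ∀ U : Finset V, Odd U.card → r ≤ cutW x U) : ∃ k : ℕ, 0 < k ∧ Dec (k • x) := by
  obtain ⟨lam, hlam0, hlam1, hlam2⟩ := exists_real_dec hx hr hodd
  set N := Fintype.card (Equiv.Perm V) with hN
  let a : ℕ → Equiv.Perm V → ℕ := fun k τ => ⌊(k : ℝ) * lam τ⌋₊
  let b : ℕ → V → V → ℤ := fun k u v => k * x u v - ∑ τ, (a k τ : ℤ) * chi τ u v
  have hb : ∀ k u v, ((b k u v : ℤ) : ℝ) =
      ∑ τ, ((k : ℝ) * lam τ - (a k τ : ℝ)) * (chi τ u v : ℝ) := by
    intro k u v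
    show (((k : ℤ) * x u v - ∑ τ, (a k τ : ℤ) * chi τ u v : ℤ) : ℝ) = _
    push_cast
    rw [hlam2 u v, Finset.mul_sum, ← Finset.sum_sub_distrib]
    refine Finset.sum_congr rfl fun τ _ => ?_
    ring
  have hfr : ∀ (k : ℕ) (τ : Equiv.Perm V), 0 ≤ (k : ℝ) * lam τ - (a k τ : ℝ) ∧ (k : ℝ) * lam τ - (a k τ : ℝ) ≤ 1 := by
    intro k τ
    have h1 : (0 : ℝ) ≤ (k : ℝ) * lam τ := mul_nonneg (by positivity) (hlam0 τ)
    have h2 := Nat.floor_le h1
    have h3 := Nat.lt_floor_add_one ((k : ℝ) * lam τ)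
    constructor
    · linarith
    · show (k : ℝ) * lam τ - ((⌊(k : ℝ) * lam τ⌋₊ : ℕ) : ℝ) ≤ 1
      linarith
  have hb0 : ∀ k u v, 0 ≤ b k u v := by
    intro k u v
    have h1 : (0 : ℝ) ≤ ((b k u v : ℤ) : ℝ) := by
      rw [hb]
      refine Finset.sum_nonneg fun τ _ => mul_nonneg (hfr k τ).1 ?_
      exact_mod_cast chi_nonneg τ u v
    exact_mod_cast h1
  have hb1 : ∀ k u v, b k u v ≤ N := by
    intro k u v
    have h1 : ((b k u v : ℤ) : ℝ) ≤ ∑ _τ : Equiv.Perm V, (1 : ℝ) := by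
      rw [hb]
      refine Finset.sum_le_sum fun τ _ => ?_
      have h2 : (0 : ℝ) ≤ (chi τ u v : ℝ) := by exact_mod_cast chi_nonneg τ u v
      have h3 : (chi τ u v : ℝ) ≤ 1 := by exact_mod_cast chi_le_one τ u v
      calc ((k : ℝ) * lam τ - (a k τ : ℝ)) * (chi τ u v : ℝ) ≤ 1 * 1 :=
            mul_le_mul (hfr k τ).2 h3 h2 zero_le_one
        _ = 1 := one_mul 1
    rw [Finset.sum_const, Finset.card_univ, nsmul_eq_mul, mul_one, ← hN] at h1
    exact_mod_cast h1
  let F : ℕ → (V → V → Fin (N + 1)) := fun k u v => ⟨(b k u v).toNat, by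
    have := hb1 k u v
    have := hb0 k u v
    omega⟩
  obtain ⟨k, k', hne, hF⟩ := Finite.exists_ne_map_eq_of_infinite F
  have hbb : ∀ u v, b k u v = b k' u v := by
    intro u v
    have h1 := congrFun (congrFun hF u) v
    have h2 : (b k u v).toNat = (b k' u v).toNat := congrArg Fin.val h1
    have h3 := hb0 k u v
    have h4 := hb0 k' u v
    omega
  have key : ∀ k k' : ℕ, k < k' → (∀ u v, b k u v = b k' u v) → ∃ k : ℕ, 0 < k ∧ Dec (k • x) := by
    intro k k' hlt hbb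
    have hmono : ∀ τ, a k τ ≤ a k' τ := by
      intro τ
      apply Nat.floor_mono
      exact mul_le_mul_of_nonneg_right (by exact_mod_cast hlt.le) (hlam0 τ)
    refine ⟨k' - k, Nat.sub_pos_of_lt hlt, fun τ => a k' τ - a k τ, fun τ hτ => ?_, fun u v => ?_⟩
    · apply hlam1
      intro h1
      apply hτ
      show ⌊(k' : ℝ) * lam τ⌋₊ - ⌊(k : ℝ) * lam τ⌋₊ = 0
      rw [h1]
      simp
    · have h1 : (k : ℤ) * x u v - ∑ τ, (a k τ : ℤ) * chi τ u v =
          k' * x u v - ∑ τ, (a k' τ : ℤ) * chi τ u v := hbb u v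
      have h2 : ∑ τ, ((a k' τ - a k τ : ℕ) : ℤ) * chi τ u v =
          ∑ τ, (a k' τ : ℤ) * chi τ u v - ∑ τ, (a k τ : ℤ) * chi τ u v := by
        rw [← Finset.sum_sub_distrib]
        refine Finset.sum_congr rfl fun τ _ => ?_
        rw [Nat.cast_sub (hmono τ)]
        ring
      have h3 : ((k' - k) • x) u v = ((k' : ℤ) - k) * x u v := by
        rw [Pi.smul_apply, Pi.smul_apply, nsmul_eq_mul, Nat.cast_sub hlt.le]
      rw [h3, h2]
      linarith
  rcases Nat.lt_or_gt_of_ne hne with h | h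
  · exact key k k' h hbb
  · exact key k' k h fun u v => (hbb u v).symm

end Pool.Agent.H44O
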