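import Pool.Agent.Lib.H44O.C1

/-!
# Chunk C2 (S/M): perfect matchings in the support can be subtracted

Put `N = card V`, `k := N + 1`, `x := k • sig 𝓜 - chi τ0`.
* `IsW x`: symmetry, diagonal: clear. Nonnegative: if `chi τ0 u v = 1`, then `v = τ0 u`, and
  `1 ≤ sig 𝓜 u v` by `hs`, so `x u v ≥ k - 1 ≥ 0`; otherwise `chi τ0 u v = 0`.
* `dg x u = k * 𝓜.card - 1`.
* odd cuts (use `odd_cuts`): for `3 ≤ |U| ≤ N - 3`,
  `cutW x U ≥ k * (𝓜.card + 1) - N ≥ k * 𝓜.card - 1` (`cut_chi_le`).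
So `exists_mul_dec` gives `m > 0` with `Dec (m • x)`. Then with `T := m * k`:
`T • sig 𝓜 - chi τ0 = m • x + (m - 1) • chi τ0`, a sum of two elements of `Dec`.
-/

namespace Pool.Agent.H44O

open Finset
open scoped Classical

variable {V : Type*} [Fintype V]

theorem c2_smul {V : Type*} (k : ℕ) (f : V → V → ℤ) (u v : V) :
    (k • f) u v = (k : ℤ) * f u v := by
  show k • f u v = _
  rw [nsmul_eq_mul]

theorem exists_sub_dec (hV : Even (Fintype.card V)) {𝓜 : Finset (Equiv.Perm V)}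
    (h𝓜 : ∀ τ ∈ 𝓜, IsPM τ)
    (hcut : ∀ U : Finset V, Odd U.card → 3 ≤ U.card → U.card + 3 ≤ Fintype.card V →
      (𝓜.card : ℤ) + 1 ≤ cutW (sig 𝓜) U)
    {τ0 : Equiv.Perm V} (h0 : IsPM τ0) (hs : ∀ v, (heavy (sig 𝓜) 1).Adj v (τ0 v)) :
    ∃ T : ℕ, Dec (T • sig 𝓜 - chi τ0) := by
  set N := Fintype.card V with hN
  have hsig := isW_sig h𝓜
  have hchi := isW_chi h0.1
  set x : V → V → ℤ := (N + 1) • sig 𝓜 - chi τ0 with hxdef
  have hxv : ∀ u v, x u v = ((N : ℤ) + 1) * sig 𝓜 u v - chi τ0 u v := by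
    intro u v
    rw [hxdef, Pi.sub_apply, Pi.sub_apply, c2_smul]
    push_cast
    ring
  have hx : IsW x := by
    refine ⟨fun u v => ?_, fun v => ?_, fun u v => ?_⟩
    · rw [hxv, hxv, hsig.symm, hchi.symm]
    · rw [hxv, hsig.diag, hchi.diag]
      ring
    · rw [hxv]
      have h1 := hsig.nonneg u v
      have hN0 : (0 : ℤ) ≤ N := by positivity
      by_cases h2 : τ0 u = v
      · have h3 := (hs u).2.1
        rw [h2] at h3
        have h4 := chi_le_one τ0 u v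
        nlinarith
      · have h4 : chi τ0 u v = 0 := by
          rw [chi_pm h0, if_neg h2]
        rw [h4]
        nlinarith
  have hdg : ∀ u, dg x u = ((N : ℤ) + 1) * 𝓜.card - 1 := by
    intro u
    rw [hxdef, dg_sub, dg_nsmul, dg_sig h𝓜, dg_chi h0]
    push_cast
    ring
  have hodd : ∀ U : Finset V, Odd U.card → ((N : ℤ) + 1) * 𝓜.card - 1 ≤ cutW x U := by
    refine odd_cuts hV hx hdg ?_
    intro U hU h3 h4
    have h5 := hcut U hU h3 h4
    have h6 := cut_chi_le h0 U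
    rw [hxdef, cutW_sub, cutW_nsmul]
    push_cast
    have hN0 : (0 : ℤ) ≤ (N : ℤ) + 1 := by positivity
    have h7 : ((N : ℤ) + 1) * (𝓜.card + 1) ≤ ((N : ℤ) + 1) * cutW (sig 𝓜) U :=
      mul_le_mul_of_nonneg_left h5 hN0
    linarith
  obtain ⟨m, hm, hdec⟩ := exists_mul_dec hx hdg hodd
  refine ⟨m * (N + 1), ?_⟩
  have h8 := dec_add hdec (dec_nsmul (dec_chi h0) (m - 1))
  have h9 : m • x + (m - 1) • chi τ0 = (m * (N + 1)) • sig 𝓜 - chi τ0 := by
    funext u v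
    rw [Pi.add_apply, Pi.add_apply, Pi.sub_apply, Pi.sub_apply, c2_smul, c2_smul, c2_smul, hxv,
      Nat.cast_sub hm]
    push_cast
    ring
  rw [← h9]
  exact h8

end Pool.Agent.H44O
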