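import Pool.Agent.Lib.H44O.Defs

/-!
# Chunk D1 (S/M): closable graphs

* `nb_mono`: the filter grows.
* `closable_mono`: induction on `Closable H` with `H'` generalised. `top`: `H' = ⊤`. `step H a b`:
  if `H'.Adj a b` then `addG H a b ≤ H'` and the induction hypothesis applies. Otherwise
  `addG H a b ≤ addG H' a b`, so `Closable (addG H' a b)`, and `Closable.step` applies since `nb`
  is monotone.
* `closable_of`: strong induction on the number of pairs `(u, v)` with `u ≠ v`, `¬ H.Adj u v`.
  If `H = ⊤`: `Closable.top`. Otherwise take `a, b` from the hypothesis for `H' = H`; the graph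
  `addG H a b` has fewer non-adjacent pairs and satisfies the hypothesis (`H ≤ addG H a b`).
-/

namespace Pool.Agent.H44O

open Finset
open scoped Classical

variable {V : Type*} [Fintype V]

theorem le_addG (H : SimpleGraph V) (a b : V) : H ≤ addG H a b := by
  exact fun u v h => Or.inl h

theorem nb_mono {H H' : SimpleGraph V} (h : H ≤ H') (a : V) : nb H a ≤ nb H' a := by
  unfold nb
  refine card_le_card fun v hv => ?_
  rw [mem_filter] at hv ⊢
  exact ⟨hv.1, h hv.2⟩

theorem closable_mono {H H' : SimpleGraph V} (h : H ≤ H') (hc : Closable H) : Closable H' := by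
  induction hc generalizing H' with
  | top =>
    rw [top_le_iff.1 h]
    exact Closable.top
  | step H a b hab hna hd _ ih =>
    by_cases hadj : H'.Adj a b
    · refine ih fun u v huv => ?_
      rcases huv with huv | ⟨-, ⟨rfl, rfl⟩ | ⟨rfl, rfl⟩⟩
      · exact h huv
      · exact hadj
      · exact hadj.symm
    · refine Closable.step H' a b hab hadj (hd.trans (add_le_add (nb_mono h a) (nb_mono h b)))
        (ih fun u v huv => ?_)
      rcases huv with huv | huv
      · exact Or.inl (h huv)
      · exact Or.inr huv

theorem closable_of (H : SimpleGraph V)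
    (h : ∀ H' : SimpleGraph V, H ≤ H' → H' ≠ ⊤ →
      ∃ a b, a ≠ b ∧ ¬ H'.Adj a b ∧ Fintype.card V + 1 ≤ nb H' a + nb H' b) : Closable H := by
  induction hn : (univ.filter (fun p : V × V => p.1 ≠ p.2 ∧ ¬ H.Adj p.1 p.2)).card using
    Nat.strong_induction_on generalizing H with
  | _ n ih =>
    by_cases ht : H = ⊤
    · rw [ht]
      exact Closable.top
    · obtain ⟨a, b, hab, hna, hd⟩ := h H le_rfl ht
      refine Closable.step H a b hab hna hd (ih _ ?_ (addG H a b) ?_ rfl)
      · rw [← hn]
        refine card_lt_card ?_
        rw [Finset.ssubset_iff_of_subset]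
        · refine ⟨(a, b), by simp [hab, hna], ?_⟩
          rw [mem_filter]
          rintro ⟨-, -, h2⟩
          exact h2 (Or.inr ⟨hab, Or.inl ⟨rfl, rfl⟩⟩)
        · intro p hp
          rw [mem_filter] at hp ⊢
          exact ⟨hp.1, hp.2.1, fun h2 => hp.2.2 (Or.inl h2)⟩
      · intro H' hH' hne
        exact h H' ((le_addG H a b).trans hH') hne

end Pool.Agent.H44O
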