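import Pool.Agent.Lib.H44O.D6

/-!
# Chunk D7 (M): an arc of the alternating cycle

`ρ = τ2 * τ1`. By finiteness there is `m : ℕ` with `ρ ^ m v = w`
(`Equiv.Perm.SameCycle.exists_pow_eq'` or similar); take `m` minimal (`Nat.find`); `m ≥ 1` as `v ≠ w`.
`A := {ρ ^ i v | 1 ≤ i ≤ m} ∪ {τ1 (ρ ^ i v) | 0 ≤ i < m}`.
* `τ2 (τ1 (ρ ^ i v)) = ρ ^ (i + 1) v` and so `τ2 (ρ ^ (i + 1) v) = τ1 (ρ ^ i v)`: closed under `τ2`.
* `τ1 v ∈ A` (`i = 0`), `w ∈ A` (`i = m`).
* `v ∉ A`: `v = τ1 (ρ ^ i v)` would give `τ1 v = ρ ^ i v`, against `no_fix`; `v = ρ ^ i v` with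
  `1 ≤ i ≤ m` would give `ρ ^ (m - i) v = w` with `m - i < m`, against minimality.
* `τ1 w ∉ A`: `τ1 w = ρ ^ i v` would put `τ1 w` in the cycle of `v`, hence of `w`, against `no_fix`
  for `w` (`w ≠ a, b` because `ρ` fixes `a`, `b`); `τ1 w = τ1 (ρ ^ i v)`, `i < m`, gives `w = ρ ^ i v`,
  against minimality.
* `τ1` exchanges `ρ ^ i v` and `τ1 (ρ ^ i v)` for `1 ≤ i < m`; the two exceptions are `w` (`i = m`)
  and `τ1 v` (`i = 0`).
* last property: `ρ ^ i v` is in the cycle of `v`, and `τ1 (τ1 (ρ ^ i v)) = ρ ^ i v` too.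
-/

namespace Pool.Agent.H44O

open Finset
open scoped Classical

variable {V : Type*} [Fintype V]

theorem exists_arc {H : SimpleGraph V} {a b : V} {τ1 τ2 : Equiv.Perm V} (h1 : IsNear H a b τ1)
    (h2 : IsNear H a b τ2) {v w : V} (hva : v ≠ a) (hvb : v ≠ b) (hvw : v ≠ w)
    (hs : (τ2 * τ1).SameCycle v w) :
    ∃ A : Finset V, (∀ u ∈ A, τ2 u ∈ A) ∧ τ1 v ∈ A ∧ w ∈ A ∧ v ∉ A ∧ τ1 w ∉ A ∧
      (∀ u ∈ A, u ≠ w → u ≠ τ1 v → τ1 u ∈ A) ∧
      ∀ u ∈ A, (τ2 * τ1).SameCycle v u ∨ (τ2 * τ1).SameCycle v (τ1 u) := by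
  have hex : ∃ n : ℕ, ((τ2 * τ1) ^ n) v = w := by
    obtain ⟨i, -, hi⟩ := hs.exists_pow_eq'
    exact ⟨i, hi⟩
  obtain ⟨m, hm, hmin⟩ : ∃ m : ℕ, ((τ2 * τ1) ^ m) v = w ∧ ∀ k < m, ((τ2 * τ1) ^ k) v ≠ w :=
    ⟨Nat.find hex, Nat.find_spec hex, fun k hk => Nat.find_min hex hk⟩
  have hm1 : 1 ≤ m := by
    rcases Nat.eq_zero_or_pos m with h0 | h0
    · rw [h0, pow_zero] at hm
      exact absurd hm hvw
    · exact h0
  have hsc : ∀ i : ℕ, (τ2 * τ1).SameCycle v (((τ2 * τ1) ^ i) v) := fun i =>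
    ⟨(i : ℤ), by rw [zpow_natCast]⟩
  have hwa : w ≠ a := by
    have := d6_ne h1.2.1 h2.2.1 (m : ℤ) hva
    rw [zpow_natCast, hm] at this
    exact this
  have hwb : w ≠ b := by
    have := d6_ne h1.2.2.1 h2.2.2.1 (m : ℤ) hvb
    rw [zpow_natCast, hm] at this
    exact this
  have hsucc : ∀ i : ℕ, ((τ2 * τ1) ^ (i + 1)) v = τ2 (τ1 (((τ2 * τ1) ^ i) v)) := by
    intro i
    rw [pow_succ', Equiv.Perm.mul_apply, Equiv.Perm.mul_apply]
  refine ⟨(range m).image (fun i => ((τ2 * τ1) ^ (i + 1)) v) ∪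
    (range m).image (fun i => τ1 (((τ2 * τ1) ^ i) v)), ?_, ?_, ?_, ?_, ?_, ?_, ?_⟩
  · intro u hu
    rcases Finset.mem_union.1 hu with hu | hu
    · obtain ⟨i, hi, rfl⟩ := Finset.mem_image.1 hu
      apply Finset.mem_union_right
      refine Finset.mem_image.2 ⟨i, hi, ?_⟩
      rw [hsucc, h2.1]
    · obtain ⟨i, hi, rfl⟩ := Finset.mem_image.1 hu
      apply Finset.mem_union_left
      exact Finset.mem_image.2 ⟨i, hi, hsucc i⟩
  · apply Finset.mem_union_right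
    exact Finset.mem_image.2 ⟨0, Finset.mem_range.2 hm1, by rw [pow_zero]; rfl⟩
  · apply Finset.mem_union_left
    refine Finset.mem_image.2 ⟨m - 1, Finset.mem_range.2 (by omega), ?_⟩
    rw [Nat.sub_add_cancel hm1, hm]
  · intro hu
    rcases Finset.mem_union.1 hu with hu | hu
    · obtain ⟨i, hi, hiv⟩ := Finset.mem_image.1 hu
      have hi' := Finset.mem_range.1 hi
      apply hmin (m - (i + 1)) (by omega)
      have h3 : ((τ2 * τ1) ^ m) v = ((τ2 * τ1) ^ (m - (i + 1))) (((τ2 * τ1) ^ (i + 1)) v) := by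
        rw [← Equiv.Perm.mul_apply, ← pow_add]
        congr 2
        omega
      rw [hiv, hm] at h3
      exact h3.symm
    · obtain ⟨i, hi, hiv⟩ := Finset.mem_image.1 hu
      have h3 : ((τ2 * τ1) ^ i) v = τ1 v := by
        have := congrArg τ1 hiv
        rwa [h1.1] at this
      apply no_fix h1 h2 hva hvb
      rw [← h3]
      exact hsc i
  · intro hu
    rcases Finset.mem_union.1 hu with hu | hu
    · obtain ⟨i, hi, hiv⟩ := Finset.mem_image.1 hu
      apply no_fix h1 h2 hwa hwb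
      refine hs.symm.trans ?_
      rw [← hiv]
      exact hsc (i + 1)
    · obtain ⟨i, hi, hiv⟩ := Finset.mem_image.1 hu
      exact hmin i (Finset.mem_range.1 hi) (τ1.injective hiv)
  · intro u hu huw huv
    rcases Finset.mem_union.1 hu with hu | hu
    · obtain ⟨i, hi, hiv⟩ := Finset.mem_image.1 hu
      have hi' := Finset.mem_range.1 hi
      have h3 : i + 1 ≠ m := by
        intro h4
        apply huw
        rw [← hiv]
        show ((τ2 * τ1) ^ (i + 1)) v = w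
        rw [h4, hm]
      apply Finset.mem_union_right
      exact Finset.mem_image.2 ⟨i + 1, Finset.mem_range.2 (by omega), by rw [← hiv]⟩
    · obtain ⟨i, hi, hiv⟩ := Finset.mem_image.1 hu
      have hi' := Finset.mem_range.1 hi
      have h3 : i ≠ 0 := by
        intro h4
        apply huv
        rw [← hiv, h4, pow_zero]
        rfl
      apply Finset.mem_union_left
      refine Finset.mem_image.2 ⟨i - 1, Finset.mem_range.2 (by omega), ?_⟩
      rw [← hiv, h1.1]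
      show ((τ2 * τ1) ^ (i - 1 + 1)) v = _
      rw [Nat.sub_add_cancel (by omega)]
  · intro u hu
    rcases Finset.mem_union.1 hu with hu | hu
    · obtain ⟨i, hi, rfl⟩ := Finset.mem_image.1 hu
      exact Or.inl (hsc (i + 1))
    · obtain ⟨i, hi, rfl⟩ := Finset.mem_image.1 hu
      right
      rw [h1.1]
      exact hsc i

end Pool.Agent.H44O
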