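import Pool.Agent.Lib.H44O.A1

/-!
# Chunk D8 (M): augmenting both matchings in the same way

For a matching `τ` (fixing exactly `a`, `b`) and `u ≠ a, b` let `π` be: `a ↔ u`, `b ↔ τ u`, and `τ`
elsewhere (`u ≠ τ u`, all of `a, b, u, τ u` are different). It is a perfect matching, and all its
edges are edges of `H` if `a ~ u` and `b ~ τ u`. With `π1`, `π2` obtained from `τ1`, `τ2` and the same
`u` (`τ2 u = τ1 u =: u'`) one has `chi π1 - chi π2 = chi τ1 - chi τ2` (compare the rows: rows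
`a, b, u, u'` of the right side are zero because `τ1` and `τ2` agree there, and
the same holds on the left side; in the other rows `π i = τ i`; the condition `u ≠ v` in `chi` takes
care of the rows `a`, `b` on the right). So the difference is in `lat H`
(`AddSubgroup.subset_closure`, `sub_mem`).
-/

namespace Pool.Agent.H44O

open Finset
open scoped Classical

variable {V : Type*} [Fintype V]

theorem d8_glue {V : Type*} {H : SimpleGraph V} {a u b u' : V} (hau : a ≠ u) (hab : a ≠ b)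
    (hau' : a ≠ u') (hub : u ≠ b) (huu' : u ≠ u') (hbu' : b ≠ u') (σ : V → V)
    (hσ : ∀ x, x ≠ a → x ≠ u → x ≠ b → x ≠ u' →
      (σ x ≠ a ∧ σ x ≠ u ∧ σ x ≠ b ∧ σ x ≠ u' ∧ σ (σ x) = x ∧ H.Adj x (σ x)))
    (h1 : H.Adj a u) (h2 : H.Adj b u') :
    ∃ π : Equiv.Perm V, IsPM π ∧ (∀ x, H.Adj x (π x)) ∧ π a = u ∧ π u = a ∧ π b = u' ∧
      π u' = b ∧ ∀ x, x ≠ a → x ≠ u → x ≠ b → x ≠ u' → π x = σ x := by
  set f : V → V := fun x => if x = a then u else if x = u then a else if x = b then u'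
    else if x = u' then b else σ x with hf
  have fa : f a = u := by simp [hf]
  have fu : f u = a := by simp [hf, hau.symm]
  have fb : f b = u' := by simp [hf, hab.symm, hub.symm]
  have fu' : f u' = b := by simp [hf, hau'.symm, huu'.symm, hbu'.symm]
  have fx : ∀ x, x ≠ a → x ≠ u → x ≠ b → x ≠ u' → f x = σ x := by
    intro x k1 k2 k3 k4
    simp [hf, k1, k2, k3, k4]
  have hinv : Function.Involutive f := by
    intro x
    by_cases k1 : x = a
    · rw [k1, fa, fu]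
    by_cases k2 : x = u
    · rw [k2, fu, fa]
    by_cases k3 : x = b
    · rw [k3, fb, fu']
    by_cases k4 : x = u'
    · rw [k4, fu', fb]
    obtain ⟨l1, l2, l3, l4, l5, -⟩ := hσ x k1 k2 k3 k4
    rw [fx x k1 k2 k3 k4, fx _ l1 l2 l3 l4, l5]
  have hadj : ∀ x, H.Adj x (f x) := by
    intro x
    by_cases k1 : x = a
    · rw [k1, fa]; exact h1
    by_cases k2 : x = u
    · rw [k2, fu]; exact h1.symm
    by_cases k3 : x = b
    · rw [k3, fb]; exact h2
    by_cases k4 : x = u'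
    · rw [k4, fu']; exact h2.symm
    rw [fx x k1 k2 k3 k4]
    exact (hσ x k1 k2 k3 k4).2.2.2.2.2
  exact ⟨hinv.toPerm f, ⟨fun x => hinv x, fun x h => (hadj x).ne h.symm⟩, hadj, fa, fu, fb, fu', fx⟩

theorem d8_chi_fix {V : Type*} {τ : Equiv.Perm V} {a : V} (h : τ a = a) (y : V) :
    chi τ a y = 0 := by
  unfold chi
  rw [h]
  exact if_neg fun h' => h'.2 h'.1

theorem d8_chi_ne {V : Type*} {τ : Equiv.Perm V} {x : V} (h : τ x ≠ x) (y : V) :
    chi τ x y = if τ x = y then 1 else 0 := by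
  unfold chi
  by_cases h1 : τ x = y
  · rw [if_pos ⟨h1, fun h2 => h (h1.trans h2.symm)⟩, if_pos h1]
  · rw [if_neg fun h' => h1 h'.1, if_neg h1]

theorem augment_mem {H : SimpleGraph V} {a b : V} (hab : a ≠ b) {τ1 τ2 : Equiv.Perm V}
    (h1 : IsNear H a b τ1) (h2 : IsNear H a b τ2) {u : V} (hua : u ≠ a) (hub : u ≠ b)
    (hau : H.Adj a u) (hbu : H.Adj b (τ1 u)) (heq : τ2 u = τ1 u) :
    chi τ1 - chi τ2 ∈ lat H := by
  obtain ⟨i1, fa1, fb1, ad1⟩ := h1
  obtain ⟨i2, fa2, fb2, ad2⟩ := h2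
  have nu : u ≠ τ1 u := (ad1 u hua hub).ne
  have m1 : ∀ {x y : V}, τ1 x = y → x = τ1 y := fun {x y} h => by rw [← h, i1]
  have m2 : ∀ {x y : V}, τ2 x = y → x = τ2 y := fun {x y} h => by rw [← h, i2]
  have hau' : a ≠ τ1 u := fun h => hua (by rw [m1 h.symm, fa1])
  have hbu' : b ≠ τ1 u := fun h => hub (by rw [m1 h.symm, fb1])
  have heq' : τ2 (τ1 u) = u := by rw [← heq, i2]
  obtain ⟨P1, p1, q1, P1a, P1u, P1b, P1u', P1x⟩ := d8_glue (H := H) (a := a) (u := u) (b := b)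
    (u' := τ1 u) hua.symm hab hau' hub nu hbu' τ1 (by
      intro x k1 k2 k3 k4
      exact ⟨fun h => k1 (by rw [m1 h, fa1]), fun h => k4 (m1 h), fun h => k3 (by rw [m1 h, fb1]),
        fun h => k2 (τ1.injective h), i1 x, ad1 x k1 k3⟩) hau hbu
  obtain ⟨P2, p2, q2, P2a, P2u, P2b, P2u', P2x⟩ := d8_glue (H := H) (a := a) (u := u) (b := b)
    (u' := τ1 u) hua.symm hab hau' hub nu hbu' τ2 (by
      intro x k1 k2 k3 k4
      exact ⟨fun h => k1 (by rw [m2 h, fa2]), fun h => k4 (by rw [m2 h, heq]),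
        fun h => k3 (by rw [m2 h, fb2]),
        fun h => k2 (by rw [m2 h, heq']), i2 x, ad2 x k1 k3⟩) hau hbu
  have key : chi τ1 - chi τ2 = chi P1 - chi P2 := by
    funext x y
    simp only [Pi.sub_apply]
    rw [chi_pm p1, chi_pm p2]
    by_cases k1 : x = a
    · subst k1
      rw [d8_chi_fix fa1, d8_chi_fix fa2, P1a, P2a]
      ring
    by_cases k2 : x = b
    · subst k2
      rw [d8_chi_fix fb1, d8_chi_fix fb2, P1b, P2b]
      ring
    have n1 : τ1 x ≠ x := (ad1 x k1 k2).ne.symm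
    have n2 : τ2 x ≠ x := (ad2 x k1 k2).ne.symm
    rw [d8_chi_ne n1, d8_chi_ne n2]
    by_cases k3 : x = u
    · subst k3
      rw [P1u, P2u, heq]
      ring
    by_cases k4 : x = τ1 u
    · subst k4
      rw [P1u', P2u', heq', i1]
      ring
    rw [P1x x k1 k3 k2 k4, P2x x k1 k3 k2 k4]
  have mem : ∀ {P : Equiv.Perm V}, IsPM P → (∀ x, H.Adj x (P x)) → chi P ∈ lat H :=
    fun {P} hp hq => AddSubgroup.subset_closure ⟨P, hp, hq, rfl⟩
  rw [key]
  exact sub_mem (mem p1 q1) (mem p2 q2)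

end Pool.Agent.H44O
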