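import Pool.Agent.Lib.H44O.A1

/-!
# Chunk D9 (M/L): the identity with four perfect matchings

Write `v' = τ1 v`, `w' = τ1 w`. The four perfect matchings (define each one by `if`s, show that it
is an involution, use `Function.Involutive.toPerm`):
* `P1`: `a ↔ v`, `b ↔ v'`, and `τ1` elsewhere;
* `P2`: `a ↔ w`, `b ↔ w'`, and `τ1` elsewhere;
* `P3`: `a ↔ v`, `b ↔ w'`, `τ2` on `A`, and `τ1` elsewhere (that is outside `A ∪ {v, w', a, b}`).
  This set is closed under `τ1`: if `u ∉ A`, `u ≠ v`, `u ≠ w'` and `τ1 u ∈ A`, then `τ1 u = w` gives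
  `u = w'`, `τ1 u = v'` gives `u = v`, and otherwise `hA1` gives `u = τ1 (τ1 u) ∈ A`.
* `P4`: `a ↔ w`, `b ↔ v'`, `τ2` on `C \ A`, and `τ1` elsewhere (on `A` without `w` and `v'`, and
  outside `C`). `C \ A` is closed under `τ2` since `C` and `A` are (`τ2` is an involution); `A`
  without `w`, `v'` is closed under `τ1` by `hA1`, `hw1`, `hvA`.
All their edges are edges of `H`. Identity: `chi P1 + chi P2 - chi P3 - chi P4 = chi τ1 - chi τ2`.
Check it row by row (row `u` of `chi P` is the indicator of `P u`):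
* `u = a`: `v, w; v, w`. `u = b`: `v', w'; w', v'`. Right side zero (fixed points).
* `u = v`: `P1 v = a, P2 v = v'; P3 v = a, P4 v = τ2 v`: difference `[v'] - [τ2 v] = [τ1 v] - [τ2 v]`.
* `u = w` (in `A`): `w', a; τ2 w, a`. `u = v'` (in `A`): `b, v; τ2 v', b`. `u = w'` (in `C \ A`):
  `w, b; b, τ2 w'`.
* other `u ∈ A`: `τ1 u, τ1 u; τ2 u, τ1 u`; other `u ∈ C \ A`: `τ1 u, τ1 u; τ1 u, τ2 u`;
  `u ∉ C`, `u ≠ a, b`: all four are `τ1 u`, and `τ2 u = τ1 u`.
-/

namespace Pool.Agent.H44O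

open Finset
open scoped Classical

variable {V : Type*} [Fintype V]

theorem d9_glue {V : Type*} {H : SimpleGraph V} {a u b u' : V} (hau : a ≠ u) (hab : a ≠ b)
    (hau' : a ≠ u') (hub : u ≠ b) (huu' : u ≠ u') (hbu' : b ≠ u') (σ : V → V)
    (hσ : ∀ x, x ≠ a → x ≠ u → x ≠ b → x ≠ u' →
      (σ x ≠ a ∧ σ x ≠ u ∧ σ x ≠ b ∧ σ x ≠ u' ∧ σ (σ x) = x ∧ H.Adj x (σ x)))
    (h1 : H.Adj a u) (h2 : H.Adj b u') :
    ∃ π : Equiv.Perm V, IsPM π ∧ (∀ x, H.Adj x (π x)) ∧ π a = u ∧ π u = a ∧ π b = u' ∧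
      π u' = b ∧ ∀ x, x ≠ a → x ≠ u → x ≠ b → x ≠ u' → π x = σ x := by
  set f : V → V := fun x => if x = a then u else if x = u then a else if x = b then u'
    else if x = u' then b else σ x with hf
  have fa : f a = u := by simp [hf]
  have fu : f u = a := by simp [hf, hau.symm]
  have fb : f b = u' := by simp [hf, hab.symm, hub.symm]
  have fu' : f u' = b := by simp [hf, hau'.symm, huu'.symm, hbu'.symm]
  have fx : ∀ x, x ≠ a → x ≠ u → x ≠ b → x ≠ u' → f x = σ x := by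
    intro x k1 k2 k3 k4
    simp [hf, k1, k2, k3, k4]
  have hinv : Function.Involutive f := by
    intro x
    by_cases k1 : x = a
    · rw [k1, fa, fu]
    by_cases k2 : x = u
    · rw [k2, fu, fa]
    by_cases k3 : x = b
    · rw [k3, fb, fu']
    by_cases k4 : x = u'
    · rw [k4, fu', fb]
    obtain ⟨l1, l2, l3, l4, l5, -⟩ := hσ x k1 k2 k3 k4
    rw [fx x k1 k2 k3 k4, fx _ l1 l2 l3 l4, l5]
  have hadj : ∀ x, H.Adj x (f x) := by
    intro x
    by_cases k1 : x = a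
    · rw [k1, fa]; exact h1
    by_cases k2 : x = u
    · rw [k2, fu]; exact h1.symm
    by_cases k3 : x = b
    · rw [k3, fb]; exact h2
    by_cases k4 : x = u'
    · rw [k4, fu']; exact h2.symm
    rw [fx x k1 k2 k3 k4]
    exact (hσ x k1 k2 k3 k4).2.2.2.2.2
  exact ⟨hinv.toPerm f, ⟨fun x => hinv x, fun x h => (hadj x).ne h.symm⟩, hadj, fa, fu, fb, fu', fx⟩

theorem d9_chi_fix {V : Type*} {τ : Equiv.Perm V} {a : V} (h : τ a = a) (y : V) :
    chi τ a y = 0 := by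
  unfold chi
  rw [h]
  exact if_neg fun h' => h'.2 h'.1

theorem d9_chi_ne {V : Type*} {τ : Equiv.Perm V} {x : V} (h : τ x ≠ x) (y : V) :
    chi τ x y = if τ x = y then 1 else 0 := by
  unfold chi
  by_cases h1 : τ x = y
  · rw [if_pos ⟨h1, fun h2 => h (h1.trans h2.symm)⟩, if_pos h1]
  · rw [if_neg fun h' => h1 h'.1, if_neg h1]

theorem four_mem {H : SimpleGraph V} {a b : V} (hab : a ≠ b) {τ1 τ2 : Equiv.Perm V}
    (h1 : IsNear H a b τ1) (h2 : IsNear H a b τ2) {C A : Finset V} {v w : V}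
    (hC1 : ∀ u ∈ C, τ1 u ∈ C) (hC2 : ∀ u ∈ C, τ2 u ∈ C) (hCo : ∀ u, u ∉ C → τ2 u = τ1 u)
    (haC : a ∉ C) (hbC : b ∉ C) (hAC : A ⊆ C) (hA2 : ∀ u ∈ A, τ2 u ∈ A) (hv : v ∈ C)
    (hvA : v ∉ A) (hw : w ∈ A) (hv1 : τ1 v ∈ A) (hw1 : τ1 w ∉ A)
    (hA1 : ∀ u ∈ A, u ≠ w → u ≠ τ1 v → τ1 u ∈ A) (hwv : w ≠ τ1 v)
    (hav : H.Adj a v) (hbv : H.Adj b (τ1 v)) (haw : H.Adj a w) (hbw : H.Adj b (τ1 w)) :
    chi τ1 - chi τ2 ∈ lat H := by
  obtain ⟨i1, fa1, fb1, ad1⟩ := h1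
  obtain ⟨i2, fa2, fb2, ad2⟩ := h2
  have hwC : w ∈ C := hAC hw
  have hv1C : τ1 v ∈ C := hAC hv1
  have hw1C : τ1 w ∈ C := hC1 w hwC
  have ne_of : ∀ {x y : V}, x ∈ C → y ∉ C → x ≠ y := fun hx hy h => hy (h ▸ hx)
  have neA : ∀ {x y : V}, x ∈ A → y ∉ A → x ≠ y := fun hx hy h => hy (h ▸ hx)
  -- moving an equation through `τ1`
  have mv : ∀ {x y : V}, τ1 x = y → x = τ1 y := fun {x y} h => by rw [← h, i1]
  have sw : ∀ {x y : V}, τ1 x = τ1 y → x = y := fun {x y} h => τ1.injective h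
  have hvw' : v ≠ τ1 w := fun h => hwv (by rw [h, i1])
  have nv : v ≠ τ1 v := (ad1 v (ne_of hv haC) (ne_of hv hbC)).ne
  have nw : w ≠ τ1 w := (ad1 w (ne_of hwC haC) (ne_of hwC hbC)).ne
  have t1a : ∀ {x : V}, x ≠ a → τ1 x ≠ a := fun {x} hx h => hx (by rw [mv h, fa1])
  have t1b : ∀ {x : V}, x ≠ b → τ1 x ≠ b := fun {x} hx h => hx (by rw [mv h, fb1])
  have A2' : ∀ x, x ∉ A → τ2 x ∉ A := fun x hx h => hx (by have := hA2 _ h; rwa [i2] at this)
  have C1' : ∀ x, x ∉ C → τ1 x ∉ C := fun x hx h => hx (by have := hC1 _ h; rwa [i1] at this)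
  -- the four perfect matchings
  obtain ⟨P1, p1, q1, P1a, P1v, P1b, P1v', P1x⟩ := d9_glue (H := H) (a := a) (u := v) (b := b)
    (u' := τ1 v) (ne_of hv haC).symm hab (ne_of hv1C haC).symm (ne_of hv hbC) nv
    (ne_of hv1C hbC).symm τ1 (by
      intro x k1 k2 k3 k4
      exact ⟨t1a k1, fun h => k4 (mv h), t1b k3, fun h => k2 (sw h), i1 x, ad1 x k1 k3⟩) hav hbv
  obtain ⟨P2, p2, q2, P2a, P2w, P2b, P2w', P2x⟩ := d9_glue (H := H) (a := a) (u := w) (b := b)
    (u' := τ1 w) (ne_of hwC haC).symm hab (ne_of hw1C haC).symm (ne_of hwC hbC) nw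
    (ne_of hw1C hbC).symm τ1 (by
      intro x k1 k2 k3 k4
      exact ⟨t1a k1, fun h => k4 (mv h), t1b k3, fun h => k2 (sw h), i1 x, ad1 x k1 k3⟩) haw hbw
  obtain ⟨P3, p3, q3, P3a, P3v, P3b, P3w', P3x⟩ := d9_glue (H := H) (a := a) (u := v) (b := b)
    (u' := τ1 w) (ne_of hv haC).symm hab (ne_of hw1C haC).symm (ne_of hv hbC) hvw'
    (ne_of hw1C hbC).symm (fun x => if x ∈ A then τ2 x else τ1 x) (by
      intro x k1 k2 k3 k4
      by_cases hx : x ∈ A
      · have hx2 := hA2 x hx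
        simp only [if_pos hx, if_pos hx2]
        exact ⟨ne_of (hAC hx2) haC, neA hx2 hvA, ne_of (hAC hx2) hbC, neA hx2 hw1, i2 x,
          ad2 x k1 k3⟩
      · have hx1 : τ1 x ∉ A := by
          intro hz
          by_cases z1 : τ1 x = w
          · exact k4 (mv z1)
          by_cases z2 : τ1 x = τ1 v
          · exact k2 (sw z2)
          have := hA1 _ hz z1 z2
          rw [i1] at this
          exact hx this
        simp only [if_neg hx, if_neg hx1]
        refine ⟨t1a k1, fun h => ?_, t1b k3, fun h => ?_, i1 x, ad1 x k1 k3⟩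
        · exact hx (by rw [mv h]; exact hv1)
        · exact hx (by rw [sw h]; exact hw)) hav hbw
  obtain ⟨P4, p4, q4, P4a, P4w, P4b, P4v', P4x⟩ := d9_glue (H := H) (a := a) (u := w) (b := b)
    (u' := τ1 v) (ne_of hwC haC).symm hab (ne_of hv1C haC).symm (ne_of hwC hbC) hwv
    (ne_of hv1C hbC).symm (fun x => if x ∈ C ∧ x ∉ A then τ2 x else τ1 x) (by
      intro x k1 k2 k3 k4
      by_cases hx : x ∈ C ∧ x ∉ A
      · have hx2 : τ2 x ∈ C ∧ τ2 x ∉ A := ⟨hC2 x hx.1, A2' x hx.2⟩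
        simp only [if_pos hx, if_pos hx2]
        exact ⟨ne_of hx2.1 haC, (neA hw hx2.2).symm, ne_of hx2.1 hbC, (neA hv1 hx2.2).symm, i2 x,
          ad2 x k1 k3⟩
      · by_cases hxA : x ∈ A
        · have hx1 : τ1 x ∈ A := hA1 x hxA k2 k4
          have hx1' : ¬ (τ1 x ∈ C ∧ τ1 x ∉ A) := fun h => h.2 hx1
          simp only [if_neg hx, if_neg hx1']
          refine ⟨t1a k1, fun h => ?_, t1b k3, fun h => ?_, i1 x, ad1 x k1 k3⟩
          · exact hw1 (by rw [← mv h]; exact hxA)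
          · exact hvA (by rw [← sw h]; exact hxA)
        · have hxC : x ∉ C := fun h => hx ⟨h, hxA⟩
          have hx1 := C1' x hxC
          have hx1' : ¬ (τ1 x ∈ C ∧ τ1 x ∉ A) := fun h => hx1 h.1
          simp only [if_neg hx, if_neg hx1']
          exact ⟨t1a k1, (ne_of hwC hx1).symm, t1b k3, (ne_of hv1C hx1).symm, i1 x,
            ad1 x k1 k3⟩) haw hbv
  have key : chi τ1 - chi τ2 = chi P1 + chi P2 - chi P3 - chi P4 := by
    funext x y
    simp only [Pi.sub_apply, Pi.add_apply]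
    rw [chi_pm p1, chi_pm p2, chi_pm p3, chi_pm p4]
    by_cases k1 : x = a
    · subst k1
      rw [d9_chi_fix fa1, d9_chi_fix fa2, P1a, P2a, P3a, P4a]
      ring
    by_cases k2 : x = b
    · subst k2
      rw [d9_chi_fix fb1, d9_chi_fix fb2, P1b, P2b, P3b, P4b]
      ring
    have n1 : τ1 x ≠ x := (ad1 x k1 k2).ne.symm
    have n2 : τ2 x ≠ x := (ad2 x k1 k2).ne.symm
    rw [d9_chi_ne n1, d9_chi_ne n2]
    by_cases k3 : x = v
    · subst k3
      have e2 := P2x x k1 (neA hw hvA).symm k2 hvw'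
      have e4 := P4x x k1 (neA hw hvA).symm k2 nv
      simp only [if_pos (show x ∈ C ∧ x ∉ A from ⟨hv, hvA⟩)] at e4
      rw [P1v, e2, P3v, e4]
      ring
    by_cases k4 : x = w
    · subst k4
      have e1 := P1x x k1 k3 k2 hwv
      have e3 := P3x x k1 k3 k2 nw
      simp only [if_pos hw] at e3
      rw [e1, P2w, e3, P4w]
      ring
    by_cases k5 : x = τ1 v
    · subst k5
      have e2 := P2x _ k1 k4 k2 (fun h => k4 (by rw [sw h] at hvA; exact absurd hw hvA))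
      have e3 := P3x _ k1 k3 k2 (fun h => k4 (by rw [sw h] at hvA; exact absurd hw hvA))
      simp only [if_pos hv1] at e3
      rw [P1v', e2, e3, P4v']
      ring
    by_cases k6 : x = τ1 w
    · subst k6
      have e1 := P1x _ k1 k3 k2 k5
      have e4 := P4x _ k1 k4 k2 k5
      simp only [if_pos (show τ1 w ∈ C ∧ τ1 w ∉ A from ⟨hw1C, hw1⟩)] at e4
      rw [e1, P2w', P3w', e4]
      ring
    have e1 := P1x x k1 k3 k2 k5
    have e2 := P2x x k1 k4 k2 k6
    have e3 := P3x x k1 k3 k2 k6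
    have e4 := P4x x k1 k4 k2 k5
    by_cases hA : x ∈ A
    · simp only [if_pos hA] at e3
      simp only [if_neg (show ¬ (x ∈ C ∧ x ∉ A) from fun h => h.2 hA)] at e4
      rw [e1, e2, e3, e4]
      ring
    · simp only [if_neg hA] at e3
      by_cases hC : x ∈ C
      · simp only [if_pos (show x ∈ C ∧ x ∉ A from ⟨hC, hA⟩)] at e4
        rw [e1, e2, e3, e4]
        ring
      · simp only [if_neg (show ¬ (x ∈ C ∧ x ∉ A) from fun h => hC h.1)] at e4
        rw [e1, e2, e3, e4, hCo x hC]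
        ring
  have mem : ∀ {P : Equiv.Perm V}, IsPM P → (∀ x, H.Adj x (P x)) → chi P ∈ lat H :=
    fun {P} hp hq => AddSubgroup.subset_closure ⟨P, hp, hq, rfl⟩
  rw [key]
  exact sub_mem (sub_mem (add_mem (mem p1 q1) (mem p2 q2)) (mem p3 q3)) (mem p4 q4)

end Pool.Agent.H44O
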