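import Pool.Agent.Lib.H44O.D5
import Pool.Agent.Lib.H44O.D7
import Pool.Agent.Lib.H44O.D8
import Pool.Agent.Lib.H44O.D9

/-!
# Chunk D10 (M): two matchings that differ on one cycle

Let `ρ = τ2 * τ1`, `C := {u | SameCycle ρ q u ∨ SameCycle ρ q (τ1 u)}`. By `cyc_one`, `cyc_two` it is
closed under `τ1` and `τ2`; `a, b ∉ C` by `cyc_fix`; `τ1 = τ2` outside `C` by `hout`.
Case 1: there is `u ∉ C`, `u ≠ a, b`, with `a ~ u`, `b ~ τ1 u`: `augment_mem`.
Case 2: otherwise `count_full` (with `τ = τ1`) gives three different full vertices in `C`. Each is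
in the cycle of `q` or its image under `τ1` is; so two of them, `v ≠ w`, are both in the cycle of
`q`, or `τ1 v`, `τ1 w` both are; in both cases `SameCycle ρ v w` (`same_conj`). Take `A` from
`exists_arc`. `A ⊆ C`: its elements `u` satisfy `SameCycle ρ v u ∨ SameCycle ρ v (τ1 u)`, and
`v ∈ C`; if `SameCycle ρ q v` this is immediate; if `SameCycle ρ q (τ1 v)` use that
`SameCycle ρ v u` implies `SameCycle ρ (τ1 v) (τ1 u)` (apply `same_conj` to `τ1 v`, `τ1 u`).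
`w ≠ τ1 v` by `no_fix`. Now `four_mem`.
-/

namespace Pool.Agent.H44O

open Finset
open scoped Classical

variable {V : Type*} [Fintype V]

theorem cycle_mem {H : SimpleGraph V} {a b : V} (hab : a ≠ b) (hn : ¬ H.Adj a b)
    (hd : Fintype.card V + 1 ≤ nb H a + nb H b) {τ1 τ2 : Equiv.Perm V}
    (h1 : IsNear H a b τ1) (h2 : IsNear H a b τ2) {q : V} (hqa : q ≠ a) (hqb : q ≠ b)
    (hout : ∀ u, ¬ ((τ2 * τ1).SameCycle q u ∨ (τ2 * τ1).SameCycle q (τ1 u)) → τ2 u = τ1 u) :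
    chi τ1 - chi τ2 ∈ lat H := by
  obtain ⟨C, hC⟩ : ∃ C : Finset V, ∀ u, u ∈ C ↔
      ((τ2 * τ1).SameCycle q u ∨ (τ2 * τ1).SameCycle q (τ1 u)) :=
    ⟨univ.filter fun u => (τ2 * τ1).SameCycle q u ∨ (τ2 * τ1).SameCycle q (τ1 u), by simp⟩
  have i1 := h1.1
  have hC1 : ∀ u ∈ C, τ1 u ∈ C := fun u hu => (hC _).2 (cyc_one h1 ((hC u).1 hu))
  have hC2 : ∀ u ∈ C, τ2 u ∈ C := fun u hu => (hC _).2 (cyc_two h1 h2 ((hC u).1 hu))
  have haC : a ∉ C := fun h => (cyc_fix h1 h2 hqa hqb).1 ((hC a).1 h)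
  have hbC : b ∉ C := fun h => (cyc_fix h1 h2 hqa hqb).2 ((hC b).1 h)
  have hCo : ∀ u, u ∉ C → τ2 u = τ1 u := fun u hu => hout u fun h => hu ((hC u).2 h)
  by_cases hex : ∃ u, u ∉ C ∧ u ≠ a ∧ u ≠ b ∧ H.Adj a u ∧ H.Adj b (τ1 u)
  · obtain ⟨u, huC, hua, hub, hau, hbu⟩ := hex
    exact augment_mem hab h1 h2 hua hub hau hbu (hCo u huC)
  have h3 := count_full hab hn hd h1 haC hbC
    (fun u huC hua hub h => hex ⟨u, huC, hua, hub, h.1, h.2⟩)
  set F := C.filter (fun v => H.Adj a v ∧ H.Adj b (τ1 v)) with hF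
  have hle : F.card ≤ (F.filter fun v => (τ2 * τ1).SameCycle q v).card +
      (F.filter fun v => (τ2 * τ1).SameCycle q (τ1 v)).card := by
    refine le_trans (card_le_card ?_) (card_union_le _ _)
    intro v hv
    rcases (hC v).1 (mem_filter.1 hv).1 with h | h
    · exact mem_union_left _ (mem_filter.2 ⟨hv, h⟩)
    · exact mem_union_right _ (mem_filter.2 ⟨hv, h⟩)
  have hpair : ∃ v w, v ∈ F ∧ w ∈ F ∧ v ≠ w ∧ (τ2 * τ1).SameCycle v w := by
    rcases (by omega : 1 < (F.filter fun v => (τ2 * τ1).SameCycle q v).card ∨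
      1 < (F.filter fun v => (τ2 * τ1).SameCycle q (τ1 v)).card) with h | h
    · obtain ⟨v, hv, w, hw, hvw⟩ := one_lt_card.1 h
      rw [mem_filter] at hv hw
      exact ⟨v, w, hv.1, hw.1, hvw, hv.2.symm.trans hw.2⟩
    · obtain ⟨v, hv, w, hw, hvw⟩ := one_lt_card.1 h
      rw [mem_filter] at hv hw
      exact ⟨v, w, hv.1, hw.1, hvw, same_conj h1 h2 (hv.2.symm.trans hw.2)⟩
  obtain ⟨v, w, hvF, hwF, hvw, hs⟩ := hpair
  obtain ⟨hvC, hav, hbv⟩ := mem_filter.1 hvF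
  obtain ⟨hwC, haw, hbw⟩ := mem_filter.1 hwF
  have hva : v ≠ a := fun h => haC (h ▸ hvC)
  have hvb : v ≠ b := fun h => hbC (h ▸ hvC)
  obtain ⟨A, hA2, hv1, hwA, hvA, hw1, hA1, hAs⟩ := exists_arc h1 h2 hva hvb hvw hs
  have hAC : A ⊆ C := by
    intro u hu
    rw [hC]
    rcases (hC v).1 hvC with h | h
    · rcases hAs u hu with h' | h'
      · exact Or.inl (h.trans h')
      · exact Or.inr (h.trans h')
    · rcases hAs u hu with h' | h'
      · refine Or.inr (h.trans (same_conj h1 h2 ?_))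
        rw [i1, i1]
        exact h'
      · refine Or.inl (h.trans (same_conj h1 h2 ?_))
        rw [i1]
        exact h'
  have hwv : w ≠ τ1 v := by
    intro h
    rw [h] at hs
    exact no_fix h1 h2 hva hvb hs
  exact four_mem hab h1 h2 hC1 hC2 hCo haC hbC hAC hA2 hvC hvA hwA hv1 hw1 hA1 hwv hav hbv haw hbw

end Pool.Agent.H44O
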