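import Pool.Agent.Lib.H44O.D10

/-!
# Chunk D11 (M): two arbitrary matchings

Strong induction on the number of `u` with `τ1 u ≠ τ2 u` (with `τ1` generalised). If it is zero,
`τ1 = τ2` and the difference is `0`. Otherwise take `q` with `τ1 q ≠ τ2 q` (so `q ≠ a, b`), `ρ = τ2 * τ1`,
`C := {u | SameCycle ρ q u ∨ SameCycle ρ q (τ1 u)}` (closed under `τ1`, `τ2`, `a, b ∉ C`: `D6`).
Let `τ'` be `τ2` on `C` and `τ1` elsewhere; it is again an involution with `IsNear H a b τ'`.
* `chi τ1 - chi τ' ∈ lat H` by `cycle_mem` for `τ1`, `τ'`, `q`: with `ρ' = τ' * τ1` one has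
  `ρ' u = ρ u` for `u ∈ C`, so `SameCycle ρ q u` implies `SameCycle ρ' q u` (use natural powers,
  `ρ' ^ n q = ρ ^ n q` by induction, all in `C`); so `u` outside the set of `ρ'` is outside `C`
  (both alternatives), where `τ' u = τ1 u`.
* `chi τ' - chi τ2 ∈ lat H` by the induction hypothesis: `τ'` and `τ2` agree on `C` (in particular
  at `q`) and where `τ1` and `τ2` agree.
-/

namespace Pool.Agent.H44O

open Finset
open scoped Classical

variable {V : Type*} [Fintype V]

theorem near_sub_mem {H : SimpleGraph V} {a b : V} (hab : a ≠ b) (hn : ¬ H.Adj a b)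
    (hd : Fintype.card V + 1 ≤ nb H a + nb H b) {τ1 τ2 : Equiv.Perm V}
    (h1 : IsNear H a b τ1) (h2 : IsNear H a b τ2) : chi τ1 - chi τ2 ∈ lat H := by
  have key : ∀ n : ℕ, ∀ τ1 : Equiv.Perm V, IsNear H a b τ1 →
      (univ.filter fun u => τ1 u ≠ τ2 u).card ≤ n → chi τ1 - chi τ2 ∈ lat H := by
    intro n
    induction n with
    | zero =>
      intro τ1 _ hc
      have he : τ1 = τ2 := by
        ext u
        by_contra hu
        have h0 := card_eq_zero.1 (Nat.le_zero.1 hc)
        have : u ∈ (univ.filter fun u => τ1 u ≠ τ2 u) := mem_filter.2 ⟨mem_univ _, hu⟩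
        rw [h0] at this
        exact absurd this (notMem_empty _)
      rw [he, sub_self]
      exact zero_mem _
    | succ n ih =>
      intro τ1 h1 hc
      by_cases hq : ∃ q, τ1 q ≠ τ2 q
      swap
      · have he : τ1 = τ2 := by
          ext u
          by_contra hu
          exact hq ⟨u, hu⟩
        rw [he, sub_self]
        exact zero_mem _
      obtain ⟨q, hq⟩ := hq
      have hqa : q ≠ a := fun h => hq (by rw [h, h1.2.1, h2.2.1])
      have hqb : q ≠ b := fun h => hq (by rw [h, h1.2.2.1, h2.2.2.1])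
      obtain ⟨C, hC⟩ : ∃ C : Finset V, ∀ u, u ∈ C ↔
          ((τ2 * τ1).SameCycle q u ∨ (τ2 * τ1).SameCycle q (τ1 u)) :=
        ⟨univ.filter fun u => (τ2 * τ1).SameCycle q u ∨ (τ2 * τ1).SameCycle q (τ1 u), by simp⟩
      have i1 := h1.1
      have i2 := h2.1
      have hC1 : ∀ u ∈ C, τ1 u ∈ C := fun u hu => (hC _).2 (cyc_one h1 ((hC u).1 hu))
      have hC2 : ∀ u ∈ C, τ2 u ∈ C := fun u hu => (hC _).2 (cyc_two h1 h2 ((hC u).1 hu))
      have haC : a ∉ C := fun h => (cyc_fix h1 h2 hqa hqb).1 ((hC a).1 h)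
      have hbC : b ∉ C := fun h => (cyc_fix h1 h2 hqa hqb).2 ((hC b).1 h)
      have hqC : q ∈ C := (hC q).2 (Or.inl (Equiv.Perm.SameCycle.refl _ _))
      have hC1' : ∀ u, u ∉ C → τ1 u ∉ C := fun u hu h =>
        hu (by have := hC1 _ h; rwa [i1] at this)
      set f : V → V := fun u => if u ∈ C then τ2 u else τ1 u with hf
      have fC : ∀ u ∈ C, f u = τ2 u := fun u hu => if_pos hu
      have fN : ∀ u, u ∉ C → f u = τ1 u := fun u hu => if_neg hu
      have finv : Function.Involutive f := by
        intro u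
        by_cases hu : u ∈ C
        · rw [fC u hu, fC _ (hC2 u hu), i2]
        · rw [fN u hu, fN _ (hC1' u hu), i1]
      let τ' : Equiv.Perm V := finv.toPerm f
      have tC : ∀ u ∈ C, τ' u = τ2 u := fC
      have tN : ∀ u, u ∉ C → τ' u = τ1 u := fN
      have h' : IsNear H a b τ' := by
        refine ⟨finv, ?_, ?_, ?_⟩
        · rw [tN a haC, h1.2.1]
        · rw [tN b hbC, h1.2.2.1]
        · intro v hva hvb
          by_cases hv : v ∈ C
          · rw [tC v hv]; exact h2.2.2.2 v hva hvb
          · rw [tN v hv]; exact h1.2.2.2 v hva hvb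
      have hpow : ∀ m : ℕ, ((τ2 * τ1) ^ m) q ∈ C ∧ ((τ' * τ1) ^ m) q = ((τ2 * τ1) ^ m) q := by
        intro m
        induction m with
        | zero => exact ⟨hqC, rfl⟩
        | succ m ihm =>
          rw [pow_succ', pow_succ', Equiv.Perm.mul_apply, Equiv.Perm.mul_apply,
            Equiv.Perm.mul_apply (τ' * τ1), Equiv.Perm.mul_apply τ', ihm.2]
          have hy := hC1 _ ihm.1
          exact ⟨hC2 _ hy, tC _ hy⟩
      have hsc : ∀ z, (τ2 * τ1).SameCycle q z → (τ' * τ1).SameCycle q z := by
        intro z hz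
        obtain ⟨m, -, -, hm⟩ := hz.exists_pow_eq''
        exact ⟨m, by rw [zpow_natCast, (hpow m).2, hm]⟩
      have k1 : chi τ1 - chi τ' ∈ lat H := by
        refine cycle_mem hab hn hd h1 h' hqa hqb fun u hu => tN u fun huC => hu ?_
        rcases (hC u).1 huC with h | h
        · exact Or.inl (hsc _ h)
        · exact Or.inr (hsc _ h)
      have k2 : chi τ' - chi τ2 ∈ lat H := by
        refine ih τ' h' ?_
        have hlt : (univ.filter fun u => τ' u ≠ τ2 u).card <
            (univ.filter fun u => τ1 u ≠ τ2 u).card := by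
          refine card_lt_card ⟨?_, ?_⟩
          · intro u hu
            have hu := (mem_filter.1 hu).2
            refine mem_filter.2 ⟨mem_univ _, ?_⟩
            by_cases huC : u ∈ C
            · exact absurd (tC u huC) hu
            · rwa [tN u huC] at hu
          · intro hsub
            have := (mem_filter.1 (hsub (mem_filter.2 ⟨mem_univ q, hq⟩))).2
            exact this (tC q hqC)
        omega
      have : chi τ1 - chi τ2 = (chi τ1 - chi τ') + (chi τ' - chi τ2) := by abel
      rw [this]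
      exact add_mem k1 k2
  exact key _ τ1 h1 le_rfl

end Pool.Agent.H44O
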