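import Pool.Agent.Lib.H44O.Defs

/-!
# Chunk D2 (S/M): involutions with a prescribed support of even size

* `exists_invol`: strong induction on `W.card`. If `W = ∅`: the identity. Otherwise take `p ≠ q` in
  `W` (even and positive, so at least two), `τ'` for `W \ {p, q}` and
  `τ = τ' * Equiv.swap p q` (`τ'` fixes `p` and `q`).
* `exists_near_top`: `W = univ \ {a, b}`.
-/

namespace Pool.Agent.H44O

open Finset
open scoped Classical

variable {V : Type*} [Fintype V]

theorem exists_invol (W : Finset V) (hW : Even W.card) :
    ∃ τ : Equiv.Perm V, (∀ v, τ (τ v) = v) ∧ ∀ v, τ v ≠ v ↔ v ∈ W := by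
  induction hn : W.card using Nat.strong_induction_on generalizing W with
  | _ n ih =>
    by_cases hW0 : W = ∅
    · exact ⟨1, fun v => rfl, fun v => by simp [hW0]⟩
    · obtain ⟨p, hp⟩ := Finset.nonempty_iff_ne_empty.2 hW0
      have hc1 : (W.erase p).card = W.card - 1 := card_erase_of_mem hp
      have hpos : 0 < W.card := card_pos.2 ⟨p, hp⟩
      have h2 : 0 < (W.erase p).card := by
        rw [hc1]
        rcases hW with ⟨k, hk⟩
        omega
      obtain ⟨q, hq⟩ := card_pos.1 h2
      have hqp : q ≠ p := (mem_erase.1 hq).1
      have hqW : q ∈ W := (mem_erase.1 hq).2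
      have hc2 : ((W.erase p).erase q).card = W.card - 2 := by
        rw [card_erase_of_mem hq, hc1]
        omega
      have hev : Even ((W.erase p).erase q).card := by
        rw [hc2]
        rcases hW with ⟨k, hk⟩
        exact ⟨k - 1, by omega⟩
      obtain ⟨τ, ht1, ht2⟩ := ih _ (by rw [hc2]; omega) ((W.erase p).erase q) hev rfl
      have htp : τ p = p := by
        by_contra h
        have := (ht2 p).1 h
        simp at this
      have htq : τ q = q := by
        by_contra h
        have := (ht2 q).1 h
        simp at this
      have hne : ∀ v, v ≠ p → v ≠ q → τ v ≠ p ∧ τ v ≠ q := by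
        intro v hvp hvq
        refine ⟨fun h => hvp ?_, fun h => hvq ?_⟩
        · exact τ.injective (h.trans htp.symm)
        · exact τ.injective (h.trans htq.symm)
      refine ⟨τ * Equiv.swap p q, ?_, ?_⟩
      · intro v
        simp only [Equiv.Perm.mul_apply]
        by_cases hvp : v = p
        · subst hvp
          rw [Equiv.swap_apply_left, htq, Equiv.swap_apply_right, htp]
        · by_cases hvq : v = q
          · subst hvq
            rw [Equiv.swap_apply_right, htp, Equiv.swap_apply_left, htq]
          · rw [Equiv.swap_apply_of_ne_of_ne hvp hvq,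
              Equiv.swap_apply_of_ne_of_ne (hne v hvp hvq).1 (hne v hvp hvq).2, ht1]
      · intro v
        simp only [Equiv.Perm.mul_apply]
        by_cases hvp : v = p
        · subst hvp
          rw [Equiv.swap_apply_left, htq]
          exact ⟨fun _ => hp, fun _ => hqp⟩
        · by_cases hvq : v = q
          · subst hvq
            rw [Equiv.swap_apply_right, htp]
            exact ⟨fun _ => hqW, fun _ => hqp.symm⟩
          · rw [Equiv.swap_apply_of_ne_of_ne hvp hvq, ht2 v, mem_erase, mem_erase]
            exact ⟨fun h => h.2.2, fun h => ⟨hvq, hvp, h⟩⟩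

theorem exists_near_top (hV : Even (Fintype.card V)) {a b : V} (hab : a ≠ b) :
    ∃ τ : Equiv.Perm V, IsNear (⊤ : SimpleGraph V) a b τ := by
  have hc : (univ \ ({a, b} : Finset V)).card = Fintype.card V - 2 := by
    rw [card_sdiff_of_subset (subset_univ _), card_pair hab, card_univ]
  obtain ⟨τ, h1, h2⟩ := exists_invol (univ \ ({a, b} : Finset V)) (by
    rw [hc]
    rcases hV with ⟨k, hk⟩
    exact ⟨k - 1, by omega⟩)
  refine ⟨τ, h1, ?_, ?_, ?_⟩
  · by_contra h
    have := (h2 a).1 h
    simp at this
  · by_contra h
    have := (h2 b).1 h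
    simp at this
  · intro v hva hvb
    rw [SimpleGraph.top_adj]
    exact ((h2 v).2 (by simp [hva, hvb])).symm

end Pool.Agent.H44O
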