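import Pool.Agent.Lib.H44O.A3
import Pool.Agent.Lib.H44O.D2

/-!
# Chunk D13 (M/L): the matching lattice of the complete graph

`ed p q` is the indicator of the edge `pq`.
* `four_cycle`: let `τ` be an involution with support `univ \ {p, q, s, t}` (`exists_invol`; this
  set has even size). `π1 = τ * swap p q * swap s t` and `π2 = τ * swap q s * swap t p` are perfect
  matchings and `chi π1 - chi π2` is the given function.
* `elim`: strong induction on `W.card`. If `W.card ≤ 3`: the rows have sum zero; with at most three
  vertices this forces `y = 0` (for three vertices `y p q = - y p s = y q s = - y p q`...).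
  If `W.card ≥ 4`, take `w ∈ W` and do induction on `∑ u, |y w u|` (`Int.natAbs`): if it is zero, `y`
  is supported in `W.erase w`. Otherwise, since `∑ u, y w u = 0`, there are `u, u' ∈ W` (different,
  and different from `w`) with `y w u > 0` and `y w u' < 0`, and a fourth `t ∈ W`. Subtract the
  four-cycle `ed w u + ed t u' - ed u t - ed u' w` (`four_cycle` with `p, q, s, t := w, u, t, u'`): row
  sums stay zero, symmetric, diagonal zero, supported in `W`, and the sum decreases by `2`.
* `lat_top`: if `V` is empty or `ρ = 0` directly `elim` with `W = univ`; in general subtract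
  `ρ • chi π` for one perfect matching `π` (exists by `exists_invol` with `W = univ`), then `elim`.
-/

namespace Pool.Agent.H44O

open Finset
open scoped Classical

variable {V : Type*} [Fintype V]

/-- The indicator of the edge `pq`. -/
noncomputable def ed (p q u v : V) : ℤ := if (u = p ∧ v = q) ∨ (u = q ∧ v = p) then 1 else 0

omit [Fintype V] in
theorem d13_swap_invol {τ : Equiv.Perm V} (h : ∀ v, τ (τ v) = v) {p q : V} (hp : τ p = p)
    (hq : τ q = q) : ∀ v, (τ * Equiv.swap p q) ((τ * Equiv.swap p q) v) = v := by
  intro v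
  simp only [Equiv.Perm.mul_apply]
  by_cases h1 : v = p
  · subst h1
    rw [Equiv.swap_apply_left, hq, Equiv.swap_apply_right, hp]
  · by_cases h2 : v = q
    · subst h2
      rw [Equiv.swap_apply_right, hp, Equiv.swap_apply_left, hq]
    · rw [Equiv.swap_apply_of_ne_of_ne h1 h2, Equiv.swap_apply_of_ne_of_ne, h]
      · intro h3
        apply h1
        rw [← h v, h3, hp]
      · intro h3
        apply h2
        rw [← h v, h3, hq]

omit [Fintype V] in
theorem d13_swap_chi {τ : Equiv.Perm V} {p q : V} (hp : τ p = p)
    (hq : τ q = q) (hpq : p ≠ q) : chi (τ * Equiv.swap p q) = chi τ + ed p q := by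
  have val : ∀ u, (τ * Equiv.swap p q) u = if u = p then q else if u = q then p else τ u := by
    intro u
    rw [Equiv.Perm.mul_apply]
    by_cases h1 : u = p
    · subst h1
      rw [Equiv.swap_apply_left, if_pos rfl, hq]
    · by_cases h2 : u = q
      · subst h2
        rw [Equiv.swap_apply_right, if_neg h1, if_pos rfl, hp]
      · rw [Equiv.swap_apply_of_ne_of_ne h1 h2, if_neg h1, if_neg h2]
  funext u v
  simp only [Pi.add_apply, chi, ed, val]
  by_cases h1 : u = p
  · subst h1
    simp only [if_true, hp, true_and, hpq, false_and, or_false]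
    by_cases h2 : v = q
    · subst h2
      simp [hpq]
    · have h2' : q ≠ v := fun h => h2 h.symm
      simp [h2, h2']
  · by_cases h2 : u = q
    · subst h2
      simp only [if_true, h1, if_false, hq, false_and, true_and, false_or]
      by_cases h3 : v = p
      · subst h3
        simp [h1]
      · have h3' : p ≠ v := fun h => h3 h.symm
        simp [h3, h3']
    · simp [h1, h2]

omit [Fintype V] in
theorem d13_two {τ : Equiv.Perm V} (h : ∀ v, τ (τ v) = v) {p q s t : V} (hpq : p ≠ q) (hps : p ≠ s)
    (hpt : p ≠ t) (hqs : q ≠ s) (hqt : q ≠ t) (hst : s ≠ t) (hp : τ p = p) (hq : τ q = q)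
    (hs : τ s = s) (ht : τ t = t)
    (hne : ∀ v, v ≠ p → v ≠ q → v ≠ s → v ≠ t → τ v ≠ v) :
    IsPM (τ * Equiv.swap p q * Equiv.swap s t) ∧
      chi (τ * Equiv.swap p q * Equiv.swap s t) = chi τ + ed p q + ed s t := by
  have h1 : (τ * Equiv.swap p q) s = s := by
    rw [Equiv.Perm.mul_apply, Equiv.swap_apply_of_ne_of_ne hps.symm hqs.symm, hs]
  have h2 : (τ * Equiv.swap p q) t = t := by
    rw [Equiv.Perm.mul_apply, Equiv.swap_apply_of_ne_of_ne hpt.symm hqt.symm, ht]
  have h3 := d13_swap_invol h hp hq
  refine ⟨⟨d13_swap_invol h3 h1 h2, ?_⟩, ?_⟩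
  · intro v
    rw [Equiv.Perm.mul_apply]
    by_cases e1 : v = s
    · subst e1
      rw [Equiv.swap_apply_left, h2]
      exact hst.symm
    · by_cases e2 : v = t
      · subst e2
        rw [Equiv.swap_apply_right, h1]
        exact hst
      · rw [Equiv.swap_apply_of_ne_of_ne e1 e2, Equiv.Perm.mul_apply]
        by_cases e3 : v = p
        · subst e3
          rw [Equiv.swap_apply_left, hq]
          exact hpq.symm
        · by_cases e4 : v = q
          · subst e4
            rw [Equiv.swap_apply_right, hp]
            exact hpq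
          · rw [Equiv.swap_apply_of_ne_of_ne e3 e4]
            exact hne v e3 e4 e1 e2
  · rw [d13_swap_chi h1 h2 hst, d13_swap_chi hp hq hpq]

theorem four_cycle (hV : Even (Fintype.card V)) {p q s t : V} (hpq : p ≠ q) (hps : p ≠ s)
    (hpt : p ≠ t) (hqs : q ≠ s) (hqt : q ≠ t) (hst : s ≠ t) :
    ed p q + ed s t - ed q s - ed t p ∈ lat (⊤ : SimpleGraph V) := by
  have hcard : ({p, q, s, t} : Finset V).card = 4 := by
    rw [card_insert_of_notMem, card_insert_of_notMem, card_insert_of_notMem, card_singleton]
    · simpa using hst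
    · simp [hqs, hqt]
    · simp [hpq, hps, hpt]
  have heven : Even (univ \ ({p, q, s, t} : Finset V)).card := by
    rw [card_sdiff_of_subset (subset_univ _), hcard, card_univ]
    have h4 : 4 ≤ Fintype.card V := by
      rw [← hcard, ← card_univ]
      exact card_le_card (subset_univ _)
    rw [Nat.even_sub h4]
    simp only [hV, true_iff]
    decide
  obtain ⟨τ, h1, h2⟩ := exists_invol _ heven
  have hfix : ∀ v, v = p ∨ v = q ∨ v = s ∨ v = t → τ v = v := by
    intro v hv
    by_contra hne
    have := (h2 v).1 hne
    simp only [mem_sdiff, mem_univ, true_and, mem_insert, mem_singleton] at this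
    exact this hv
  have hmv : ∀ v, v ≠ p → v ≠ q → v ≠ s → v ≠ t → τ v ≠ v := by
    intro v a b c d
    refine (h2 v).2 ?_
    simp [a, b, c, d]
  have hp := hfix p (by simp)
  have hq := hfix q (by simp)
  have hs := hfix s (by simp)
  have ht := hfix t (by simp)
  obtain ⟨pm1, c1⟩ := d13_two h1 hpq hps hpt hqs hqt hst hp hq hs ht hmv
  obtain ⟨pm2, c2⟩ := d13_two h1 hqs hqt hpq.symm hst hps.symm hpt.symm hq hs ht hp
    (fun v a b c d => hmv v d a b c)
  have m1 : chi (τ * Equiv.swap p q * Equiv.swap s t) ∈ lat (⊤ : SimpleGraph V) :=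
    AddSubgroup.subset_closure ⟨_, pm1, fun v => (pm1.2 v).symm, rfl⟩
  have m2 : chi (τ * Equiv.swap q s * Equiv.swap t p) ∈ lat (⊤ : SimpleGraph V) :=
    AddSubgroup.subset_closure ⟨_, pm2, fun v => (pm2.2 v).symm, rfl⟩
  have h3 := sub_mem m1 m2
  rw [c1, c2] at h3
  have h4 : ed p q + ed s t - ed q s - ed t p =
      chi τ + ed p q + ed s t - (chi τ + ed q s + ed t p) := by abel
  rw [h4]
  exact h3

theorem d13_dg_ed {p q : V} (hpq : p ≠ q) (v : V) :
    dg (ed p q) v = (if v = p then 1 else 0) + (if v = q then 1 else 0) := by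
  unfold dg ed
  by_cases h1 : v = p
  · subst h1
    simp [hpq]
  · by_cases h2 : v = q
    · subst h2
      simp [h1]
    · simp [h1, h2]

theorem d13_row {W : Finset V} {y : V → V → ℤ}
    (hs : ∀ u v, y u v = y v u) (hd : ∀ v, y v v = 0)
    (hW : ∀ u v, y u v ≠ 0 → u ∈ W) {p q s : V} (hqs : q ≠ s)
    (hsub : ∀ v ∈ W, v = p ∨ v = q ∨ v = s) : dg y p = y p q + y p s := by
  have h1 : dg y p = ∑ v ∈ ({q, s} : Finset V), y p v := by
    unfold dg
    symm
    refine sum_subset (subset_univ _) ?_
    intro v _ hv
    by_contra hne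
    have h2 : v ∈ W := hW v p (by rw [hs v p]; exact hne)
    rcases hsub v h2 with h | h | h
    · subst h
      exact hne (hd _)
    · exact hv (by simp [h])
    · exact hv (by simp [h])
  rw [h1, sum_pair hqs]

theorem d13_small {W : Finset V} (h3 : W.card ≤ 3) {y : V → V → ℤ}
    (hs : ∀ u v, y u v = y v u) (hd : ∀ v, y v v = 0) (h0 : ∀ u, dg y u = 0)
    (hW : ∀ u v, y u v ≠ 0 → u ∈ W) : y = 0 := by
  funext p q
  by_contra hne
  simp only [Pi.zero_apply] at hne
  have hp : p ∈ W := hW p q hne
  have hq : q ∈ W := hW q p (by rw [hs q p]; exact hne)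
  have hpq : p ≠ q := by
    intro h
    subst h
    exact hne (hd _)
  by_cases hem : (W \ {p, q}).Nonempty
  · obtain ⟨s, hs'⟩ := hem
    rw [mem_sdiff] at hs'
    have hsp : s ≠ p := fun h => hs'.2 (by simp [h])
    have hsq : s ≠ q := fun h => hs'.2 (by simp [h])
    have hcard : ({p, q, s} : Finset V).card = 3 := by
      rw [card_insert_of_notMem, card_pair hsq.symm]
      simp [hpq, hsp.symm]
    have hsub : ({p, q, s} : Finset V) ⊆ W := by
      intro v hv
      simp only [mem_insert, mem_singleton] at hv
      rcases hv with h | h | h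
      · rw [h]; exact hp
      · rw [h]; exact hq
      · rw [h]; exact hs'.1
    have heq : ({p, q, s} : Finset V) = W := eq_of_subset_of_card_le hsub (by omega)
    have hmem : ∀ v ∈ W, v = p ∨ v = q ∨ v = s := by
      intro v hv
      rw [← heq] at hv
      simpa using hv
    have r1 := d13_row hs hd hW hsq.symm hmem
    have r2 := d13_row hs hd hW (p := q) (q := p) (s := s) hsp.symm (fun v hv => by
      rcases hmem v hv with h | h | h
      · exact Or.inr (Or.inl h)
      · exact Or.inl h
      · exact Or.inr (Or.inr h))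
    have r3 := d13_row hs hd hW (p := s) (q := p) (s := q) hpq (fun v hv => by
      rcases hmem v hv with h | h | h
      · exact Or.inr (Or.inl h)
      · exact Or.inr (Or.inr h)
      · exact Or.inl h)
    rw [h0] at r1 r2 r3
    have e1 := hs p q
    have e2 := hs p s
    have e3 := hs q s
    omega
  · rw [not_nonempty_iff_eq_empty, sdiff_eq_empty_iff_subset] at hem
    have h1 : dg y p = y p q := by
      unfold dg
      refine sum_eq_single q ?_ (fun h => absurd (mem_univ _) h)
      intro v _ hv
      by_contra hne'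
      have h2 : v ∈ W := hW v p (by rw [hs v p]; exact hne')
      have h4 := hem h2
      simp only [mem_insert, mem_singleton] at h4
      rcases h4 with h | h
      · subst h
        exact hne' (hd _)
      · exact hv h
    rw [h0] at h1
    exact hne h1.symm

theorem elim_mem (hV : Even (Fintype.card V)) (W : Finset V) {y : V → V → ℤ}
    (hs : ∀ u v, y u v = y v u) (hd : ∀ v, y v v = 0) (h0 : ∀ u, dg y u = 0)
    (hW : ∀ u v, y u v ≠ 0 → u ∈ W) : y ∈ lat (⊤ : SimpleGraph V) := by
  induction hn : W.card using Nat.strong_induction_on generalizing W y with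
  | _ n ih =>
  by_cases h3 : W.card ≤ 3
  · rw [d13_small h3 hs hd h0 hW]
    exact zero_mem _
  push Not at h3
  obtain ⟨w, hw⟩ : W.Nonempty := card_pos.1 (by omega)
  induction hm : ∑ u, (y w u).natAbs using Nat.strong_induction_on generalizing y with
  | _ m ih2 =>
  by_cases hz : ∀ u, y w u = 0
  · refine ih (W.erase w).card ?_ (W.erase w) hs hd h0 ?_ rfl
    · rw [card_erase_of_mem hw]
      omega
    · intro u v huv
      refine mem_erase.2 ⟨?_, hW u v huv⟩
      intro h
      subst h
      exact huv (hz v)
  · push Not at hz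
    obtain ⟨u0, hu0⟩ := hz
    have hsum : ∑ u, y w u = 0 := h0 w
    obtain ⟨u, hu⟩ : ∃ u, 0 < y w u := by
      by_contra hcon
      push Not at hcon
      have := (sum_eq_zero_iff_of_nonpos (fun i _ => hcon i)).1 hsum u0 (mem_univ _)
      exact hu0 this
    obtain ⟨u', hu'⟩ : ∃ u, y w u < 0 := by
      by_contra hcon
      push Not at hcon
      have := (sum_eq_zero_iff_of_nonneg (fun i _ => hcon i)).1 hsum u0 (mem_univ _)
      exact hu0 this
    have hwu : w ≠ u := by
      intro h
      subst h
      rw [hd] at hu
      exact lt_irrefl _ hu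
    have hwu' : w ≠ u' := by
      intro h
      subst h
      rw [hd] at hu'
      exact lt_irrefl _ hu'
    have huu' : u ≠ u' := by
      intro h
      subst h
      omega
    have huW : u ∈ W := hW u w (by rw [hs u w]; exact hu.ne')
    have huW' : u' ∈ W := hW u' w (by rw [hs u' w]; exact hu'.ne)
    obtain ⟨t, htW, ht⟩ : ∃ t ∈ W, t ∉ ({w, u, u'} : Finset V) := by
      by_contra hcon
      push Not at hcon
      have h4 : W.card ≤ ({w, u, u'} : Finset V).card := card_le_card hcon
      have h5 : ({w, u, u'} : Finset V).card ≤ 3 := card_le_three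
      omega
    simp only [mem_insert, mem_singleton, not_or] at ht
    obtain ⟨htw, htu, htu'⟩ := ht
    have hF := four_cycle hV hwu (Ne.symm htw) hwu' (Ne.symm htu) huu' htu'
    set F : V → V → ℤ := ed w u + ed t u' - ed u t - ed u' w with hFdef
    have hFs : ∀ a b, F a b = F b a := by
      intro a b
      have he : ∀ p q : V, ed p q a b = ed p q b a := by
        intro p q
        unfold ed
        congr 1
        exact propext ⟨fun h => h.elim (fun h => Or.inr ⟨h.2, h.1⟩) (fun h => Or.inl ⟨h.2, h.1⟩),
          fun h => h.elim (fun h => Or.inr ⟨h.2, h.1⟩) (fun h => Or.inl ⟨h.2, h.1⟩)⟩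
      simp only [hFdef, Pi.add_apply, Pi.sub_apply, he]
    have hed : ∀ p q : V, p ≠ q → ∀ v, ed p q v v = 0 := by
      intro p q hpq v
      unfold ed
      rw [if_neg]
      rintro (⟨h, h'⟩ | ⟨h, h'⟩)
      · exact hpq (h.symm.trans h')
      · exact hpq (h'.symm.trans h)
    have hFd : ∀ v, F v v = 0 := by
      intro v
      simp only [hFdef, Pi.add_apply, Pi.sub_apply, hed _ _ hwu, hed _ _ htu', hed _ _ (Ne.symm htu),
        hed _ _ (Ne.symm hwu')]
      ring
    have hFr : ∀ v, dg F v = 0 := by
      intro v
      rw [hFdef, dg_sub, dg_sub, dg_add, d13_dg_ed hwu, d13_dg_ed htu', d13_dg_ed (Ne.symm htu),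
        d13_dg_ed (Ne.symm hwu')]
      ring
    have hFW : ∀ a b, F a b ≠ 0 → a ∈ W := by
      intro a b hab
      by_contra haW
      apply hab
      have h1 : a ≠ w := fun h => haW (h ▸ hw)
      have h2 : a ≠ u := fun h => haW (h ▸ huW)
      have h4 : a ≠ u' := fun h => haW (h ▸ huW')
      have h5 : a ≠ t := fun h => haW (h ▸ htW)
      simp [hFdef, ed, h1, h2, h4, h5]
    have hFw : ∀ v, F w v = (if v = u then 1 else 0) - (if v = u' then 1 else 0) := by
      intro v
      simp only [hFdef, Pi.add_apply, Pi.sub_apply, ed, hwu, hwu', Ne.symm htw, true_and, false_and,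
        or_false, false_or, if_false, add_zero, sub_zero]
    have key : y - F ∈ lat (⊤ : SimpleGraph V) := by
      refine ih2 (∑ a, ((y - F) w a).natAbs) ?_ (y := y - F) ?_ ?_ ?_ ?_ rfl
      · rw [← hm]
        refine sum_lt_sum ?_ ⟨u, mem_univ _, ?_⟩
        · intro a _
          simp only [Pi.sub_apply, hFw]
          by_cases h1 : a = u
          · subst h1
            simp only [if_true, if_neg huu']
            omega
          · by_cases h2 : a = u'
            · subst h2
              simp only [if_true, if_neg h1]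
              omega
            · simp only [if_neg h1, if_neg h2]
              simp
        · simp only [Pi.sub_apply, hFw, if_true, if_neg huu']
          omega
      · intro a b
        simp only [Pi.sub_apply]
        rw [hs a b, hFs a b]
      · intro a
        simp only [Pi.sub_apply]
        rw [hd, hFd, sub_zero]
      · intro a
        rw [dg_sub, h0, hFr, sub_zero]
      · intro a b hab
        simp only [Pi.sub_apply] at hab
        by_contra haW
        have h1 : y a b = 0 := by
          by_contra h
          exact haW (hW a b h)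
        have h2 : F a b = 0 := by
          by_contra h
          exact haW (hFW a b h)
        exact hab (by rw [h1, h2, sub_zero])
    have h6 := add_mem key hF
    rwa [sub_add_cancel] at h6

theorem lat_top (hV : Even (Fintype.card V)) {y : V → V → ℤ} {ρ : ℤ}
    (hs : ∀ u v, y u v = y v u) (hd : ∀ v, y v v = 0) (h0 : ∀ u, dg y u = ρ) :
    y ∈ lat (⊤ : SimpleGraph V) := by
  obtain ⟨π, h1, h2⟩ := exists_invol (univ : Finset V) (by rwa [card_univ])
  have hpm : IsPM π := ⟨h1, fun v => (h2 v).2 (mem_univ _)⟩
  have hm : chi π ∈ lat (⊤ : SimpleGraph V) :=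
    AddSubgroup.subset_closure ⟨π, hpm, fun v => (hpm.2 v).symm, rfl⟩
  have hm2 : ρ • chi π ∈ lat (⊤ : SimpleGraph V) := zsmul_mem hm ρ
  have hz : ∀ a b, (ρ • chi π) a b = ρ * chi π a b := by
    intro a b
    simp
  have key : y - ρ • chi π ∈ lat (⊤ : SimpleGraph V) := by
    refine elim_mem hV univ ?_ ?_ ?_ (fun u v _ => mem_univ _)
    · intro a b
      simp only [Pi.sub_apply, hz]
      rw [hs a b, chi_symm h1 a b]
    · intro a
      simp only [Pi.sub_apply, hz]
      rw [hd, chi_diag, mul_zero, sub_zero]
    · intro a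
      rw [dg_sub, h0]
      have h3 : dg (ρ • chi π) a = ρ * dg (chi π) a := by
        unfold dg
        rw [mul_sum]
        exact sum_congr rfl fun b _ => hz a b
      rw [h3, dg_chi hpm, mul_one, sub_self]
  have h6 := add_mem key hm2
  rwa [sub_add_cancel] at h6

end Pool.Agent.H44O
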