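import Pool.Agent.Lib.H44O.A1
import Pool.Agent.Lib.H44O.D11
import Pool.Agent.Lib.H44O.D13

/-!
# Chunk D12 (M): the closure does not change the matching lattice on the old edges

Let `H' = addG H a b`. If `π` is a perfect matching of `H'` with `π a ≠ b`, then all its edges are
in `H`. If `π a = b` let `τ = π * Equiv.swap a b`: `IsNear H a b τ` and
`chi π = chi τ + ed`, where `ed u v = 1` for `(u, v) = (a, b), (b, a)` and `0` otherwise. So for two
perfect matchings `π, π'` of `H'` that use `ab`, `chi π - chi π' ∈ lat H` (`near_sub_mem`).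

Case A: no perfect matching of `H'` uses `ab`. Then `lat H' ≤ lat H`.
Case B: fix one, `π0`. Claim: every `y ∈ lat H'` has the form `z + m • chi π0` with `z ∈ lat H` and
`m : ℤ` (`AddSubgroup.closure_induction`). Elements `z` of `lat H` satisfy `z a b = 0` (again
`closure_induction`: a perfect matching of `H` does not use the non-edge `ab`), and
`chi π0 a b = 1`; so `y a b = m`, hence `m = 0` and `y = z ∈ lat H`.
-/

namespace Pool.Agent.H44O

open Finset
open scoped Classical

variable {V : Type*} [Fintype V]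

omit [Fintype V] in
/-- A perfect matching of `addG H a b` that does not use `ab` is a matching of `H`. -/
theorem d12_adj {H : SimpleGraph V} {a b : V} {π : Equiv.Perm V} (hπ : IsPM π)
    (h : ∀ v, (addG H a b).Adj v (π v)) (hne : π a ≠ b) : ∀ v, H.Adj v (π v) := by
  intro v
  rcases h v with h1 | ⟨-, h1 | h1⟩
  · exact h1
  · exfalso
    apply hne
    rw [← h1.1]
    exact h1.2
  · exfalso
    apply hne
    rw [← h1.2, hπ.1]
    exact h1.1

omit [Fintype V] in
/-- A perfect matching of `addG H a b` that uses `ab` gives a near perfect matching of `H`. -/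
theorem d12_near {H : SimpleGraph V} {a b : V} {π : Equiv.Perm V} (hπ : IsPM π)
    (h : ∀ v, (addG H a b).Adj v (π v)) (hab : a ≠ b) (hπa : π a = b) :
    ∃ τ, IsNear H a b τ ∧ chi π = chi τ + ed a b := by
  have hπb : π b = a := by rw [← hπa, hπ.1]
  obtain ⟨τ, hτ⟩ : ∃ τ, τ = π * Equiv.swap a b := ⟨_, rfl⟩
  have ha : τ a = a := by
    rw [hτ, Equiv.Perm.mul_apply, Equiv.swap_apply_left, hπb]
  have hb : τ b = b := by
    rw [hτ, Equiv.Perm.mul_apply, Equiv.swap_apply_right, hπa]
  have hv : ∀ v, v ≠ a → v ≠ b → τ v = π v := by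
    intro v h1 h2
    rw [hτ, Equiv.Perm.mul_apply, Equiv.swap_apply_of_ne_of_ne h1 h2]
  refine ⟨τ, ⟨?_, ha, hb, ?_⟩, ?_⟩
  · intro v
    by_cases h1 : v = a
    · rw [h1, ha, ha]
    · by_cases h2 : v = b
      · rw [h2, hb, hb]
      · rw [hv v h1 h2, hv (π v), hπ.1]
        · intro h3
          apply h2
          rw [← hπ.1 v, h3, hπa]
        · intro h3
          apply h1
          rw [← hπ.1 v, h3, hπb]
  · intro v h1 h2
    rw [hv v h1 h2]
    rcases h v with h3 | ⟨-, h3 | h3⟩
    · exact h3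
    · exact absurd h3.1 h1
    · exact absurd h3.1 h2
  · rw [← d13_swap_chi ha hb hab, hτ]
    congr 1
    rw [mul_assoc, Equiv.swap_mul_self, mul_one]

omit [Fintype V] in
theorem d12_zero {H : SimpleGraph V} {a b : V} (hn : ¬ H.Adj a b) {z : V → V → ℤ}
    (hz : z ∈ lat H) : z a b = 0 := by
  unfold lat at hz
  induction hz using AddSubgroup.closure_induction with
  | mem x hx =>
    obtain ⟨π, -, h2, rfl⟩ := hx
    unfold chi
    rw [if_neg]
    rintro ⟨h3, -⟩
    apply hn
    rw [← h3]
    exact h2 a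
  | zero => rfl
  | add x y _ _ hx hy =>
    rw [Pi.add_apply, Pi.add_apply, hx, hy, add_zero]
  | neg x _ hx =>
    rw [Pi.neg_apply, Pi.neg_apply, hx, neg_zero]

theorem lat_descend {H : SimpleGraph V} {a b : V} (hab : a ≠ b) (hn : ¬ H.Adj a b)
    (hd : Fintype.card V + 1 ≤ nb H a + nb H b) {y : V → V → ℤ} (hy : y ∈ lat (addG H a b))
    (hy0 : y a b = 0) : y ∈ lat H := by
  by_cases hB : ∃ π0 : Equiv.Perm V, IsPM π0 ∧ (∀ v, (addG H a b).Adj v (π0 v)) ∧ π0 a = b
  · obtain ⟨π0, hp0, hA0, hab0⟩ := hB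
    obtain ⟨τ0, hτ0, hc0⟩ := d12_near hp0 hA0 hab hab0
    have key : ∀ w ∈ lat (addG H a b), ∃ z ∈ lat H, ∃ m : ℤ, w = z + m • chi π0 := by
      intro w hw
      unfold lat at hw
      induction hw using AddSubgroup.closure_induction with
      | mem x hx =>
        obtain ⟨π, hp, hA, rfl⟩ := hx
        by_cases h1 : π a = b
        · obtain ⟨τ, hτ, hc⟩ := d12_near hp hA hab h1
          refine ⟨chi τ - chi τ0, near_sub_mem hab hn hd hτ hτ0, 1, ?_⟩
          rw [hc, hc0, one_smul]
          abel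
        · refine ⟨chi π, AddSubgroup.subset_closure ⟨π, hp, d12_adj hp hA h1, rfl⟩, 0, ?_⟩
          rw [zero_smul, add_zero]
      | zero => exact ⟨0, zero_mem _, 0, by rw [zero_smul, add_zero]⟩
      | add x y _ _ hx hy =>
        obtain ⟨z1, h1, m1, e1⟩ := hx
        obtain ⟨z2, h2, m2, e2⟩ := hy
        refine ⟨z1 + z2, add_mem h1 h2, m1 + m2, ?_⟩
        rw [e1, e2, add_smul]
        abel
      | neg x _ hx =>
        obtain ⟨z1, h1, m1, e1⟩ := hx
        refine ⟨-z1, neg_mem h1, -m1, ?_⟩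
        rw [e1, neg_smul]
        abel
    obtain ⟨z, hz, m, hzm⟩ := key y hy
    have h1 : y a b = m := by
      rw [hzm]
      have h2 := d12_zero hn hz
      have h3 : chi π0 a b = 1 := by
        unfold chi
        rw [if_pos ⟨hab0, hab⟩]
      simp only [Pi.add_apply, Pi.smul_apply, h2, h3, smul_eq_mul, mul_one, zero_add]
    rw [hy0] at h1
    rw [hzm, ← h1, zero_smul, add_zero]
    exact hz
  · refine (AddSubgroup.closure_le (lat H)).2 ?_ hy
    rintro x ⟨π, hp, hA, rfl⟩
    refine AddSubgroup.subset_closure ⟨π, hp, d12_adj hp hA ?_, rfl⟩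
    intro h
    exact hB ⟨π, hp, hA, h⟩

end Pool.Agent.H44O
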