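import Pool.Agent.Lib.H44O.D12
import Pool.Agent.Lib.H44O.D13

/-!
# Chunk D14 (S): the matching lattice of a closable graph

Induction on `Closable H`: `top` is `lat_top`. `step H a b`: `y` is supported on
`H ≤ addG H a b`, so `y ∈ lat (addG H a b)` by the induction hypothesis, and `y a b = 0`, so
`lat_descend` applies.
-/

namespace Pool.Agent.H44O

open Finset
open scoped Classical

variable {V : Type*} [Fintype V]

theorem lat_closable (hV : Even (Fintype.card V)) {H : SimpleGraph V} (hc : Closable H)
    {y : V → V → ℤ} {ρ : ℤ} (hs : ∀ u v, y u v = y v u) (h0 : ∀ u, dg y u = ρ)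
    (hH : ∀ u v, y u v ≠ 0 → H.Adj u v) : y ∈ lat H := by
  induction hc with
  | top =>
    refine lat_top hV hs (fun v => ?_) h0
    by_contra h
    exact (hH v v h).ne rfl
  | step H a b hab hn hd hc ih =>
    have h1 : y ∈ lat (addG H a b) := ih (fun u v h => Or.inl (hH u v h))
    refine lat_descend hab hn hd h1 ?_
    by_contra h
    exact hn (hH a b h)

end Pool.Agent.H44O
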