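import Pool.Agent.Lib.H44O.Defs

/-!
# Chunk D3 (M): the closure does not change the existence of perfect matchings of `H - {a, b}`

Let `τ` be a perfect matching of `(H + uv) - {a, b}`.

If `τ u ≠ v` then `τ` itself works: for `w ≠ a, b` the pair `w, τ w` is adjacent in `addG H u v`;
if it were the new pair `{u, v}` then `τ u = v` (or `τ v = u`, so `u = τ u'`...).

If `τ u = v` then `u, v ∉ {a, b}` (because `τ a = a`, `τ b = b` and `u ≠ v`).
Claim: there is `w ∉ {a, b, u, v}` with `H.Adj u w` and `H.Adj v (τ w)`. Otherwise
`nb H u + nb H v = ∑ w, ([u ~ w] + [v ~ w]) = ∑ w, ([u ~ w] + [v ~ τ w])` (reindex the second sum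
by the permutation `τ`); the terms `w = u` and `w = v` vanish (`¬ u ~ u`, `¬ v ~ τ u = v`,
`¬ u ~ v`, `¬ v ~ τ v = u`), the terms `w = a`, `w = b` are at most `2`, the others at most `1`:
total at most `4 + (|V| - 4) = |V|`, a contradiction.
Now `τ'`: `u ↔ w`, `v ↔ τ w`, and `τ` elsewhere (define the function with `if`s, show that it is an
involution, and use `Function.Involutive.toPerm`). All its edges are edges of `H`.
-/

namespace Pool.Agent.H44O

open Finset
open scoped Classical

variable {V : Type*} [Fintype V]

theorem near_step {H : SimpleGraph V} {a b u v : V} (hab : a ≠ b) (huv : u ≠ v)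
    (hn : ¬ H.Adj u v) (hd : Fintype.card V + 1 ≤ nb H u + nb H v) {τ : Equiv.Perm V}
    (h : IsNear (addG H u v) a b τ) : ∃ τ' : Equiv.Perm V, IsNear H a b τ' := by
  obtain ⟨t1, ta, tb, tH⟩ := h
  by_cases huv2 : τ u = v
  · have hvu : τ v = u := by rw [← huv2, t1]
    have hua : u ≠ a := by
      rintro rfl
      exact huv (ta.symm.trans huv2)
    have hub : u ≠ b := by
      rintro rfl
      exact huv (tb.symm.trans huv2)
    have hva : v ≠ a := by
      rintro rfl
      exact huv (hvu.symm.trans ta)
    have hvb : v ≠ b := by
      rintro rfl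
      exact huv (hvu.symm.trans tb)
    -- the vertex w
    have hex : ∃ w, w ≠ a ∧ w ≠ b ∧ w ≠ u ∧ w ≠ v ∧ H.Adj u w ∧ H.Adj v (τ w) := by
      by_contra hno
      push Not at hno
      have e1 : nb H u = ∑ w, if H.Adj u w then 1 else 0 := by
        unfold nb
        rw [card_filter]
      have e2 : nb H v = ∑ w, if H.Adj v (τ w) then 1 else 0 := by
        unfold nb
        rw [card_filter, ← Equiv.sum_comp τ]
      have hpt : ∀ w, ((if H.Adj u w then 1 else 0) + (if H.Adj v (τ w) then 1 else 0)) +
          ((if w = u then 1 else 0) + (if w = v then 1 else 0)) ≤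
          1 + ((if w = a then 1 else 0) + (if w = b then 1 else 0)) := by
        intro w
        by_cases hwu : w = u
        · subst hwu
          rw [huv2]
          simp [huv]
        · by_cases hwv : w = v
          · subst hwv
            rw [hvu]
            have hn' : ¬ H.Adj w u := fun h => hn h.symm
            simp [hn, hn', huv.symm]
          · by_cases hwa : w = a
            · subst hwa
              rw [if_neg hwu, if_neg hwv, if_pos rfl]
              split_ifs <;> omega
            · by_cases hwb : w = b
              · subst hwb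
                rw [if_neg hwu, if_neg hwv, if_neg hwa, if_pos rfl]
                split_ifs <;> omega
              · have h3 := hno w hwa hwb hwu hwv
                rw [if_neg hwu, if_neg hwv, if_neg hwa, if_neg hwb]
                by_cases h4 : H.Adj u w
                · rw [if_pos h4, if_neg (h3 h4)]
                · rw [if_neg h4]
                  split_ifs <;> omega
      have hsum := Finset.sum_le_sum fun w (_ : w ∈ (univ : Finset V)) => hpt w
      simp only [Finset.sum_add_distrib, Finset.sum_ite_eq', mem_univ, if_true, sum_const,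
        card_univ, smul_eq_mul, mul_one] at hsum
      rw [← e1, ← e2] at hsum
      omega
    obtain ⟨w, hwa, hwb, hwu, hwv, huw, hvw⟩ := hex
    have hw'w : τ w ≠ w := by
      intro h
      have := tH w hwa hwb
      rw [h] at this
      exact this.ne rfl
    have hw'v : τ w ≠ v := by
      intro h
      exact hwu (τ.injective (h.trans huv2.symm))
    have hsw : ∀ x, x ≠ v → x ≠ w → Equiv.swap v w x = x := fun x h1 h2 =>
      Equiv.swap_apply_of_ne_of_ne h1 h2
    refine ⟨Equiv.swap v w * τ * Equiv.swap v w, ?_, ?_, ?_, ?_⟩
    · intro x
      simp only [Equiv.Perm.mul_apply, Equiv.swap_apply_self, t1]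
    · simp only [Equiv.Perm.mul_apply]
      rw [hsw a hva.symm hwa.symm, ta, hsw a hva.symm hwa.symm]
    · simp only [Equiv.Perm.mul_apply]
      rw [hsw b hvb.symm hwb.symm, tb, hsw b hvb.symm hwb.symm]
    · intro x hxa hxb
      simp only [Equiv.Perm.mul_apply]
      by_cases hxv : x = v
      · subst hxv
        rw [Equiv.swap_apply_left, hsw _ hw'v hw'w]
        exact hvw
      · by_cases hxw : x = w
        · subst hxw
          rw [Equiv.swap_apply_right, hvu, hsw _ huv hwu.symm]
          exact huw.symm
        · rw [hsw x hxv hxw]
          by_cases h5 : τ x = v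
          · have hxu : x = u := τ.injective (h5.trans huv2.symm)
            rw [h5, Equiv.swap_apply_left, hxu]
            exact huw
          · by_cases h6 : τ x = w
            · have hxw' : x = τ w := by rw [← h6, t1]
              rw [h6, Equiv.swap_apply_right, hxw']
              exact hvw.symm
            · rw [hsw _ h5 h6]
              rcases tH x hxa hxb with h7 | ⟨-, ⟨-, h7⟩ | ⟨h7, -⟩⟩
              · exact h7
              · exact absurd h7 h5
              · exact absurd h7 hxv
  · refine ⟨τ, t1, ta, tb, fun w hwa hwb => ?_⟩
    rcases tH w hwa hwb with h7 | ⟨-, ⟨h7, h8⟩ | ⟨h7, h8⟩⟩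
    · exact h7
    · rw [h7] at h8
      exact absurd h8 huv2
    · rw [h7] at h8
      exact absurd (by rw [← h8, t1]) huv2

end Pool.Agent.H44O
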