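import Pool.Agent.Lib.H44O.D2
import Pool.Agent.Lib.H44O.D3

/-!
# Chunk D4 (S): perfect matchings of closable graphs

* `exists_near`: induction on `Closable H`: `top` is `exists_near_top`, `step` is `near_step`.
* `exists_pm_of_near`: `π := τ * Equiv.swap a b`, that is `a ↔ b` and `τ` elsewhere.
-/

namespace Pool.Agent.H44O

open Finset
open scoped Classical

variable {V : Type*} [Fintype V]

theorem exists_near (hV : Even (Fintype.card V)) {H : SimpleGraph V} (hc : Closable H) {a b : V}
    (hab : a ≠ b) : ∃ τ : Equiv.Perm V, IsNear H a b τ := by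
  induction hc with
  | top => exact exists_near_top hV hab
  | step H u v h1 h2 h3 _ ih =>
    obtain ⟨τ, hτ⟩ := ih
    exact near_step hab h1 h2 h3 hτ

theorem exists_pm_of_near {H : SimpleGraph V} {a b : V} (hab : a ≠ b) {τ : Equiv.Perm V}
    (h : IsNear H a b τ) :
    ∃ π : Equiv.Perm V, IsPM π ∧ π a = b ∧ π b = a ∧ ∀ v, v ≠ a → v ≠ b → H.Adj v (π v) := by
  obtain ⟨t1, ta, tb, tH⟩ := h
  have hne : ∀ v, v ≠ a → v ≠ b → τ v ≠ a ∧ τ v ≠ b := by
    intro v hva hvb
    exact ⟨fun h => hva (τ.injective (h.trans ta.symm)),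
      fun h => hvb (τ.injective (h.trans tb.symm))⟩
  have ea : (τ * Equiv.swap a b) a = b := by
    rw [Equiv.Perm.mul_apply, Equiv.swap_apply_left, tb]
  have eb : (τ * Equiv.swap a b) b = a := by
    rw [Equiv.Perm.mul_apply, Equiv.swap_apply_right, ta]
  have eo : ∀ v, v ≠ a → v ≠ b → (τ * Equiv.swap a b) v = τ v := by
    intro v hva hvb
    rw [Equiv.Perm.mul_apply, Equiv.swap_apply_of_ne_of_ne hva hvb]
  refine ⟨τ * Equiv.swap a b, ⟨?_, ?_⟩, ea, eb, ?_⟩
  · intro v
    by_cases hva : v = a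
    · rw [hva, ea, eb]
    · by_cases hvb : v = b
      · rw [hvb, eb, ea]
      · rw [eo v hva hvb, eo _ (hne v hva hvb).1 (hne v hva hvb).2, t1]
  · intro v
    by_cases hva : v = a
    · rw [hva, ea]
      exact hab.symm
    · by_cases hvb : v = b
      · rw [hvb, eb]
        exact hab
      · rw [eo v hva hvb]
        exact (tH v hva hvb).ne.symm
  · intro v hva hvb
    rw [eo v hva hvb]
    exact tH v hva hvb

end Pool.Agent.H44O
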