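import Pool.Agent.Lib.H44O.Defs

/-!
# Chunk D5 (M): three full vertices

Call `v` full if `H.Adj a v` and `H.Adj b (τ v)`.
`nb H a + nb H b = ∑ v, ([a ~ v] + [b ~ v]) = ∑ v, ([a ~ v] + [b ~ τ v])` (reindex the second sum
by `τ`). The terms `v = a` and `v = b` vanish: `¬ a ~ a`, `¬ b ~ τ a = a`, `¬ a ~ b`, `¬ b ~ τ b = b`.
For `v ∉ C`, `v ≠ a, b` the term is at most `1` (hypothesis `hout`); for `v ∈ C` it is at most
`1 + [v full]`. Hence `|V| + 1 ≤ (|V| - 2 - |C|) + |C| + #full`, so `3 ≤ #full`.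
-/

namespace Pool.Agent.H44O

open Finset
open scoped Classical

variable {V : Type*} [Fintype V]

theorem count_full {H : SimpleGraph V} {a b : V} (hab : a ≠ b) (hn : ¬ H.Adj a b)
    (hd : Fintype.card V + 1 ≤ nb H a + nb H b) {τ : Equiv.Perm V} (hτ : IsNear H a b τ)
    {C : Finset V} (haC : a ∉ C) (hbC : b ∉ C)
    (hout : ∀ u, u ∉ C → u ≠ a → u ≠ b → ¬ (H.Adj a u ∧ H.Adj b (τ u))) :
    3 ≤ (C.filter (fun v => H.Adj a v ∧ H.Adj b (τ v))).card := by
  obtain ⟨t1, ta, tb, tH⟩ := hτ
  have e1 : nb H a = ∑ w, if H.Adj a w then 1 else 0 := by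
    unfold nb
    rw [card_filter]
  have e2 : nb H b = ∑ w, if H.Adj b (τ w) then 1 else 0 := by
    unfold nb
    rw [card_filter, ← Equiv.sum_comp τ]
  have e3 : (C.filter (fun v => H.Adj a v ∧ H.Adj b (τ v))).card =
      ∑ w, if w ∈ C ∧ (H.Adj a w ∧ H.Adj b (τ w)) then 1 else 0 := by
    rw [← card_filter]
    congr 1
    ext w
    simp
  have hn' : ¬ H.Adj b a := fun h => hn h.symm
  have hpt : ∀ w, ((if H.Adj a w then 1 else 0) + (if H.Adj b (τ w) then 1 else 0)) +
      ((if w = a then 1 else 0) + (if w = b then 1 else 0)) ≤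
      1 + (if w ∈ C ∧ (H.Adj a w ∧ H.Adj b (τ w)) then 1 else 0) := by
    intro w
    by_cases hwa : w = a
    · subst hwa
      rw [ta]
      simp [hab, hn', haC]
    · by_cases hwb : w = b
      · subst hwb
        rw [tb]
        simp [hab.symm, hn, hbC]
      · rw [if_neg hwa, if_neg hwb]
        by_cases h1 : H.Adj a w
        · by_cases h2 : H.Adj b (τ w)
          · have hwC : w ∈ C := by
              by_contra hC
              exact hout w hC hwa hwb ⟨h1, h2⟩
            rw [if_pos h1, if_pos h2, if_pos ⟨hwC, h1, h2⟩]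
          · rw [if_pos h1, if_neg h2]
            split_ifs <;> omega
        · rw [if_neg h1]
          split_ifs <;> omega
  have hsum := Finset.sum_le_sum fun w (_ : w ∈ (univ : Finset V)) => hpt w
  simp only [Finset.sum_add_distrib, Finset.sum_ite_eq', mem_univ, if_true, sum_const,
    card_univ, smul_eq_mul, mul_one] at hsum
  rw [← e1, ← e2, ← e3] at hsum
  omega

end Pool.Agent.H44O
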