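import Pool.Agent.Lib.H44O.Defs

/-!
# Chunk D6 (M): the cycles of two matchings

`ρ = τ2 * τ1`, that is `ρ v = τ2 (τ1 v)`. Facts: `τ1 (ρ ^ i x) = ρ ^ (-i) (τ1 x)` for all
`i : ℤ` (from `τ1 * ρ * τ1 = ρ⁻¹`, as `τ1`, `τ2` are involutions), and `ρ` fixes `a` and `b`, so
`ρ ^ i v ≠ a, b` if `v ≠ a, b`.
* `no_fix`: suppose `ρ ^ i v = τ1 v`. If `i = 2 j` let `w = ρ ^ j v`; then
  `τ1 w = ρ ^ (-j) (τ1 v) = ρ ^ (-j) (ρ ^ (2 j) v) = w`, but `H.Adj w (τ1 w)`. If `i = 2 j + 1`: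
  `τ1 w = ρ ^ (-j) (ρ ^ (2 j + 1) v) = ρ w = τ2 (τ1 w)`, but `H.Adj (τ1 w) (τ2 (τ1 w))` (`τ1 w ≠ a, b`).
* `same_conj`: `ρ ^ i (τ1 v) = τ1 w` gives `ρ ^ (-i) v = w`.
* `cyc_one`, `cyc_two`: the set `{u | SameCycle ρ q u ∨ SameCycle ρ q (τ1 u)}` is closed under `τ1`
  and `τ2`: `τ1 (τ2 u) = ρ⁻¹ u` and `τ2 u = ρ (τ1 u)`.
* `cyc_fix`: `ρ a = a`, so `SameCycle ρ q a` gives `q = a`.
-/

namespace Pool.Agent.H44O

open Finset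
open scoped Classical

variable {V : Type*} [Fintype V]

theorem d6_conj {τ1 τ2 : Equiv.Perm V} (h1 : ∀ v, τ1 (τ1 v) = v) (h2 : ∀ v, τ2 (τ2 v) = v)
    (i : ℤ) (x : V) : τ1 (((τ2 * τ1) ^ i) x) = ((τ2 * τ1) ^ (-i)) (τ1 x) := by
  have h3 : τ1⁻¹ = τ1 := by
    apply Equiv.ext
    intro v
    rw [Equiv.Perm.inv_eq_iff_eq]
    exact (h1 v).symm
  have h4 : τ2⁻¹ = τ2 := by
    apply Equiv.ext
    intro v
    rw [Equiv.Perm.inv_eq_iff_eq]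
    exact (h2 v).symm
  have h5 : τ1 * (τ2 * τ1) * τ1⁻¹ = (τ2 * τ1)⁻¹ := by
    rw [mul_inv_rev, h4, h3]
    rw [mul_assoc, mul_assoc, ← mul_assoc τ1 τ2]
    have h6 : τ1 * τ1 = 1 := by
      apply Equiv.ext
      intro v
      exact h1 v
    rw [mul_assoc, h6, mul_one]
  have h7 : τ1 * (τ2 * τ1) ^ i * τ1⁻¹ = (τ2 * τ1) ^ (-i) := by
    rw [← conj_zpow, h5, inv_zpow, zpow_neg]
  have h8 : τ1 * (τ2 * τ1) ^ i = (τ2 * τ1) ^ (-i) * τ1 := by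
    rw [← h7]
    group
  exact congrArg (fun σ : Equiv.Perm V => σ x) h8

theorem d6_fix {τ1 τ2 : Equiv.Perm V} {a : V} (h1 : τ1 a = a) (h2 : τ2 a = a) (i : ℤ) :
    ((τ2 * τ1) ^ i) a = a := by
  apply Equiv.Perm.zpow_apply_eq_self_of_apply_eq_self
  rw [Equiv.Perm.mul_apply, h1, h2]

theorem d6_ne {τ1 τ2 : Equiv.Perm V} {a v : V} (h1 : τ1 a = a) (h2 : τ2 a = a) (i : ℤ)
    (hv : v ≠ a) : ((τ2 * τ1) ^ i) v ≠ a := by
  intro h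
  apply hv
  apply ((τ2 * τ1) ^ i).injective
  rw [h, d6_fix h1 h2]

theorem no_fix {H : SimpleGraph V} {a b : V} {τ1 τ2 : Equiv.Perm V} (h1 : IsNear H a b τ1)
    (h2 : IsNear H a b τ2) {v : V} (hva : v ≠ a) (hvb : v ≠ b) :
    ¬ (τ2 * τ1).SameCycle v (τ1 v) := by
  rintro ⟨i, hi⟩
  obtain ⟨j, hj⟩ : ∃ j : ℤ, i = j + j ∨ i = j + j + 1 := ⟨i / 2, by omega⟩
  have hwa : ((τ2 * τ1) ^ j) v ≠ a := d6_ne h1.2.1 h2.2.1 j hva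
  have hwb : ((τ2 * τ1) ^ j) v ≠ b := d6_ne h1.2.2.1 h2.2.2.1 j hvb
  have h3 := d6_conj h1.1 h2.1 j v
  rcases hj with hj | hj
  · have h4 : τ1 (((τ2 * τ1) ^ j) v) = ((τ2 * τ1) ^ j) v := by
      rw [h3, ← hi, ← Equiv.Perm.mul_apply, ← zpow_add, hj]
      congr 2
      ring
    have h5 := h1.2.2.2 _ hwa hwb
    rw [h4] at h5
    exact H.loopless.irrefl _ h5
  · have h4 : τ1 (((τ2 * τ1) ^ j) v) = τ2 (τ1 (((τ2 * τ1) ^ j) v)) := by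
      have h6 : τ1 (((τ2 * τ1) ^ j) v) = ((τ2 * τ1) ^ (1 + j)) v := by
        rw [h3, ← hi, ← Equiv.Perm.mul_apply, ← zpow_add, hj]
        congr 2
        ring
      have h7 := h6
      rw [zpow_add, zpow_one, Equiv.Perm.mul_apply] at h7
      exact h7
    have h7 : τ1 (((τ2 * τ1) ^ j) v) ≠ a := by
      intro h
      apply hwa
      have := congrArg τ1 h
      rwa [h1.1, h1.2.1] at this
    have h8 : τ1 (((τ2 * τ1) ^ j) v) ≠ b := by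
      intro h
      apply hwb
      have := congrArg τ1 h
      rwa [h1.1, h1.2.2.1] at this
    have h5 := h2.2.2.2 _ h7 h8
    rw [← h4] at h5
    exact H.loopless.irrefl _ h5

theorem same_conj {H : SimpleGraph V} {a b : V} {τ1 τ2 : Equiv.Perm V} (h1 : IsNear H a b τ1)
    (h2 : IsNear H a b τ2) {v w : V} (h : (τ2 * τ1).SameCycle (τ1 v) (τ1 w)) :
    (τ2 * τ1).SameCycle v w := by
  obtain ⟨i, hi⟩ := h
  refine ⟨-i, ?_⟩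
  apply τ1.injective
  rw [d6_conj h1.1 h2.1, neg_neg, hi]

theorem cyc_one {H : SimpleGraph V} {a b : V} {τ1 τ2 : Equiv.Perm V} (h1 : IsNear H a b τ1)
    {q u : V} (h : (τ2 * τ1).SameCycle q u ∨ (τ2 * τ1).SameCycle q (τ1 u)) :
    (τ2 * τ1).SameCycle q (τ1 u) ∨ (τ2 * τ1).SameCycle q (τ1 (τ1 u)) := by
  rw [h1.1]
  exact h.symm

theorem cyc_two {H : SimpleGraph V} {a b : V} {τ1 τ2 : Equiv.Perm V} (h1 : IsNear H a b τ1)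
    (h2 : IsNear H a b τ2)
    {q u : V} (h : (τ2 * τ1).SameCycle q u ∨ (τ2 * τ1).SameCycle q (τ1 u)) :
    (τ2 * τ1).SameCycle q (τ2 u) ∨ (τ2 * τ1).SameCycle q (τ1 (τ2 u)) := by
  rcases h with h | h
  · right
    have h3 : (τ2 * τ1) (τ1 (τ2 u)) = u := by
      rw [Equiv.Perm.mul_apply, h1.1, h2.1]
    rw [← Equiv.Perm.sameCycle_apply_right, h3]
    exact h
  · left
    have h3 : (τ2 * τ1) (τ1 u) = τ2 u := by
      rw [Equiv.Perm.mul_apply, h1.1]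
    rw [← h3, Equiv.Perm.sameCycle_apply_right]
    exact h

theorem cyc_fix {H : SimpleGraph V} {a b : V} {τ1 τ2 : Equiv.Perm V} (h1 : IsNear H a b τ1)
    (h2 : IsNear H a b τ2) {q : V} (hqa : q ≠ a) (hqb : q ≠ b) :
    ¬ ((τ2 * τ1).SameCycle q a ∨ (τ2 * τ1).SameCycle q (τ1 a)) ∧
      ¬ ((τ2 * τ1).SameCycle q b ∨ (τ2 * τ1).SameCycle q (τ1 b)) := by
  rw [h1.2.1, h1.2.2.1, or_self, or_self]
  constructor
  · rintro ⟨i, hi⟩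
    exact d6_ne h1.2.1 h2.2.1 i hqa hi
  · rintro ⟨i, hi⟩
    exact d6_ne h1.2.2.1 h2.2.2.1 i hqb hi

end Pool.Agent.H44O
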