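import Mathlib

/-!
# Multigraphs, chromatic index, density; weights, perfect matchings, closure

Part 1 (used in the final statements): finite loopless multigraphs.
Part 2 (used in the proof): weights `x : V → V → ℤ` (number of edges joining two vertices),
perfect matchings as permutations, lattices, closable graphs.
-/

namespace Pool.Agent.H44O

open Finset
open scoped Classical

/-! ## Part 1 -/

/-- A loopless multigraph with vertex set `V` and edge set `E`: the edge `e` joins the two distinct
vertices in `ends e`; several edges may join the same two vertices. -/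
structure MGraph (V E : Type*) where
  /-- the two ends of an edge -/
  ends : E → Sym2 V
  /-- no edge is a loop -/
  not_loop : ∀ e, ¬ (ends e).IsDiag

namespace MGraph

variable {V E : Type*} [Fintype V] [Fintype E] (G : MGraph V E)

/-- The number of edges that join `u` and `v`. -/
noncomputable def mult (u v : V) : ℕ := (univ.filter (fun e => G.ends e = s(u, v))).card

/-- The degree of `v`: the number of edges at `v`. -/
noncomputable def deg (v : V) : ℕ := (univ.filter (fun e => v ∈ G.ends e)).card

/-- The maximum degree. -/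
noncomputable def maxDeg : ℕ := univ.sup G.deg

/-- The multiplicity: the largest number of edges joining one pair of vertices. -/
noncomputable def maxMult : ℕ := univ.sup (fun p : V × V => G.mult p.1 p.2)

/-- The number of edges with both ends in `S`. -/
noncomputable def inside (S : Finset V) : ℕ := (univ.filter (fun e => ∀ v ∈ G.ends e, v ∈ S)).card

/-- The density parameter `w(G)`: the maximum of `⌈|E(H)| / ⌊|V(H)| / 2⌋⌉` over all subgraphs `H`
with at least two vertices (for a given vertex set `S` the best subgraph is the induced one). -/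
noncomputable def dens : ℕ :=
  (univ.filter (fun S : Finset V => 2 ≤ S.card)).sup
    (fun S => ⌈(G.inside S : ℚ) / ((S.card / 2 : ℕ) : ℚ)⌉₊)

/-- A proper edge colouring with `k` colours: two different edges with a common end have different
colours. -/
def Proper {k : ℕ} (c : E → Fin k) : Prop :=
  ∀ e f, e ≠ f → (∃ v, v ∈ G.ends e ∧ v ∈ G.ends f) → c e ≠ c f

/-- The chromatic index: the least number of colours of a proper edge colouring. -/
noncomputable def chromaticIndex : ℕ := sInf {k : ℕ | ∃ c : E → Fin k, G.Proper c}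

end MGraph

/-! ## Part 2 -/

section weights

variable {V : Type*}

/-- A perfect matching of the complete graph on `V`, as a permutation. -/
def IsPM (τ : Equiv.Perm V) : Prop := (∀ v, τ (τ v) = v) ∧ ∀ v, τ v ≠ v

/-- The edge vector of a matching (fixed points are vertices that are not covered). -/
noncomputable def chi (τ : Equiv.Perm V) (u v : V) : ℤ := if τ u = v ∧ u ≠ v then 1 else 0

/-- Weights: symmetric, zero on the diagonal, nonnegative. -/
structure IsW (x : V → V → ℤ) : Prop where
  symm : ∀ u v, x u v = x v u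
  diag : ∀ v, x v v = 0
  nonneg : ∀ u v, 0 ≤ x u v

/-- The graph of the pairs of weight at least `L`. -/
def heavy (x : V → V → ℤ) (L : ℤ) : SimpleGraph V where
  Adj u v := u ≠ v ∧ L ≤ x u v ∧ L ≤ x v u
  symm := ⟨fun _ _ h => ⟨h.1.symm, h.2.2, h.2.1⟩⟩
  loopless := ⟨fun _ h => h.1 rfl⟩

/-- The graph `H` with the edge `ab` added. -/
def addG (H : SimpleGraph V) (a b : V) : SimpleGraph V where
  Adj u v := H.Adj u v ∨ (u ≠ v ∧ ((u = a ∧ v = b) ∨ (u = b ∧ v = a)))
  symm := ⟨fun _ _ h => h.elim (fun h => Or.inl h.symm)
    (fun h => Or.inr ⟨h.1.symm, h.2.elim (fun g => Or.inr ⟨g.2, g.1⟩) (fun g => Or.inl ⟨g.2, g.1⟩)⟩)⟩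
  loopless := ⟨fun v h => h.elim (fun h => H.loopless.irrefl v h) (fun h => h.1 rfl)⟩

/-- The group generated by the perfect matchings of `H`. -/
def lat (H : SimpleGraph V) : AddSubgroup (V → V → ℤ) :=
  AddSubgroup.closure {x | ∃ τ : Equiv.Perm V, IsPM τ ∧ (∀ v, H.Adj v (τ v)) ∧ x = chi τ}

/-- A perfect matching of `H` without the vertices `a` and `b`, as a permutation that fixes `a` and
`b`. -/
def IsNear (H : SimpleGraph V) (a b : V) (τ : Equiv.Perm V) : Prop :=
  (∀ v, τ (τ v) = v) ∧ τ a = a ∧ τ b = b ∧ ∀ v, v ≠ a → v ≠ b → H.Adj v (τ v)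

variable [Fintype V]

/-- The degree. -/
def dg (x : V → V → ℤ) (u : V) : ℤ := ∑ v, x u v

/-- Twice the number of edges inside `U`. -/
def inW (x : V → V → ℤ) (U : Finset V) : ℤ := ∑ u ∈ U, ∑ v ∈ U, x u v

/-- The number of edges with exactly one end in `U`. -/
noncomputable def cutW (x : V → V → ℤ) (U : Finset V) : ℤ := ∑ u ∈ U, ∑ v ∈ Uᶜ, x u v

/-- `x` is a sum of perfect matchings. -/
def Dec (x : V → V → ℤ) : Prop :=
  ∃ a : Equiv.Perm V → ℕ, (∀ τ, a τ ≠ 0 → IsPM τ) ∧ ∀ u v, x u v = ∑ τ, (a τ : ℤ) * chi τ u v

/-- The number of neighbours of `a` in `H`. -/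
noncomputable def nb (H : SimpleGraph V) (a : V) : ℕ := (univ.filter (fun v => H.Adj a v)).card

/-- `H` becomes complete if one adds, one after the other, edges `ab` with
`deg a + deg b ≥ |V| + 1`. -/
inductive Closable : SimpleGraph V → Prop
  | top : Closable ⊤
  | step (H : SimpleGraph V) (a b : V) : a ≠ b → ¬ H.Adj a b →
      Fintype.card V + 1 ≤ nb H a + nb H b → Closable (addG H a b) → Closable H

/-- The sum of the perfect matchings in `𝓜`. -/
noncomputable def sig (𝓜 : Finset (Equiv.Perm V)) (u v : V) : ℤ := ∑ τ ∈ 𝓜, chi τ u v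

/-- The inequalities of Edmonds: degrees at most `r` and at most `r (|U| - 1) / 2` edges inside
every odd set `U`. -/
def Ok (x : V → V → ℤ) (r : ℤ) : Prop :=
  (∀ u, dg x u ≤ r) ∧ ∀ U : Finset V, Odd U.card → inW x U ≤ r * ((U.card : ℤ) - 1)

/-- `U` is a full odd set. -/
def Tight (x : V → V → ℤ) (r : ℤ) (U : Finset V) : Prop :=
  Odd U.card ∧ inW x U = r * ((U.card : ℤ) - 1)

end weights

end Pool.Agent.H44O
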