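import Pool.Agent.Lib.H44O.C2
import Pool.Agent.Lib.H44O.D14

/-!
# Chunk E1 (S/M): regular weights supported on the support of `sig 𝓜`

Let `σ = sig 𝓜`, `H = heavy σ 1`. Claim: for every `y ∈ lat H` there is `T` with `Dec (y + T • σ)`,
and there is `T` with `Dec (- y + T • σ)`. By `AddSubgroup.closure_induction`: for `y = chi τ` with `τ`
a perfect matching of `H`: `T = 0` (`dec_chi`), and `exists_sub_dec`; zero: `T = 0`; sum: add the `T`s
(`dec_add`); negative: exchange the two. By `lat_closable`, `b ∈ lat H`.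
-/

namespace Pool.Agent.H44O

open Finset
open scoped Classical

variable {V : Type*} [Fintype V]

theorem core_base (hV : Even (Fintype.card V)) {𝓜 : Finset (Equiv.Perm V)}
    (h𝓜 : ∀ τ ∈ 𝓜, IsPM τ)
    (hcut : ∀ U : Finset V, Odd U.card → 3 ≤ U.card → U.card + 3 ≤ Fintype.card V →
      (𝓜.card : ℤ) + 1 ≤ cutW (sig 𝓜) U)
    (hcl : Closable (heavy (sig 𝓜) 1)) {b : V → V → ℤ} {ρ : ℤ} (hb : IsW b)
    (hr : ∀ u, dg b u = ρ) (hs : ∀ u v, b u v ≠ 0 → (heavy (sig 𝓜) 1).Adj u v) :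
    ∃ T : ℕ, Dec (b + T • sig 𝓜) := by
  have key : ∀ y ∈ lat (heavy (sig 𝓜) 1), (∃ T : ℕ, Dec (y + T • sig 𝓜)) ∧
      ∃ T : ℕ, Dec (-y + T • sig 𝓜) := by
    intro y hy
    refine AddSubgroup.closure_induction (p := fun y _ => (∃ T : ℕ, Dec (y + T • sig 𝓜)) ∧
      ∃ T : ℕ, Dec (-y + T • sig 𝓜)) ?_ ?_ ?_ ?_ hy
    · rintro _ ⟨τ, hτ, hadj, rfl⟩
      refine ⟨⟨0, ?_⟩, ?_⟩
      · rw [zero_smul, add_zero]
        exact dec_chi hτ
      · obtain ⟨T, hT⟩ := exists_sub_dec hV h𝓜 hcut hτ hadj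
        refine ⟨T, ?_⟩
        rw [neg_add_eq_sub]
        exact hT
    · refine ⟨⟨0, ?_⟩, ⟨0, ?_⟩⟩
      · rw [zero_smul, add_zero]
        exact dec_zero
      · rw [zero_smul, add_zero, neg_zero]
        exact dec_zero
    · rintro y z - - ⟨⟨T1, h1⟩, ⟨S1, g1⟩⟩ ⟨⟨T2, h2⟩, ⟨S2, g2⟩⟩
      refine ⟨⟨T1 + T2, ?_⟩, ⟨S1 + S2, ?_⟩⟩
      · have e : y + z + (T1 + T2) • sig 𝓜 = (y + T1 • sig 𝓜) + (z + T2 • sig 𝓜) := by
          rw [add_smul]; abel
        rw [e]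
        exact dec_add h1 h2
      · have e : -(y + z) + (S1 + S2) • sig 𝓜 = (-y + S1 • sig 𝓜) + (-z + S2 • sig 𝓜) := by
          rw [add_smul]; abel
        rw [e]
        exact dec_add g1 g2
    · rintro y - ⟨h1, h2⟩
      exact ⟨h2, by rw [neg_neg]; exact h1⟩
  exact (key b (lat_closable hV hcl hb.symm hr hs)).1

end Pool.Agent.H44O
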