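import Pool.Agent.Lib.H44O.D4
import Pool.Agent.Lib.H44O.E1

/-!
# Chunk E2 (M): arbitrary regular weights

Strong induction on the outside weight `∑ u, ∑ v, (if (heavy σ 1).Adj u v then 0 else b u v).toNat`
(with `b`, `ρ` generalised), `σ = sig 𝓜`, `H = heavy σ 1`.
If it is zero then `b` is supported on `H`: `core_base`.
Otherwise there are `u, v` with `¬ H.Adj u v` and `b u v > 0` (so `u ≠ v`). By `exists_near` and
`exists_pm_of_near` there is a perfect matching `π` with `π u = v` and `H.Adj w (π w)` for `w ≠ u, v`.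
Put `b' := b + σ - chi π`. It satisfies `IsW`: at `(w, π w)` with `w ≠ u, v` one has `1 ≤ σ w (π w)`;
at `(u, v)`, `(v, u)` one has `1 ≤ b`. It is regular (`dg_add`, `dg_sub`, `dg_chi`, `dg_sig`). Its
outside weight is smaller by two: outside `H` the weight `σ` is zero (`σ ≥ 0` integer, not `≥ 1`;
`σ` is symmetric) and `chi π` is `1` exactly at `(u, v)` and `(v, u)`. By induction
`Dec (b' + T • σ)`, and `b + (T + 1) • σ = (b' + T • σ) + chi π`.
-/

namespace Pool.Agent.H44O

open Finset
open scoped Classical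

variable {V : Type*} [Fintype V]

/-- the outside weight -/
noncomputable def e2_out (H : SimpleGraph V) (b : V → V → ℤ) : ℕ :=
  ∑ u, ∑ v, (if H.Adj u v then (0 : ℤ) else b u v).toNat

theorem core (hV : Even (Fintype.card V)) {𝓜 : Finset (Equiv.Perm V)}
    (h𝓜 : ∀ τ ∈ 𝓜, IsPM τ)
    (hcut : ∀ U : Finset V, Odd U.card → 3 ≤ U.card → U.card + 3 ≤ Fintype.card V →
      (𝓜.card : ℤ) + 1 ≤ cutW (sig 𝓜) U)
    (hcl : Closable (heavy (sig 𝓜) 1)) {b : V → V → ℤ} {ρ : ℤ} (hb : IsW b)
    (hr : ∀ u, dg b u = ρ) : ∃ T : ℕ, Dec (b + T • sig 𝓜) := by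
  have hσ : IsW (sig 𝓜) := isW_sig h𝓜
  have key : ∀ n : ℕ, ∀ (b : V → V → ℤ) (ρ : ℤ), IsW b → (∀ u, dg b u = ρ) →
      e2_out (heavy (sig 𝓜) 1) b < n → ∃ T : ℕ, Dec (b + T • sig 𝓜) := by
    intro n
    induction n with
    | zero => exact fun b ρ _ _ h => absurd h (Nat.not_lt_zero _)
    | succ n ih =>
      intro b ρ hb hr hlt
      by_cases hex : ∃ u v, ¬ (heavy (sig 𝓜) 1).Adj u v ∧ 0 < b u v
      swap
      · refine core_base hV h𝓜 hcut hcl hb hr fun u v huv => ?_
        by_contra hadj
        exact hex ⟨u, v, hadj, lt_of_le_of_ne (hb.nonneg u v) (Ne.symm huv)⟩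
      obtain ⟨u, v, hadj, hpos⟩ := hex
      have huv : u ≠ v := fun h => by rw [h, hb.diag] at hpos; exact lt_irrefl _ hpos
      obtain ⟨τ, hτ⟩ := exists_near hV hcl huv
      obtain ⟨π, hπ, hπu, hπv, hπH⟩ := exists_pm_of_near huv hτ
      have hout : ∀ x y, ¬ (heavy (sig 𝓜) 1).Adj x y → sig 𝓜 x y = 0 := by
        intro x y h
        by_contra h0
        have h1 : 1 ≤ sig 𝓜 x y := by
          have := hσ.nonneg x y
          omega
        refine h ⟨fun hxy => h0 (by rw [hxy]; exact hσ.diag y), h1, ?_⟩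
        rw [hσ.symm]; exact h1
      have hb' : IsW (b + sig 𝓜 - chi π) := by
        refine ⟨fun x y => ?_, fun x => ?_, fun x y => ?_⟩
        · simp only [Pi.sub_apply, Pi.add_apply]
          rw [hb.symm x y, hσ.symm x y, chi_symm hπ.1 x y]
        · simp only [Pi.sub_apply, Pi.add_apply]
          rw [hb.diag, hσ.diag, chi_diag]
          rfl
        · simp only [Pi.sub_apply, Pi.add_apply]
          have h1 := hb.nonneg x y
          have h2 := hσ.nonneg x y
          rw [chi_pm hπ]
          by_cases hxy : π x = y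
          · rw [if_pos hxy]
            by_cases hxu : x = u
            · have hy : y = v := by rw [← hxy, hxu, hπu]
              rw [hxu, hy] at h2 ⊢
              omega
            by_cases hxv : x = v
            · have hy : y = u := by rw [← hxy, hxv, hπv]
              rw [hxv, hy] at h2 ⊢
              have := hb.symm u v
              omega
            have h3 := (hπH x hxu hxv).2.1
            rw [hxy] at h3
            omega
          · rw [if_neg hxy]
            omega
      have hr' : ∀ x, dg (b + sig 𝓜 - chi π) x = ρ + 𝓜.card - 1 := by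
        intro x
        rw [dg_sub, dg_add, hr, dg_sig h𝓜, dg_chi hπ]
      have hterm : ∀ x y, (if (heavy (sig 𝓜) 1).Adj x y then (0 : ℤ)
          else (b + sig 𝓜 - chi π) x y).toNat ≤
          (if (heavy (sig 𝓜) 1).Adj x y then (0 : ℤ) else b x y).toNat := by
        intro x y
        by_cases h : (heavy (sig 𝓜) 1).Adj x y
        · rw [if_pos h, if_pos h]
        · rw [if_neg h, if_neg h]
          simp only [Pi.sub_apply, Pi.add_apply]
          rw [hout x y h]
          have := chi_nonneg π x y
          omega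
      have hlt2 : e2_out (heavy (sig 𝓜) 1) (b + sig 𝓜 - chi π) <
          e2_out (heavy (sig 𝓜) 1) b := by
        unfold e2_out
        refine sum_lt_sum (fun x _ => sum_le_sum fun y _ => hterm x y) ⟨u, mem_univ _, ?_⟩
        refine sum_lt_sum (fun y _ => hterm u y) ⟨v, mem_univ _, ?_⟩
        rw [if_neg hadj, if_neg hadj]
        simp only [Pi.sub_apply, Pi.add_apply]
        rw [hout u v hadj, chi_pm hπ, if_pos hπu]
        omega
      obtain ⟨T, hT⟩ := ih _ _ hb' hr' (by omega)
      refine ⟨T + 1, ?_⟩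
      have e : b + (T + 1) • sig 𝓜 = (b + sig 𝓜 - chi π + T • sig 𝓜) + chi π := by
        rw [add_smul, one_smul]; abel
      rw [e]
      exact dec_add hT (dec_chi hπ)
  exact key _ b ρ hb hr (Nat.lt_succ_self _)

end Pool.Agent.H44O
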