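import Pool.Agent.Lib.H44O.E2

/-!
# Chunk E3 (S/M): a uniform number of copies

There are finitely many pairs `(𝓜, b)` with `0 ≤ b u v ≤ B` (`Finset (Equiv.Perm V)` is finite; the set
of functions with values in an interval is finite). For each such pair satisfying the hypotheses
`core` gives `T0`, and then every `T ≥ T0` works: `b + T • σ = (b + T0 • σ) + (T - T0) • σ`
(`dec_sig`, `dec_nsmul`, `dec_add`). Take the maximum of the `T0` and of `1`.
(For instance: let `F := V → V → Fin (B + 1)`; choose `T0 : Finset (Equiv.Perm V) × F → ℕ` and use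
`Finset.univ.sup T0`.)
-/

namespace Pool.Agent.H44O

open Finset
open scoped Classical

variable {V : Type*} [Fintype V]

theorem core_uniform (hV : Even (Fintype.card V)) (B : ℕ) :
    ∃ T : ℕ, 1 ≤ T ∧ ∀ (𝓜 : Finset (Equiv.Perm V)) (b : V → V → ℤ) (ρ : ℤ),
      (∀ τ ∈ 𝓜, IsPM τ) →
      (∀ U : Finset V, Odd U.card → 3 ≤ U.card → U.card + 3 ≤ Fintype.card V →
        (𝓜.card : ℤ) + 1 ≤ cutW (sig 𝓜) U) →
      Closable (heavy (sig 𝓜) 1) → IsW b → (∀ u, dg b u = ρ) → (∀ u v, b u v ≤ B) →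
      Dec (b + T • sig 𝓜) := by
  have hT0 : ∃ T0 : Finset (Equiv.Perm V) × (V → V → Fin (B + 1)) → ℕ,
      ∀ (p : Finset (Equiv.Perm V) × (V → V → Fin (B + 1))),
        (∃ T : ℕ, Dec ((fun u v => ((p.2 u v : ℕ) : ℤ)) + T • sig p.1)) →
        Dec ((fun u v => ((p.2 u v : ℕ) : ℤ)) + T0 p • sig p.1) := by
    refine ⟨fun p => if h : ∃ T : ℕ, Dec ((fun u v => ((p.2 u v : ℕ) : ℤ)) + T • sig p.1) then
      h.choose else 0, fun p h => ?_⟩
    simp only [dif_pos h]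
    exact h.choose_spec
  obtain ⟨T0, hT0⟩ := hT0
  refine ⟨univ.sup T0 + 1, Nat.le_add_left _ _, ?_⟩
  intro 𝓜 b ρ h𝓜 hcut hcl hb hr hB
  let f : V → V → Fin (B + 1) := fun u v => ⟨(b u v).toNat, by
    have := hB u v
    omega⟩
  have hf : (fun u v => (((𝓜, f) : Finset (Equiv.Perm V) × (V → V → Fin (B + 1))).2 u v : ℕ) :
      V → V → ℤ) = b := by
    funext u v
    exact Int.toNat_of_nonneg (hb.nonneg u v)
  have h1 := hT0 (𝓜, f) (by rw [hf]; exact core hV h𝓜 hcut hcl hb hr)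
  rw [hf] at h1
  have hle : T0 (𝓜, f) ≤ univ.sup T0 := le_sup (f := T0) (mem_univ _)
  obtain ⟨k, hk⟩ : ∃ k, univ.sup T0 + 1 = T0 (𝓜, f) + k := ⟨univ.sup T0 + 1 - T0 (𝓜, f), by omega⟩
  have e : b + (univ.sup T0 + 1) • sig 𝓜 = (b + T0 (𝓜, f) • sig 𝓜) + k • sig 𝓜 := by
    rw [hk, add_smul]; abel
  rw [e]
  exact dec_add h1 (dec_nsmul (dec_sig h𝓜) k)

end Pool.Agent.H44O
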