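import Pool.Agent.Lib.H44O.D1
import Pool.Agent.Lib.H44O.E3

/-!
# Chunk E4 (M/L): the decomposition theorem

Let `P = card (Equiv.Perm V)`, `T` from `core_uniform` with `B = P`, `N = card V`,
`L := T * P * (N + 1) + 1`. Let `x`, `r` be given. If `V` is empty everything is zero (`Dec 0`).
* `0 ≤ L`, so by `odd_cuts` all odd cuts are at least `r`. Take `lam` from `exists_real_dec`.
  `a τ := ⌊lam τ⌋₊`, `b u v := x u v - ∑ τ, a τ * chi τ u v`; as in chunk C1, `0 ≤ b u v ≤ P`.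
  `𝓜 := univ.filter (fun τ => T ≤ a τ)`; since `1 ≤ T`, its elements are perfect matchings.
  For `τ ∉ 𝓜`: `lam τ < a τ + 1 ≤ T`.
* `b` is symmetric and zero on the diagonal, `dg b u = r - ∑ τ, a τ` (only perfect matchings
  contribute).
* `heavy x L ≤ heavy (sig 𝓜) 1`: if `u ≠ v` and `L ≤ x u v` then some `τ ∈ 𝓜` has `τ u = v`; otherwise
  `x u v = ∑ lam τ * chi τ u v ≤ ∑_{τ ∉ 𝓜} lam τ ≤ P * T < L`. So `1 ≤ sig 𝓜 u v`, and the same for
  `v u`. By `closable_mono`, `Closable (heavy (sig 𝓜) 1)`.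
* cuts: for `3 ≤ |U| ≤ N - 3` odd: `cutW x U - r = ∑ τ, lam τ * (cutW (chi τ) U - 1)` (as
  `r = ∑ τ, lam τ`, from `dg`, using one vertex). All `cutW (chi τ) U` with `lam τ ≠ 0` are at least `1`
  and at most `N`. If all `τ ∈ 𝓜` had `cutW (chi τ) U = 1`, the sum would be at most
  `∑_{τ ∉ 𝓜} lam τ * N ≤ P * T * N < L`. So some `τ ∈ 𝓜` has `cutW (chi τ) U ≥ 2`, and
  `cutW (sig 𝓜) U = ∑ τ ∈ 𝓜, cutW (chi τ) U ≥ 𝓜.card + 1` (`cut_sig`, `cut_chi_pos`).
* `x = (b + T • sig 𝓜) + ∑ τ, (a τ - (if τ ∈ 𝓜 then T else 0)) • chi τ` (natural numbers), a sum of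
  elements of `Dec`.
-/

namespace Pool.Agent.H44O

open Finset
open scoped Classical

variable {V : Type*} [Fintype V]

omit [Fintype V] in
theorem e4_chi_01 (τ : Equiv.Perm V) (u v : V) : chi τ u v = 0 ∨ chi τ u v = 1 := by
  unfold chi
  split_ifs
  · exact Or.inr rfl
  · exact Or.inl rfl

/-- The entries of the remainder are at most the number of permutations. -/
theorem e4_rem {x : V → V → ℤ} {lam : Equiv.Perm V → ℝ} (h0 : ∀ τ, 0 ≤ lam τ)
    (hlam : ∀ u v, (x u v : ℝ) = ∑ τ, lam τ * (chi τ u v : ℝ)) (u v : V) :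
    0 ≤ x u v - ∑ τ, ((⌊lam τ⌋₊ : ℕ) : ℤ) * chi τ u v ∧
      x u v - ∑ τ, ((⌊lam τ⌋₊ : ℕ) : ℤ) * chi τ u v ≤ Fintype.card (Equiv.Perm V) := by
  have h1 : ((x u v - ∑ τ, ((⌊lam τ⌋₊ : ℕ) : ℤ) * chi τ u v : ℤ) : ℝ) =
      ∑ τ, (lam τ - (⌊lam τ⌋₊ : ℝ)) * (chi τ u v : ℝ) := by
    push_cast
    rw [hlam, ← sum_sub_distrib]
    exact sum_congr rfl fun τ _ => by ring
  have h2 : ∀ τ, 0 ≤ (chi τ u v : ℝ) ∧ (chi τ u v : ℝ) ≤ 1 := by
    intro τ
    rcases e4_chi_01 τ u v with h | h <;> rw [h] <;> norm_num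
  have h3 : ∀ τ, 0 ≤ lam τ - (⌊lam τ⌋₊ : ℝ) ∧ lam τ - (⌊lam τ⌋₊ : ℝ) ≤ 1 := by
    intro τ
    have a := Nat.floor_le (h0 τ)
    have b := Nat.lt_floor_add_one (lam τ)
    constructor <;> linarith
  constructor
  · have : (0 : ℝ) ≤ ((x u v - ∑ τ, ((⌊lam τ⌋₊ : ℕ) : ℤ) * chi τ u v : ℤ) : ℝ) := by
      rw [h1]
      exact sum_nonneg fun τ _ => mul_nonneg (h3 τ).1 (h2 τ).1
    exact_mod_cast this
  · have : ((x u v - ∑ τ, ((⌊lam τ⌋₊ : ℕ) : ℤ) * chi τ u v : ℤ) : ℝ) ≤
        (Fintype.card (Equiv.Perm V) : ℝ) := by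
      rw [h1]
      calc ∑ τ, (lam τ - (⌊lam τ⌋₊ : ℝ)) * (chi τ u v : ℝ)
          ≤ ∑ _τ : Equiv.Perm V, (1 : ℝ) := by
            refine sum_le_sum fun τ _ => ?_
            calc (lam τ - (⌊lam τ⌋₊ : ℝ)) * (chi τ u v : ℝ) ≤ 1 * 1 :=
                  mul_le_mul (h3 τ).2 (h2 τ).2 (h2 τ).1 zero_le_one
              _ = 1 := one_mul 1
        _ = (Fintype.card (Equiv.Perm V) : ℝ) := by simp [Finset.card_univ]
    exact_mod_cast this

/-- A pair of large weight belongs to a matching with a large coefficient. -/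
theorem e4_heavy {x : V → V → ℤ} {lam : Equiv.Perm V → ℝ} {T : ℕ}
    (hlam : ∀ u v, (x u v : ℝ) = ∑ τ, lam τ * (chi τ u v : ℝ))
    {u v : V} (hL : T * Fintype.card (Equiv.Perm V) < x u v) :
    ∃ τ, T ≤ ⌊lam τ⌋₊ ∧ chi τ u v = 1 := by
  by_contra hcon
  push Not at hcon
  have h1 : (x u v : ℝ) ≤ (Fintype.card (Equiv.Perm V) : ℝ) * T := by
    rw [hlam]
    calc ∑ τ, lam τ * (chi τ u v : ℝ) ≤ ∑ _τ : Equiv.Perm V, (T : ℝ) := by
          refine sum_le_sum fun τ _ => ?_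
          rcases e4_chi_01 τ u v with h | h
          · rw [h]
            simp
          · rw [h, Int.cast_one, mul_one]
            by_contra h5
            push Not at h5
            exact hcon τ (Nat.le_floor h5.le) h
      _ = (Fintype.card (Equiv.Perm V) : ℝ) * T := by simp [Finset.card_univ]
  have h2 : x u v ≤ (Fintype.card (Equiv.Perm V) : ℤ) * T := by exact_mod_cast h1
  rw [mul_comm] at h2
  omega

/-- An odd cut of large value is cut twice by a matching with a large coefficient. -/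
theorem e4_cut {x : V → V → ℤ} {r : ℤ} {lam : Equiv.Perm V → ℝ} {T : ℕ} (hr : ∀ u, dg x u = r)
    (h0 : ∀ τ, 0 ≤ lam τ) (hpm : ∀ τ, lam τ ≠ 0 → IsPM τ)
    (hlam : ∀ u v, (x u v : ℝ) = ∑ τ, lam τ * (chi τ u v : ℝ))
    {U : Finset V} (hU : Odd U.card)
    (hL : r + T * Fintype.card (Equiv.Perm V) * Fintype.card V < cutW x U) :
    ∃ τ, T ≤ ⌊lam τ⌋₊ ∧ 2 ≤ cutW (chi τ) U := by
  by_contra hcon
  push Not at hcon
  obtain ⟨u0, -⟩ : U.Nonempty := card_pos.1 hU.pos
  have h1 : (r : ℝ) = ∑ τ, lam τ := by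
    rw [← hr u0]
    unfold dg
    push_cast
    simp only [hlam]
    rw [sum_comm]
    refine sum_congr rfl fun τ _ => ?_
    rw [← mul_sum]
    by_cases hz : lam τ = 0
    · rw [hz, zero_mul]
    · have h2 := dg_chi (hpm τ hz) u0
      unfold dg at h2
      have h3 : (∑ v, (chi τ u0 v : ℝ)) = 1 := by exact_mod_cast h2
      rw [h3, mul_one]
  have h2 : (cutW x U : ℝ) = ∑ τ, lam τ * (cutW (chi τ) U : ℝ) := by
    unfold cutW
    push_cast
    simp only [hlam, mul_sum]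
    have e1 : ∀ a ∈ U, (∑ b ∈ Uᶜ, ∑ τ, lam τ * (chi τ a b : ℝ)) =
        ∑ τ, ∑ b ∈ Uᶜ, lam τ * (chi τ a b : ℝ) := fun a _ => sum_comm
    rw [sum_congr rfl e1, sum_comm]
  have h3 : (cutW x U : ℝ) - r ≤ (Fintype.card (Equiv.Perm V) : ℝ) * (T * Fintype.card V) := by
    rw [h1, h2, ← sum_sub_distrib]
    calc ∑ τ, (lam τ * (cutW (chi τ) U : ℝ) - lam τ)
        ≤ ∑ _τ : Equiv.Perm V, ((T : ℝ) * Fintype.card V) := by
          refine sum_le_sum fun τ _ => ?_
          have hTN : (0 : ℝ) ≤ (T : ℝ) * Fintype.card V := by positivity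
          by_cases hz : lam τ = 0
          · rw [hz]
            simpa using hTN
          · have a1 : (1 : ℝ) ≤ (cutW (chi τ) U : ℝ) := by
              exact_mod_cast cut_chi_pos (hpm τ hz) hU
            have a2 : (cutW (chi τ) U : ℝ) ≤ Fintype.card V := by
              exact_mod_cast cut_chi_le (hpm τ hz) U
            by_cases hT : T ≤ ⌊lam τ⌋₊
            · have a3 := hcon τ hT
              have a4 : (cutW (chi τ) U : ℝ) ≤ 1 := by
                have : cutW (chi τ) U ≤ 1 := by omega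
                exact_mod_cast this
              have a5 : (cutW (chi τ) U : ℝ) = 1 := le_antisymm a4 a1
              rw [a5, mul_one, sub_self]
              exact hTN
            · have a3 : lam τ ≤ T := by
                by_contra h5
                push Not at h5
                exact hT (Nat.le_floor h5.le)
              have a6 := h0 τ
              have a7 : (0 : ℝ) ≤ T := Nat.cast_nonneg T
              calc lam τ * (cutW (chi τ) U : ℝ) - lam τ
                  = lam τ * ((cutW (chi τ) U : ℝ) - 1) := by ring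
                _ ≤ T * Fintype.card V := by
                  refine mul_le_mul a3 (by linarith) (by linarith) a7
      _ = (Fintype.card (Equiv.Perm V) : ℝ) * (T * Fintype.card V) := by
          simp [Finset.card_univ]
  have h4 : cutW x U - r ≤ (Fintype.card (Equiv.Perm V) : ℤ) * (T * Fintype.card V) := by
    exact_mod_cast h3
  have h5 : (Fintype.card (Equiv.Perm V) : ℤ) * (T * Fintype.card V) =
      T * Fintype.card (Equiv.Perm V) * Fintype.card V := by ring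
  rw [h5] at h4
  linarith

theorem decomposition (hV : Even (Fintype.card V)) :
    ∃ L : ℕ, 1 ≤ L ∧ ∀ (x : V → V → ℤ) (r : ℤ), IsW x → (∀ u, dg x u = r) →
      (∀ U : Finset V, Odd U.card → 3 ≤ U.card → U.card + 3 ≤ Fintype.card V →
        r + L ≤ cutW x U) →
      Closable (heavy x L) → Dec x := by
  obtain ⟨T, hT1, hT⟩ := core_uniform hV (Fintype.card (Equiv.Perm V))
  refine ⟨T * Fintype.card (Equiv.Perm V) * (Fintype.card V + 1) + 1, by omega, ?_⟩
  intro x r hx hr hcut hcl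
  have hLnn : (0 : ℤ) ≤ T * Fintype.card (Equiv.Perm V) * Fintype.card V := by positivity
  have hLnn2 : (0 : ℤ) ≤ T * Fintype.card (Equiv.Perm V) := by positivity
  have hL : ((T * Fintype.card (Equiv.Perm V) * (Fintype.card V + 1) + 1 : ℕ) : ℤ) =
      T * Fintype.card (Equiv.Perm V) * Fintype.card V + T * Fintype.card (Equiv.Perm V) + 1 := by
    push_cast
    ring
  rw [hL] at hcut hcl
  have hodd := odd_cuts hV hx hr (fun U h1 h2 h3 => by
    have := hcut U h1 h2 h3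
    linarith)
  obtain ⟨lam, hl0, hlpm, hlam⟩ := exists_real_dec hx hr hodd
  have hapm : ∀ τ, ⌊lam τ⌋₊ ≠ 0 → IsPM τ := by
    intro τ h
    apply hlpm τ
    intro h2
    rw [h2] at h
    simp at h
  obtain ⟨b, hb⟩ : ∃ b : V → V → ℤ, ∀ u v, b u v =
      x u v - ∑ τ, ((⌊lam τ⌋₊ : ℕ) : ℤ) * chi τ u v := ⟨_, fun _ _ => rfl⟩
  obtain ⟨M, hM⟩ : ∃ M : Finset (Equiv.Perm V), ∀ τ, τ ∈ M ↔ T ≤ ⌊lam τ⌋₊ :=
    ⟨univ.filter (fun τ => T ≤ ⌊lam τ⌋₊), fun τ => by simp⟩
  have hMpm : ∀ τ ∈ M, IsPM τ := by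
    intro τ h
    apply hapm
    have := (hM τ).1 h
    omega
  have hbW : IsW b := by
    refine ⟨?_, ?_, ?_⟩
    · intro u v
      rw [hb, hb, hx.symm u v]
      congr 1
      refine sum_congr rfl fun τ _ => ?_
      by_cases hz : ⌊lam τ⌋₊ = 0
      · rw [hz]
        simp
      · rw [chi_symm (hapm τ hz).1]
    · intro v
      rw [hb, hx.diag]
      simp [chi_diag]
    · intro u v
      rw [hb]
      exact (e4_rem hl0 hlam u v).1
  have hbr : ∀ u, dg b u = r - ∑ τ, ((⌊lam τ⌋₊ : ℕ) : ℤ) := by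
    intro u
    have h1 : dg b u = dg x u - ∑ v, ∑ τ, ((⌊lam τ⌋₊ : ℕ) : ℤ) * chi τ u v := by
      unfold dg
      rw [← sum_sub_distrib]
      exact sum_congr rfl fun v _ => hb u v
    rw [h1, hr, sum_comm]
    congr 1
    refine sum_congr rfl fun τ _ => ?_
    rw [← mul_sum]
    by_cases hz : ⌊lam τ⌋₊ = 0
    · rw [hz]
      simp
    · have h2 := dg_chi (hapm τ hz) u
      unfold dg at h2
      rw [h2, mul_one]
  have hsig : ∀ u v, T * Fintype.card (Equiv.Perm V) < x u v → 1 ≤ sig M u v := by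
    intro u v h
    obtain ⟨τ, h1, h2⟩ := e4_heavy hlam h
    unfold sig
    rw [← h2]
    exact single_le_sum (fun τ' _ => chi_nonneg τ' u v) ((hM τ).2 h1)
  have hle : heavy x (T * Fintype.card (Equiv.Perm V) * Fintype.card V +
      T * Fintype.card (Equiv.Perm V) + 1) ≤ heavy (sig M) 1 := by
    intro u v huv
    exact ⟨huv.1, hsig u v (by linarith [huv.2.1]), hsig v u (by linarith [huv.2.2])⟩
  have hcl2 := closable_mono hle hcl
  have hcut2 : ∀ U : Finset V, Odd U.card → 3 ≤ U.card → U.card + 3 ≤ Fintype.card V →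
      (M.card : ℤ) + 1 ≤ cutW (sig M) U := by
    intro U h1 h2 h3
    obtain ⟨τ, h4, h5⟩ := e4_cut (T := T) hr hl0 hlpm hlam h1 (by
      have := hcut U h1 h2 h3
      linarith)
    rw [cut_sig]
    have h6 : ∑ _τ ∈ M, (1 : ℤ) < ∑ τ ∈ M, cutW (chi τ) U := by
      refine sum_lt_sum (fun τ' h => cut_chi_pos (hMpm τ' h) h1) ⟨τ, (hM τ).2 h4, ?_⟩
      omega
    rw [sum_const, nsmul_eq_mul, mul_one] at h6
    omega
  have hdec1 := hT M b _ hMpm hcut2 hcl2 hbW hbr (fun u v => by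
    rw [hb]
    exact (e4_rem hl0 hlam u v).2)
  have hdec2 : Dec (∑ τ : Equiv.Perm V,
      (⌊lam τ⌋₊ - (if τ ∈ M then T else 0)) • chi τ) := by
    refine dec_sum univ _ fun τ _ => ?_
    by_cases hz : ⌊lam τ⌋₊ = 0
    · rw [hz, Nat.zero_sub, zero_smul]
      exact dec_zero
    · exact dec_nsmul (dec_chi (hapm τ hz)) _
  have hdec := dec_add hdec1 hdec2
  have heq : x = b + T • sig M + ∑ τ : Equiv.Perm V,
      (⌊lam τ⌋₊ - (if τ ∈ M then T else 0)) • chi τ := by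
    funext u v
    simp only [Pi.add_apply, Pi.smul_apply, Finset.sum_apply, sig]
    simp only [nsmul_eq_mul]
    rw [hb]
    have h1 : ∀ τ : Equiv.Perm V, ((⌊lam τ⌋₊ - (if τ ∈ M then T else 0) : ℕ) : ℤ) * chi τ u v =
        ((⌊lam τ⌋₊ : ℕ) : ℤ) * chi τ u v - (if τ ∈ M then (T : ℤ) * chi τ u v else 0) := by
      intro τ
      by_cases h : τ ∈ M
      · rw [if_pos h, if_pos h, Nat.cast_sub ((hM τ).1 h)]
        ring
      · rw [if_neg h, if_neg h, Nat.sub_zero, sub_zero]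
    rw [sum_congr rfl fun τ _ => h1 τ, sum_sub_distrib, sum_ite_mem, univ_inter, ← mul_sum]
    ring
  rw [heq]
  exact hdec

end Pool.Agent.H44O
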