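import Pool.Agent.Lib.H44O.A2

/-!
# Chunk F1 (S/M): adding one edge

`addE x a b` adds one edge between `a` and `b`.
* `isW_addE`, `dg_addE`, `inW_addE`: direct (`Finset.sum_add_distrib`, `Finset.sum_ite_eq`; for
  `a ≠ b` the indicator of `{(a, b), (b, a)}` is the sum of the two indicators).
* `blocked`: `Ok (addE x a b) r` fails. The degrees of `addE x a b` are at most `r` (`dg_addE`, the
  degrees of `a` and `b` were less than `r`). So there is an odd `U` with
  `inW (addE x a b) U > r (|U| - 1)`; since `inW x U ≤ r (|U| - 1)`, both `a, b ∈ U` and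
  `inW x U > r (|U| - 1) - 2`. Both sides are even (`even_inW`; `|U| - 1` is even), so
  `inW x U = r (|U| - 1)`.
-/

namespace Pool.Agent.H44O

open Finset
open scoped Classical

variable {V : Type*} [Fintype V]

/-- `x` with one more edge between `a` and `b`. -/
noncomputable def addE (x : V → V → ℤ) (a b : V) (u v : V) : ℤ :=
  x u v + if (u = a ∧ v = b) ∨ (u = b ∧ v = a) then 1 else 0

omit [Fintype V] in
theorem f1_ind_symm (a b u v : V) : (if (u = a ∧ v = b) ∨ (u = b ∧ v = a) then (1 : ℤ) else 0) =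
    if (v = a ∧ u = b) ∨ (v = b ∧ u = a) then (1 : ℤ) else 0 := by
  refine if_congr ?_ rfl rfl
  constructor
  · rintro (⟨h1, h2⟩ | ⟨h1, h2⟩)
    · exact Or.inr ⟨h2, h1⟩
    · exact Or.inl ⟨h2, h1⟩
  · rintro (⟨h1, h2⟩ | ⟨h1, h2⟩)
    · exact Or.inr ⟨h2, h1⟩
    · exact Or.inl ⟨h2, h1⟩

omit [Fintype V] in
theorem f1_ind {a b : V} (hab : a ≠ b) (u v : V) :
    (if (u = a ∧ v = b) ∨ (u = b ∧ v = a) then (1 : ℤ) else 0) =
      (if u = a then (if v = b then 1 else 0) else 0) +
        (if u = b then (if v = a then 1 else 0) else 0) := by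
  by_cases h1 : u = a
  · subst h1
    simp [hab]
  · simp only [h1, false_and, false_or, if_false, zero_add]
    by_cases h2 : u = b
    · simp [h2]
    · simp [h2]

theorem isW_addE {x : V → V → ℤ} (hx : IsW x) {a b : V} (hab : a ≠ b) : IsW (addE x a b) := by
  refine ⟨fun u v => ?_, fun v => ?_, fun u v => ?_⟩
  · unfold addE
    rw [hx.symm u v, f1_ind_symm a b u v]
  · unfold addE
    rw [hx.diag, if_neg, add_zero]
    rintro (⟨h1, h2⟩ | ⟨h1, h2⟩)
    · exact hab (h1.symm.trans h2)
    · exact hab (h2.symm.trans h1)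
  · unfold addE
    have := hx.nonneg u v
    split_ifs <;> omega

theorem le_addE (x : V → V → ℤ) (a b u v : V) : x u v ≤ addE x a b u v := by
  unfold addE
  split_ifs <;> omega

theorem dg_addE (x : V → V → ℤ) {a b : V} (hab : a ≠ b) (u : V) :
    dg (addE x a b) u = dg x u + if u = a ∨ u = b then 1 else 0 := by
  unfold dg addE
  rw [Finset.sum_add_distrib]
  congr 1
  rw [Finset.sum_congr rfl fun v _ => f1_ind hab u v, Finset.sum_add_distrib]
  by_cases h1 : u = a
  · subst h1
    simp [hab]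
  · by_cases h2 : u = b
    · subst h2
      simp [h1]
    · simp [h1, h2]

theorem inW_addE (x : V → V → ℤ) {a b : V} (hab : a ≠ b) (U : Finset V) :
    inW (addE x a b) U = inW x U + if a ∈ U ∧ b ∈ U then 2 else 0 := by
  have h1 : ∀ u ∈ U, (∑ v ∈ U, addE x a b u v) = (∑ v ∈ U, x u v) +
      ((if u = a then (if b ∈ U then 1 else 0) else 0) +
        (if u = b then (if a ∈ U then 1 else 0) else 0)) := by
    intro u _
    unfold addE
    rw [Finset.sum_add_distrib]
    congr 1
    rw [Finset.sum_congr rfl fun v _ => f1_ind hab u v, Finset.sum_add_distrib]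
    congr 1
    · by_cases h : u = a
      · simp [h]
      · simp [h]
    · by_cases h : u = b
      · simp [h]
      · simp [h]
  unfold inW
  rw [Finset.sum_congr rfl h1, Finset.sum_add_distrib, Finset.sum_add_distrib,
    Finset.sum_ite_eq', Finset.sum_ite_eq']
  congr 1
  by_cases h2 : a ∈ U <;> by_cases h3 : b ∈ U <;> simp [h2, h3]

theorem blocked {x : V → V → ℤ} {r : ℤ} (hx : IsW x) (hok : Ok x r) {a b : V} (hab : a ≠ b)
    (ha : dg x a < r) (hb : dg x b < r) (hno : ¬ Ok (addE x a b) r) :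
    ∃ U : Finset V, Tight x r U ∧ a ∈ U ∧ b ∈ U := by
  have h1 : ∀ u, dg (addE x a b) u ≤ r := by
    intro u
    rw [dg_addE x hab]
    by_cases h : u = a ∨ u = b
    · rw [if_pos h]
      rcases h with h | h
      · rw [h]; omega
      · rw [h]; omega
    · rw [if_neg h, add_zero]
      exact hok.1 u
  have h2 : ¬ ∀ U : Finset V, Odd U.card → inW (addE x a b) U ≤ r * ((U.card : ℤ) - 1) :=
    fun h => hno ⟨h1, h⟩
  push Not at h2
  obtain ⟨U, hU, hlt⟩ := h2
  have h3 := hok.2 U hU
  rw [inW_addE x hab] at hlt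
  have hmem : a ∈ U ∧ b ∈ U := by
    by_contra hn
    rw [if_neg hn, add_zero] at hlt
    omega
  rw [if_pos hmem] at hlt
  refine ⟨U, ⟨hU, ?_⟩, hmem.1, hmem.2⟩
  have h4 := even_inW hx U
  have h5 : Even (r * ((U.card : ℤ) - 1)) := by
    obtain ⟨k, hk⟩ := hU
    rw [hk]
    refine Even.mul_left ?_ r
    exact ⟨k, by push_cast; ring⟩
  obtain ⟨p, hp⟩ := h4
  obtain ⟨q, hq⟩ := h5
  rw [hq] at hlt h3 ⊢
  rw [hp] at hlt h3 ⊢
  omega

end Pool.Agent.H44O
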