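import Pool.Agent.Lib.H44O.F1

/-!
# Chunk F2 (S/M): adding edges as long as possible

Strong induction on the natural number `(∑ u, (r - dg x u)).toNat` (with `x` generalised); the sum is
nonnegative by `Ok`. If there are `a ≠ b` with `dg x a < r`, `dg x b < r` and `Ok (addE x a b) r`, then
apply the induction hypothesis to `addE x a b` (the sum is smaller by two). Otherwise `x' = x`, with
`blocked`.
-/

namespace Pool.Agent.H44O

open Finset
open scoped Classical

variable {V : Type*} [Fintype V]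

theorem saturate {x : V → V → ℤ} {r : ℤ} (hx : IsW x) (hok : Ok x r) :
    ∃ x' : V → V → ℤ, IsW x' ∧ Ok x' r ∧ (∀ u v, x u v ≤ x' u v) ∧
      ∀ a b, a ≠ b → dg x' a < r → dg x' b < r → ∃ U : Finset V, Tight x' r U ∧ a ∈ U ∧ b ∈ U := by
  have key : ∀ (n : ℕ) (x : V → V → ℤ), IsW x → Ok x r → (∑ u, (r - dg x u)).toNat = n →
      ∃ x' : V → V → ℤ, IsW x' ∧ Ok x' r ∧ (∀ u v, x u v ≤ x' u v) ∧
      ∀ a b, a ≠ b → dg x' a < r → dg x' b < r → ∃ U : Finset V, Tight x' r U ∧ a ∈ U ∧ b ∈ U := by
    intro n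
    induction n using Nat.strong_induction_on with
    | _ n ih =>
    intro x hx hok hn
    by_cases h : ∃ a b, a ≠ b ∧ dg x a < r ∧ dg x b < r ∧ Ok (addE x a b) r
    · obtain ⟨a, b, hab, ha, hb, hok'⟩ := h
      have h0 : 0 ≤ ∑ u, (r - dg (addE x a b) u) :=
        Finset.sum_nonneg fun u _ => by have := hok'.1 u; omega
      have h1 : ∑ u, (r - dg (addE x a b) u) < ∑ u, (r - dg x u) := by
        refine Finset.sum_lt_sum (fun u _ => ?_) ⟨a, Finset.mem_univ a, ?_⟩
        · rw [dg_addE x hab]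
          split_ifs <;> omega
        · rw [dg_addE x hab, if_pos (Or.inl rfl)]
          omega
      obtain ⟨x', h2, h3, h4, h5⟩ := ih (∑ u, (r - dg (addE x a b) u)).toNat (by omega)
        (addE x a b) (isW_addE hx hab) hok' rfl
      exact ⟨x', h2, h3, fun u v => (le_addE x a b u v).trans (h4 u v), h5⟩
    · push Not at h
      exact ⟨x, hx, hok, fun _ _ => le_rfl, fun a b hab ha hb => blocked hx hok hab ha hb
        (h a b hab ha hb)⟩
  exact key _ x hx hok rfl

end Pool.Agent.H44O
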