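import Pool.Agent.Lib.H44O.A2

/-!
# Chunk F3 (M): uncrossing of full odd sets

* `tight_union`: let `c ∈ U ∩ W` with `dg x c < r`.
  If `|U ∩ W|` is even, then `|U \ W|` and `|W \ U|` are odd, and `inW_sdiff` gives
  `r (|U| - 1) + r (|W| - 1) ≤ r (|U \ W| - 1) + r (|W \ U| - 1) + 2 ∑ v ∈ U ∩ W, dg x v`, that is
  `r |U ∩ W| ≤ ∑ v ∈ U ∩ W, dg x v`, but the sum is smaller than `r |U ∩ W|` because of `c`
  (`Finset.sum_lt_sum`). Contradiction. So `|U ∩ W|` is odd, `|U ∪ W|` is odd, and
  `inW_union_inter` gives `inW x (U ∪ W) ≥ r (|U| - 1) + r (|W| - 1) - r (|U ∩ W| - 1) =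
  r (|U ∪ W| - 1)`; the other inequality is `Ok`.
* `tight_cover`: `D` a set of vertices with `dg x < r`, any two different elements of `D` in a common
  tight set, at least two elements. Fix `a ∈ D`. Induction on a subset `E` of `D.erase a` (nonempty):
  there is a tight set containing `a` and `E`; for the step use `tight_union` with `c = a`.
-/

namespace Pool.Agent.H44O

open Finset
open scoped Classical

variable {V : Type*} [Fintype V]

theorem tight_union {x : V → V → ℤ} {r : ℤ} (hx : IsW x) (hok : Ok x r) {U W : Finset V}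
    (hU : Tight x r U) (hW : Tight x r W) {c : V} (hcU : c ∈ U) (hcW : c ∈ W) (hc : dg x c < r) :
    Tight x r (U ∪ W) := by
  obtain ⟨hUo, hUt⟩ := hU
  obtain ⟨hWo, hWt⟩ := hW
  have c1 := card_inter_add_card_sdiff U W
  have c2 := card_inter_add_card_sdiff W U
  rw [inter_comm] at c2
  have c3 := card_union_add_card_inter U W
  have c1z : ((U ∩ W).card : ℤ) + ((U \ W).card : ℤ) = (U.card : ℤ) := by exact_mod_cast c1
  have c2z : ((U ∩ W).card : ℤ) + ((W \ U).card : ℤ) = (W.card : ℤ) := by exact_mod_cast c2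
  have c3z : ((U ∪ W).card : ℤ) + ((U ∩ W).card : ℤ) = (U.card : ℤ) + (W.card : ℤ) := by
    exact_mod_cast c3
  by_cases hev : Even (U ∩ W).card
  · exfalso
    have o1 : Odd (U \ W).card := by
      rw [Nat.odd_iff] at hUo ⊢
      rw [Nat.even_iff] at hev
      omega
    have o2 : Odd (W \ U).card := by
      rw [Nat.odd_iff] at hWo ⊢
      rw [Nat.even_iff] at hev
      omega
    have h1 := hok.2 _ o1
    have h2 := hok.2 _ o2
    have h3 := inW_sdiff hx U W
    have h4 : ∑ v ∈ U ∩ W, dg x v < ∑ _v ∈ U ∩ W, r :=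
      sum_lt_sum (fun v _ => hok.1 v) ⟨c, mem_inter.2 ⟨hcU, hcW⟩, hc⟩
    rw [sum_const, nsmul_eq_mul] at h4
    rw [hUt, hWt, ← c1z, ← c2z] at h3
    nlinarith
  · rw [Nat.not_even_iff_odd] at hev
    have o1 : Odd (U ∪ W).card := by
      rw [Nat.odd_iff] at hUo hWo hev ⊢
      omega
    refine ⟨o1, le_antisymm (hok.2 _ o1) ?_⟩
    have h1 := hok.2 _ hev
    have h3 := inW_union_inter hx U W
    rw [hUt, hWt] at h3
    have h5 : ((U ∪ W).card : ℤ) = (U.card : ℤ) + (W.card : ℤ) - ((U ∩ W).card : ℤ) := by linarith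
    rw [h5]
    nlinarith

theorem tight_cover {x : V → V → ℤ} {r : ℤ} (hx : IsW x) (hok : Ok x r) (D : Finset V)
    (hD : ∀ u ∈ D, dg x u < r) (h2 : 2 ≤ D.card)
    (h : ∀ a ∈ D, ∀ b ∈ D, a ≠ b → ∃ U : Finset V, Tight x r U ∧ a ∈ U ∧ b ∈ U) :
    ∃ W : Finset V, Tight x r W ∧ D ⊆ W := by
  obtain ⟨a, ha⟩ : D.Nonempty := card_pos.1 (by omega)
  have key : ∀ E : Finset V, E ⊆ D.erase a → E.Nonempty →
      ∃ W : Finset V, Tight x r W ∧ a ∈ W ∧ E ⊆ W := by
    intro E
    induction E using Finset.induction_on with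
    | empty =>
      intro _ h
      exact absurd h (by simp)
    | insert b E hb ih =>
      intro hsub _
      have hbD : b ∈ D.erase a := hsub (mem_insert_self b E)
      rw [mem_erase] at hbD
      obtain ⟨U, hU, haU, hbU⟩ := h a ha b hbD.2 (Ne.symm hbD.1)
      rcases E.eq_empty_or_nonempty with hE | hE
      · refine ⟨U, hU, haU, ?_⟩
        rw [hE]
        intro v hv
        simp only [insert_empty_eq, mem_singleton] at hv
        rw [hv]
        exact hbU
      · obtain ⟨W, hW, haW, hEW⟩ := ih (fun v hv => hsub (mem_insert_of_mem hv)) hE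
        refine ⟨U ∪ W, tight_union hx hok hU hW haU haW (hD a ha), mem_union_left _ haU, ?_⟩
        intro v hv
        rcases mem_insert.1 hv with h1 | h1
        · rw [h1]
          exact mem_union_left _ hbU
        · exact mem_union_right _ (hEW h1)
  have hne : (D.erase a).Nonempty := by
    rw [← card_pos, card_erase_of_mem ha]
    omega
  obtain ⟨W, hW, haW, hsub⟩ := key (D.erase a) (Subset.refl _) hne
  refine ⟨W, hW, ?_⟩
  intro v hv
  by_cases h1 : v = a
  · rw [h1]
    exact haW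
  · exact hsub (mem_erase.2 ⟨h1, hv⟩)

end Pool.Agent.H44O
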