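import Pool.Agent.Lib.H44O.F2
import Pool.Agent.Lib.H44O.F3

/-!
# Chunk F4 (M): completion to a regular weight

Take `x'` from `saturate`; `D := {u | dg x' u < r}`, `n = card V`, and write `Σ` for
`∑ u, (r - dg x' u) = r n - inW x' univ` (`sum_dg` for `univ`).
Case `2 ≤ |D|`: `W` tight with `D ⊆ W` (`tight_cover`). Since all vertices outside `W` have degree
`r`: `Σ = ∑ u ∈ W, (r - dg x' u) = r |W| - inW x' W - cutW x' W = r - cutW x' W` (`sum_dg`).
Case `D = {a}`: `Σ = r - dg x' a = r - cutW x' {a}`, the same formula with `W = {a}` (odd).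
Case `D = ∅`: `Σ = 0`.
* `complete_even`: `n` even. Suppose `D` is nonempty; then with `W` as above, `|Wᶜ|` is odd, so
  `inW x' Wᶜ ≤ r (|Wᶜ| - 1)` and `cutW x' W = cutW x' Wᶜ = r |Wᶜ| - inW x' Wᶜ ≥ r` (degrees outside
  are `r`). So `Σ ≤ 0`, but `Σ > 0`: contradiction. So `D = ∅`.
* `complete_odd`: `n` odd: `univ` is an odd set, so `Σ = r n - inW x' univ ≥ r`. And `Σ ≤ r` in the
  first two cases (`cutW ≥ 0`); in the case `D = ∅`, `Σ = 0 ≤ r` (`0 ≤ r`: `V` is nonempty,
  `0 ≤ dg x' u ≤ r`). So `Σ = r`.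
-/

namespace Pool.Agent.H44O

open Finset
open scoped Classical

variable {V : Type*} [Fintype V]

theorem f4_sum {x : V → V → ℤ} {r : ℤ} {W : Finset V} (hW : ∀ u, u ∉ W → dg x u = r) :
    ∑ u, (r - dg x u) = r * W.card - inW x W - cutW x W := by
  rw [← Finset.sum_add_sum_compl W]
  have h1 : ∑ u ∈ Wᶜ, (r - dg x u) = 0 := by
    refine Finset.sum_eq_zero fun u hu => ?_
    rw [hW u (Finset.mem_compl.1 hu), sub_self]
  have h2 := sum_dg x W
  rw [h1, add_zero, Finset.sum_sub_distrib, h2, Finset.sum_const, nsmul_eq_mul]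
  ring

theorem f4_cases {x : V → V → ℤ} {r : ℤ} (hx : IsW x) (hok : Ok x r)
    (hsat : ∀ a b, a ≠ b → dg x a < r → dg x b < r → ∃ U : Finset V, Tight x r U ∧ a ∈ U ∧ b ∈ U) :
    (∀ u, dg x u = r) ∨ ∃ W : Finset V, Odd W.card ∧ (∀ u, u ∉ W → dg x u = r) ∧
      ∑ u, (r - dg x u) = r - cutW x W := by
  set D := univ.filter (fun u => dg x u < r) with hD
  have hout : ∀ u, u ∉ D → dg x u = r := by
    intro u hu
    have h1 := hok.1 u
    by_contra h2
    exact hu (Finset.mem_filter.2 ⟨Finset.mem_univ _, lt_of_le_of_ne h1 h2⟩)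
  rcases Nat.lt_or_ge D.card 2 with h2 | h2
  · rcases Nat.eq_zero_or_pos D.card with h3 | h3
    · left
      intro u
      apply hout
      rw [Finset.card_eq_zero.1 h3]
      exact Finset.notMem_empty u
    · right
      obtain ⟨a, ha⟩ := Finset.card_eq_one.1 (by omega : D.card = 1)
      refine ⟨{a}, by simp, fun u hu => hout u (by rw [ha]; exact hu), ?_⟩
      rw [f4_sum (W := {a}) (fun u hu => hout u (by rw [ha]; exact hu)), inW_singleton hx]
      simp
  · right
    obtain ⟨W, hW, hDW⟩ := tight_cover hx hok D (fun u hu => (Finset.mem_filter.1 hu).2) h2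
      (fun a ha b hb hab => hsat a b hab (Finset.mem_filter.1 ha).2 (Finset.mem_filter.1 hb).2)
    have hout' : ∀ u, u ∉ W → dg x u = r := fun u hu => hout u fun h => hu (hDW h)
    refine ⟨W, hW.1, hout', ?_⟩
    rw [f4_sum hout', hW.2]
    ring

theorem complete_even (hV : Even (Fintype.card V)) {x : V → V → ℤ} {r : ℤ} (hx : IsW x)
    (hok : Ok x r) : ∃ x' : V → V → ℤ, IsW x' ∧ (∀ u v, x u v ≤ x' u v) ∧ ∀ u, dg x' u = r := by
  obtain ⟨x', hx', hok', hle, hsat⟩ := saturate hx hok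
  refine ⟨x', hx', hle, ?_⟩
  rcases f4_cases hx' hok' hsat with h | ⟨W, hW, hout, hsum⟩
  · exact h
  · have hc : Wᶜ.card = Fintype.card V - W.card := Finset.card_compl W
    have hc2 : W.card ≤ Fintype.card V := Finset.card_le_univ W
    have hodd : Odd Wᶜ.card := by
      obtain ⟨k, hk⟩ := hW
      obtain ⟨l, hl⟩ := hV
      exact ⟨l - k - 1, by omega⟩
    have h1 := hok'.2 Wᶜ hodd
    have h2 := sum_dg x' Wᶜ
    have h3 : ∑ u ∈ Wᶜ, dg x' u = Wᶜ.card * r := by
      rw [Finset.sum_congr rfl fun u hu => hout u (Finset.mem_compl.1 hu), Finset.sum_const,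
        nsmul_eq_mul]
    rw [h3, cutW_compl hx'] at h2
    have h4 : ∑ u, (r - dg x' u) ≤ 0 := by
      rw [hsum]
      linarith
    have h5 : ∀ u ∈ (univ : Finset V), 0 ≤ r - dg x' u := fun u _ => sub_nonneg.2 (hok'.1 u)
    have h6 : ∑ u, (r - dg x' u) = 0 := le_antisymm h4 (Finset.sum_nonneg h5)
    intro u
    have h7 := (Finset.sum_eq_zero_iff_of_nonneg h5).1 h6 u (Finset.mem_univ u)
    linarith

theorem complete_odd (hV : Odd (Fintype.card V)) {x : V → V → ℤ} {r : ℤ} (hx : IsW x)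
    (hok : Ok x r) : ∃ x' : V → V → ℤ, IsW x' ∧ (∀ u v, x u v ≤ x' u v) ∧ (∀ u, dg x' u ≤ r) ∧
      ∑ u, (r - dg x' u) = r := by
  obtain ⟨x', hx', hok', hle, hsat⟩ := saturate hx hok
  refine ⟨x', hx', hle, hok'.1, le_antisymm ?_ ?_⟩
  · rcases f4_cases hx' hok' hsat with h | ⟨W, hW, hout, hsum⟩
    · have h1 : ∑ u, (r - dg x' u) = 0 := Finset.sum_eq_zero fun u _ => by rw [h u, sub_self]
      rw [h1]
      have hpos : 0 < Fintype.card V := hV.pos
      obtain ⟨u⟩ := Fintype.card_pos_iff.1 hpos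
      rw [← h u]
      exact dg_nonneg hx' u
    · rw [hsum]
      linarith [cutW_nonneg hx' W]
  · have h1 := f4_sum (x := x') (r := r) (W := univ) (fun u hu => absurd (Finset.mem_univ u) hu)
    have h2 := hok'.2 univ (by rw [Finset.card_univ]; exact hV)
    have h3 : cutW x' univ = 0 := by
      unfold cutW
      simp
    rw [h1, h3]
    linarith

end Pool.Agent.H44O
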