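import Pool.Agent.Lib.H44O.A2

/-!
# Chunk F5 (S/M): one more vertex

`ext x r` on `Option V`: the new vertex `none` is joined to `some v` by `r - dg x v` edges.
* `isW_ext`, `dg_ext`: `Fintype.sum_option` (`∑ o : Option V, f o = f none + ∑ v, f (some v)`).
* `cut_ext`: for `U : Finset (Option V)` with `none ∉ U`, `A = U.eraseNone`: `cutW (ext x r) U` is
  `cutW x A` plus the edges to `none`, so at least `cutW x A`; `A.card = U.card`.
-/

namespace Pool.Agent.H44O

open Finset
open scoped Classical

variable {V : Type*} [Fintype V]

/-- One more vertex, which takes up the missing degrees. -/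
def ext (x : V → V → ℤ) (r : ℤ) : Option V → Option V → ℤ
  | none, none => 0
  | none, some v => r - dg x v
  | some u, none => r - dg x u
  | some u, some v => x u v

theorem isW_ext {x : V → V → ℤ} {r : ℤ} (hx : IsW x) (hd : ∀ u, dg x u ≤ r) : IsW (ext x r) where
  symm u v := by
    cases u with
    | none => cases v <;> rfl
    | some u =>
      cases v with
      | none => rfl
      | some v => exact hx.symm u v
  diag v := by
    cases v with
    | none => rfl
    | some v => exact hx.diag v
  nonneg u v := by
    cases u with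
    | none =>
      cases v with
      | none => exact le_rfl
      | some v => exact sub_nonneg.2 (hd v)
    | some u =>
      cases v with
      | none => exact sub_nonneg.2 (hd u)
      | some v => exact hx.nonneg u v

theorem dg_ext {x : V → V → ℤ} {r : ℤ} (hs : ∑ u, (r - dg x u) = r) (o : Option V) :
    dg (ext x r) o = r := by
  unfold dg
  rw [Fintype.sum_option]
  cases o with
  | none =>
    show 0 + ∑ v, (r - dg x v) = r
    rw [hs, zero_add]
  | some u =>
    show (r - dg x u) + ∑ v, x u v = r
    unfold dg
    ring

theorem f5_mem_compl {W : Type*} [Fintype W] (i : DecidableEq W) (S : Finset W) (o : W) :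
    o ∈ @compl (Finset W) (@BooleanAlgebra.toCompl (Finset W) (@Finset.booleanAlgebra W _ i)) S ↔ o ∉ S :=
  Finset.mem_compl

theorem cut_ext {x : V → V → ℤ} {r : ℤ} (hd : ∀ u, dg x u ≤ r) (U : Finset (Option V))
    (hU : none ∉ U) :
    ∃ A : Finset V, A.card = U.card ∧ cutW x A ≤ cutW (ext x r) U := by
  obtain ⟨A, rfl⟩ : ∃ A : Finset V, U = A.map Function.Embedding.some := by
    refine ⟨Finset.univ.filter (fun v => some v ∈ U), ?_⟩
    ext o
    cases o with
    | none => simp [hU]
    | some v => simp
  refine ⟨A, (card_map _).symm, ?_⟩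
  unfold cutW
  rw [sum_map]
  refine sum_le_sum fun a _ => ?_
  have h1 : ∑ v ∈ Aᶜ, x a v = ∑ o ∈ Aᶜ.map Function.Embedding.some, ext x r (some a) o := by
    rw [sum_map]
    rfl
  rw [h1]
  refine sum_le_sum_of_subset_of_nonneg ?_ ?_
  · intro o ho
    rw [mem_map] at ho
    obtain ⟨v, hv, rfl⟩ := ho
    rw [mem_compl] at hv
    rw [f5_mem_compl]
    intro h
    rw [mem_map] at h
    obtain ⟨w, hw, hwv⟩ := h
    exact hv (Option.some_injective _ hwv ▸ hw)
  · intro o ho ho'
    cases o with
    | none => exact sub_nonneg.2 (hd a)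
    | some v =>
      exfalso
      apply ho'
      rw [mem_map]
      refine ⟨v, ?_, rfl⟩
      rw [f5_mem_compl] at ho
      rw [mem_compl]
      intro h
      exact ho (mem_map.2 ⟨v, h, rfl⟩)

end Pool.Agent.H44O
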