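import Pool.Agent.Lib.H44O.A3

/-!
# Chunk F6 (M): from a decomposition to matchings of the original vertices

Output of the weight theorems: natural numbers `a τ` for involutions `τ` of `V` (fixed points allowed)
with `∑ a τ = r` and `x u v ≤ ∑ τ, a τ * chi τ u v`.
* `out_of_dec` (no extra vertex): take the `a` of `Dec x'`; `r = dg x' u = ∑ τ, a τ` for a vertex `u`
  (only perfect matchings contribute, `dg_chi`); `V` is nonempty.
* `out_of_dec_ext` (extra vertex): from the coefficients `c π` of `Dec y` on `Option V` let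
  `a τ := ∑ π with c π ≠ 0 and Equiv.removeNone π = τ, c π`. For a perfect matching `π` of `Option V`,
  `τ = Equiv.removeNone π` satisfies: if `π (some u) = some v` then `τ u = v`; if
  `π (some u) = none` then `π none = some u` and `τ u = u`. So `τ` is an involution and for `u ≠ v`:
  `τ u = v` iff `π (some u) = some v`, so `chi τ u v = chi π (some u) (some v)` for `u ≠ v`. And
  `∑ τ, a τ = ∑ π, c π = dg y none = r`.
-/

namespace Pool.Agent.H44O

open Finset
open scoped Classical

variable {V : Type*} [Fintype V]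

/-- `x` is covered by `r` matchings. -/
def Cov (x : V → V → ℤ) (r : ℤ) : Prop :=
  ∃ a : Equiv.Perm V → ℕ, ((∑ τ, a τ : ℕ) : ℤ) = r ∧ (∀ τ, a τ ≠ 0 → ∀ v, τ (τ v) = v) ∧
    ∀ u v, u ≠ v → x u v ≤ ∑ τ, (a τ : ℤ) * chi τ u v

theorem f6_sum {W P : Type*} [Fintype W] [Fintype P] (pm : P → Equiv.Perm W) {y : W → W → ℤ} {a : P → ℕ}
    (ha : ∀ τ, a τ ≠ 0 → IsPM (pm τ))
    (hy : ∀ u v, y u v = ∑ τ, (a τ : ℤ) * chi (pm τ) u v) (u : W) : ((∑ τ, a τ : ℕ) : ℤ) = dg y u := by
  unfold dg
  rw [Finset.sum_congr rfl fun v _ => hy u v, Finset.sum_comm]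
  push_cast
  refine Finset.sum_congr rfl fun τ _ => ?_
  rw [← Finset.mul_sum]
  by_cases h : a τ = 0
  · simp [h]
  · have h1 := dg_chi (ha τ h) u
    unfold dg at h1
    rw [h1, mul_one]

/-- Push forward of the coefficients. -/
noncomputable def f6_a {P Q : Type*} [Fintype P] (g : P → Q) (c : P → ℕ) (τ : Q) : ℕ :=
  ∑ π ∈ univ.filter (fun π => g π = τ), c π

theorem f6_push {P Q : Type*} [Fintype P] [Fintype Q] (g : P → Q) (c : P → ℕ) (f : Q → ℤ) :
    ∑ τ : Q, (f6_a g c τ : ℤ) * f τ = ∑ π : P, (c π : ℤ) * f (g π) := by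
  rw [← Finset.sum_fiberwise (s := (univ : Finset P)) (g := g) (f := fun π => (c π : ℤ) * f (g π))]
  refine Finset.sum_congr rfl fun τ _ => ?_
  unfold f6_a
  push_cast
  rw [Finset.sum_mul]
  refine Finset.sum_congr rfl fun π hπ => ?_
  rw [(mem_filter.1 hπ).2]

theorem f6_ne {P Q : Type*} [Fintype P] (g : P → Q) (c : P → ℕ) (τ : Q) (h : f6_a g c τ ≠ 0) :
    ∃ π, g π = τ ∧ c π ≠ 0 := by
  obtain ⟨π, hπ, hcπ⟩ := Finset.exists_ne_zero_of_sum_ne_zero h
  exact ⟨π, (mem_filter.1 hπ).2, hcπ⟩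

theorem f6_main {P : Type*} [Fintype P] (pm : P → Equiv.Perm (Option V)) {x : V → V → ℤ}
    {y : Option V → Option V → ℤ} {r : ℤ} (hle : ∀ u v, x u v ≤ y (some u) (some v)) (c : P → ℕ)
    (hc : ∀ π, c π ≠ 0 → IsPM (pm π)) (hcy : ∀ u v, y u v = ∑ π, (c π : ℤ) * chi (pm π) u v)
    (hsum : ((∑ π, c π : ℕ) : ℤ) = r) : Cov x r := by
  refine ⟨f6_a (fun π => Equiv.removeNone (pm π)) c, ?_, ?_, ?_⟩
  · have h1 := f6_push (fun π => Equiv.removeNone (pm π)) c (fun _ => 1)
    simp only [mul_one] at h1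
    rw [← hsum]
    push_cast at h1 ⊢
    exact h1
  · intro τ hτ v
    obtain ⟨π, hπ, hcπ⟩ := f6_ne _ _ _ hτ
    have hpm := hc π hcπ
    rw [← hπ]
    rcases h : pm π (some v) with _ | w
    · have h1 : some (Equiv.removeNone (pm π) v) = pm π none := Equiv.removeNone_none (pm π) h
      have h2 : pm π none = some v := by
        rw [← h]
        exact hpm.1 (some v)
      have h3 : Equiv.removeNone (pm π) v = v := Option.some_injective _ (h1.trans h2)
      rw [h3, h3]
    · have h1 : some (Equiv.removeNone (pm π) v) = pm π (some v) := Equiv.removeNone_some (pm π) ⟨w, h⟩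
      have h2 : Equiv.removeNone (pm π) v = w := Option.some_injective _ (h1.trans h)
      have h3 : pm π (some w) = some v := by
        rw [← h]
        exact hpm.1 (some v)
      have h4 : some (Equiv.removeNone (pm π) w) = pm π (some w) := Equiv.removeNone_some (pm π) ⟨v, h3⟩
      rw [h2]
      exact Option.some_injective _ (h4.trans h3)
  · intro u v huv
    refine (hle u v).trans ?_
    rw [hcy, f6_push (fun π => Equiv.removeNone (pm π)) c (fun τ => chi τ u v)]
    refine Finset.sum_le_sum fun π _ => ?_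
    refine mul_le_mul_of_nonneg_left ?_ (Int.natCast_nonneg _)
    unfold chi
    by_cases h : pm π (some u) = some v
    · have h1 : some (Equiv.removeNone (pm π) u) = pm π (some u) := Equiv.removeNone_some (pm π) ⟨v, h⟩
      have h2 : Equiv.removeNone (pm π) u = v := Option.some_injective _ (h1.trans h)
      rw [if_pos ⟨h, fun e => huv (Option.some_injective _ e)⟩, if_pos ⟨h2, huv⟩]
    · rw [if_neg (fun e => h e.1)]
      split_ifs <;> simp

theorem out_of_dec [Nonempty V] {x x' : V → V → ℤ} {r : ℤ} (hle : ∀ u v, x u v ≤ x' u v)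
    (hr : ∀ u, dg x' u = r) (hdec : Dec x') : Cov x r := by
  obtain ⟨a, ha, hax⟩ := hdec
  obtain ⟨u0⟩ := ‹Nonempty V›
  refine ⟨a, ?_, fun τ h => (ha τ h).1, fun u v _ => (hle u v).trans (hax u v).le⟩
  rw [f6_sum id ha hax u0, hr]

theorem out_of_dec_ext {x : V → V → ℤ} {y : Option V → Option V → ℤ} {r : ℤ}
    (hle : ∀ u v, x u v ≤ y (some u) (some v)) (hr : ∀ u, dg y u = r) (hdec : Dec y) :
    Cov x r := by
  obtain ⟨c, hc, hcy⟩ := hdec
  have key : ∀ i : Fintype (Equiv.Perm (Option V)),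
      (∀ u v : Option V, y u v = ∑ τ ∈ @univ (Equiv.Perm (Option V)) i, (c τ : ℤ) * chi τ u v) → Cov x r := by
    intro i h
    exact @f6_main V _ (Equiv.Perm (Option V)) i id x y r hle c hc h
      ((@f6_sum (Option V) (Equiv.Perm (Option V)) _ i id y c hc h none).trans (hr none))
  exact key _ hcy

end Pool.Agent.H44O
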