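import Pool.Agent.Lib.H44O.A2

/-!
# Chunk G1 (M): cuts are large (large minimum degree)

Let `n = card V`, `j = |A|`. We may assume `2 j ≤ n` (otherwise pass to `Aᶜ`, `cutW_compl`).
`cutW x A = ∑ u ∈ A, dg x u - inW x A ≥ j θ μ - μ j (j - 1)` (`sum_dg`; `inW x A ≤ μ j (j - 1)` since the
diagonal is zero). With `ε = θ - n/2 - 1 > 0`:
`j (θ + 1 - j) = j (n/2 + 2 + ε - j) = n + (j - 2) (n/2 - j) + j ε ≥ n + 2 ε`.
-/

namespace Pool.Agent.H44O

open Finset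
open scoped Classical

variable {V : Type*} [Fintype V]

theorem inW_le {x : V → V → ℤ} (hx : IsW x) {μ : ℕ} (hμ : ∀ u v, x u v ≤ μ) (A : Finset V) :
    inW x A ≤ μ * (A.card * ((A.card : ℤ) - 1)) := by
  unfold inW
  have h1 : ∀ u ∈ A, ∑ v ∈ A, x u v ≤ μ * ((A.card : ℤ) - 1) := by
    intro u hu
    rw [← Finset.add_sum_erase A _ hu, hx.diag u, zero_add]
    have h2 : ∑ v ∈ A.erase u, x u v ≤ ∑ _v ∈ A.erase u, (μ : ℤ) := Finset.sum_le_sum fun v _ => hμ u v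
    rw [Finset.sum_const, Finset.card_erase_of_mem hu, nsmul_eq_mul] at h2
    have h3 : 1 ≤ A.card := Finset.card_pos.2 ⟨u, hu⟩
    rw [Nat.cast_sub h3] at h2
    push_cast at h2
    linarith
  have h2 := Finset.sum_le_sum h1
  rw [Finset.sum_const, nsmul_eq_mul] at h2
  linarith

theorem g1_half {x : V → V → ℤ} (hx : IsW x) {μ : ℕ} (hμ : ∀ u v, x u v ≤ μ) {θ : ℝ}
    (hθ : (Fintype.card V : ℝ) / 2 + 1 < θ) (hd : ∀ u, θ * μ ≤ dg x u) {A : Finset V}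
    (h2 : 2 ≤ A.card) (hn : 2 * A.card ≤ Fintype.card V) :
    μ * (Fintype.card V + 2 * (θ - Fintype.card V / 2 - 1)) ≤ (cutW x A : ℝ) := by
  have h1 := sum_dg x A
  have h3 := inW_le hx hμ A
  have h4 : (A.card : ℝ) * (θ * μ) ≤ ((∑ u ∈ A, dg x u : ℤ) : ℝ) := by
    push_cast
    have := Finset.sum_le_sum fun u (_ : u ∈ A) => hd u
    rw [Finset.sum_const, nsmul_eq_mul] at this
    exact this
  have h5 : (inW x A : ℝ) ≤ μ * (A.card * ((A.card : ℝ) - 1)) := by exact_mod_cast h3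
  have h6 : ((∑ u ∈ A, dg x u : ℤ) : ℝ) = (inW x A : ℝ) + (cutW x A : ℝ) := by exact_mod_cast h1
  have h2' : (2 : ℝ) ≤ A.card := by exact_mod_cast h2
  have hn' : 2 * (A.card : ℝ) ≤ Fintype.card V := by exact_mod_cast hn
  have hμ0 : (0 : ℝ) ≤ μ := by positivity
  have h7 : (Fintype.card V : ℝ) + 2 * (θ - Fintype.card V / 2 - 1) ≤
      A.card * θ - A.card * ((A.card : ℝ) - 1) := by
    have e1 := mul_nonneg (by linarith : (0 : ℝ) ≤ (A.card : ℝ) - 2) (by linarith : (0 : ℝ) ≤ (Fintype.card V : ℝ) / 2 - A.card)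
    have e2 := mul_nonneg (by linarith : (0 : ℝ) ≤ (A.card : ℝ) - 2) (by linarith : (0 : ℝ) ≤ θ - (Fintype.card V : ℝ) / 2 - 1)
    nlinarith
  have h8 := mul_le_mul_of_nonneg_left h7 hμ0
  have h9 : (μ : ℝ) * (A.card * θ - A.card * ((A.card : ℝ) - 1)) = A.card * (θ * μ) - μ * (A.card * ((A.card : ℝ) - 1)) := by
    ring
  rw [h9] at h8
  linarith

theorem cut_large {x : V → V → ℤ} (hx : IsW x) {μ : ℕ} (hμ : ∀ u v, x u v ≤ μ) {θ : ℝ}
    (hθ : (Fintype.card V : ℝ) / 2 + 1 < θ) (hd : ∀ u, θ * μ ≤ dg x u) {A : Finset V}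
    (h2 : 2 ≤ A.card) (hn : A.card + 2 ≤ Fintype.card V) :
    μ * (Fintype.card V + 2 * (θ - Fintype.card V / 2 - 1)) ≤ (cutW x A : ℝ) := by
  by_cases h : 2 * A.card ≤ Fintype.card V
  · exact g1_half hx hμ hθ hd h2 h
  · rw [← cutW_compl hx A]
    refine g1_half hx hμ hθ hd ?_ ?_
    · rw [Finset.card_compl]
      omega
    · rw [Finset.card_compl]
      omega

end Pool.Agent.H44O
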