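import Pool.Agent.Lib.H44O.A2

/-!
# Chunk G2 (S/M): degrees in the graph of the heavy pairs

`θ μ ≤ dg x u = ∑ v, x u v ≤ μ * nb (heavy x L) u + L * n`: split the sum into the `v` adjacent to `u` in
`heavy x L` (each term `≤ μ`) and the others (each term `≤ L`: for `v ≠ u` not adjacent one has
`x u v < L`, as `x` is symmetric; the diagonal is zero and `0 ≤ L`). Hence
`θ μ ≤ μ * nb + L n`. If `L * n < (θ - c) μ` then `c μ < nb μ`, so `c < nb`.
-/

namespace Pool.Agent.H44O

open Finset
open scoped Classical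

variable {V : Type*} [Fintype V]

theorem heavy_deg {x : V → V → ℤ} (hx : IsW x) {μ L : ℕ} (hμ0 : 0 < μ) (hμ : ∀ u v, x u v ≤ μ)
    {θ c : ℝ} {u : V} (hd : θ * μ ≤ dg x u) (hL : (L : ℝ) * Fintype.card V < (θ - c) * μ) :
    c < nb (heavy x L) u := by
  have h1 : ∀ v, x u v ≤ (if (heavy x L).Adj u v then (μ : ℤ) else 0) + L := by
    intro v
    by_cases h : (heavy x L).Adj u v
    · rw [if_pos h]
      have := hμ u v
      omega
    · rw [if_neg h, zero_add]
      by_contra hlt
      push Not at hlt
      refine h ⟨?_, hlt.le, ?_⟩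
      · rintro rfl
        rw [hx.diag] at hlt
        omega
      · rw [← hx.symm u v]
        exact hlt.le
  have h2 : dg x u ≤ μ * nb (heavy x L) u + L * Fintype.card V := by
    calc dg x u ≤ ∑ v, ((if (heavy x L).Adj u v then (μ : ℤ) else 0) + L) :=
          Finset.sum_le_sum fun v _ => h1 v
      _ = μ * nb (heavy x L) u + L * Fintype.card V := by
          rw [Finset.sum_add_distrib, ← Finset.sum_filter, Finset.sum_const, Finset.sum_const, nb,
            Finset.card_univ]
          simp only [nsmul_eq_mul]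
          ring
  have h3 : (dg x u : ℝ) ≤ μ * nb (heavy x L) u + L * Fintype.card V := by exact_mod_cast h2
  have hμR : (0 : ℝ) < μ := by exact_mod_cast hμ0
  have h4 : c * μ < nb (heavy x L) u * μ := by nlinarith
  exact lt_of_mul_lt_mul_right h4 hμR.le

theorem heavy_mono {x y : V → V → ℤ} (h : ∀ u v, x u v ≤ y u v) (L : ℤ) : heavy x L ≤ heavy y L := by
  intro u v huv
  exact ⟨huv.1, huv.2.1.trans (h u v), huv.2.2.trans (h v u)⟩

end Pool.Agent.H44O
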