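import Pool.Agent.Lib.H44O.E4
import Pool.Agent.Lib.H44O.F4
import Pool.Agent.Lib.H44O.F6
import Pool.Agent.Lib.H44O.G1
import Pool.Agent.Lib.H44O.G2

/-!
# Chunk G3 (M): large minimum degree, even order

`L` from `decomposition` (for `V`), `ε = θ - n/2 - 1 > 0`; choose `μ0 ≥ 1` with `L < 2 ε μ0` and
`L n < ε μ0` (`exists_nat_gt`). Let `x, μ, r` be given. If `V` is empty: `Cov x r` needs `∑ a = r`, so
assume `V` nonempty (hypothesis). `x'` from `complete_even`.
* cuts: `3 ≤ |U| ≤ n - 3`: `cutW x' U ≥ cutW x U ≥ μ (n + 2 ε) ≥ r + L` (`cut_large`).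
* `Closable (heavy x' L)`: by `closable_mono` (`heavy_mono`) enough for `heavy x L`; `closable_of`: for
  `H' ≥ heavy x L`, `H' ≠ ⊤`, take non-adjacent `a ≠ b`; `nb H' a ≥ nb (heavy x L) a > n/2 + 1`
  (`heavy_deg` with `c = n/2 + 1`, `nb_mono`), same for `b`, so `nb H' a + nb H' b > n + 2`.
* `decomposition` gives `Dec x'`, `out_of_dec` gives the result.
-/

namespace Pool.Agent.H44O

open Finset
open scoped Classical

variable {V : Type*} [Fintype V]

theorem min_degree_even (hV : Even (Fintype.card V)) [Nonempty V] {θ : ℝ}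
    (hθ : (Fintype.card V : ℝ) / 2 + 1 < θ) :
    ∃ μ0 : ℕ, ∀ (x : V → V → ℤ) (μ : ℕ) (r : ℤ), μ0 ≤ μ → IsW x → (∀ u v, x u v ≤ μ) →
      (∀ u, θ * μ ≤ dg x u) → Ok x r → r ≤ μ * Fintype.card V → Cov x r := by
  obtain ⟨L, hL1, hdecomp⟩ := decomposition hV
  obtain ⟨m, hm⟩ := exists_nat_gt (((L : ℝ) * (Fintype.card V + 1)) / (θ - Fintype.card V / 2 - 1))
  have hε : 0 < θ - Fintype.card V / 2 - 1 := by linarith
  rw [div_lt_iff₀ hε] at hm
  refine ⟨m + 1, fun x μ r hμ hx hxμ hdx hok hr => ?_⟩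
  have hμ0 : 0 < μ := by omega
  have hμm : (m : ℝ) ≤ μ := by exact_mod_cast (by omega : m ≤ μ)
  have hLn : (0 : ℝ) ≤ (L : ℝ) * Fintype.card V := by positivity
  have hL0 : (0 : ℝ) < (L : ℝ) := by exact_mod_cast hL1
  have hbig : (L : ℝ) * (Fintype.card V + 1) < μ * (θ - Fintype.card V / 2 - 1) :=
    lt_of_lt_of_le hm (mul_le_mul_of_nonneg_right hμm hε.le)
  have hbig' : (L : ℝ) * Fintype.card V + L < μ * (θ - Fintype.card V / 2 - 1) := by linarith
  obtain ⟨x', hx', hle, hdg⟩ := complete_even hV hx hok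
  have hnb : ∀ u, (Fintype.card V : ℝ) / 2 + 1 < nb (heavy x L) u := by
    intro u
    refine heavy_deg hx hμ0 hxμ (hdx u) ?_
    have : (θ - ((Fintype.card V : ℝ) / 2 + 1)) * μ = μ * (θ - Fintype.card V / 2 - 1) := by ring
    rw [this]
    linarith
  refine out_of_dec hle hdg (hdecomp x' r hx' hdg ?_ ?_)
  · intro U _ h3 h3'
    have h1 : cutW x U ≤ cutW x' U := by
      unfold cutW
      exact Finset.sum_le_sum fun u _ => Finset.sum_le_sum fun v _ => hle u v
    have h2 := cut_large hx hxμ hθ hdx (A := U) (by omega) (by omega)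
    have h4 : (r : ℝ) ≤ μ * Fintype.card V := by exact_mod_cast hr
    have h5 : ((r + L : ℤ) : ℝ) ≤ (cutW x' U : ℝ) := by
      have h6 : (cutW x U : ℝ) ≤ (cutW x' U : ℝ) := by exact_mod_cast h1
      push_cast
      linarith
    exact_mod_cast h5
  · refine closable_mono (heavy_mono hle L) (closable_of _ fun H' hH hne => ?_)
    have hex : ∃ a b, a ≠ b ∧ ¬ H'.Adj a b := by
      by_contra hcon
      push Not at hcon
      apply hne
      ext a b
      rw [SimpleGraph.top_adj]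
      exact ⟨fun h => h.ne, fun h => hcon a b h⟩
    obtain ⟨a, b, hab, hadj⟩ := hex
    refine ⟨a, b, hab, hadj, ?_⟩
    have ha : (nb (heavy x L) a : ℝ) ≤ nb H' a := by exact_mod_cast nb_mono hH a
    have hb : (nb (heavy x L) b : ℝ) ≤ nb H' b := by exact_mod_cast nb_mono hH b
    have h1 := hnb a
    have h2 := hnb b
    have h3 : ((Fintype.card V + 1 : ℕ) : ℝ) ≤ ((nb H' a + nb H' b : ℕ) : ℝ) := by
      push_cast
      linarith
    exact_mod_cast h3

end Pool.Agent.H44O
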