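import Pool.Agent.Lib.H44O.D1
import Pool.Agent.Lib.H44O.F5
import Pool.Agent.Lib.H44O.G2

/-!
# Chunk G4 (M): the heavy graph with the additional vertex is closable

`n = card V`, `N = card (Option V) = n + 1`, `y = ext x' r`.
* `three_heavy`: suppose at most two vertices `v` satisfy `L ≤ r - dg x' v`; say all of them are in
  `{d1, d2}` (`n ≥ 2`; choose `d1 ≠ d2` accordingly). Then
  `r = ∑ v, (r - dg x' v) ≤ (r - dg x' d1) + (r - dg x' d2) + L n`, so
  `dg x' d1 + dg x' d2 ≤ r + L n ≤ μ n + L n`. But `dg x' ≥ dg x ≥ θ μ`, so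
  `2 θ μ ≤ μ n + L n`, against `L n < (2 θ - n) μ`.
* `closable_ext`: use `closable_of` for `H' ≥ heavy y L`, `H' ≠ ⊤`. If there are `a ≠ b` in `V` with
  `some a`, `some b` not adjacent in `H'`: `nb H' (some a) ≥ nb (heavy x L) a > n/2 + 1` (neighbours
  `some v`; injection), same for `b`; the sum is more than `n + 2 = N + 1`. Otherwise all `some a`,
  `some b` are adjacent; since `H' ≠ ⊤`, `none` is not adjacent to some `some a`;
  `nb H' (some a) ≥ n - 1` and `nb H' none ≥ 3` (`three_heavy`; `none` and `some v` are adjacent in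
  `heavy y L` if `L ≤ r - dg x' v`), the sum is at least `n + 2 = N + 1`.
-/

namespace Pool.Agent.H44O

open Finset
open scoped Classical

variable {V : Type*} [Fintype V]

theorem three_heavy {x x' : V → V → ℤ} {r : ℤ} {μ L : ℕ} {θ : ℝ} (hn : 2 ≤ Fintype.card V)
    (hle : ∀ u v, x u v ≤ x' u v) (hdx : ∀ u, θ * μ ≤ dg x u) (hd : ∀ u, dg x' u ≤ r)
    (hs : ∑ u, (r - dg x' u) = r) (hr : r ≤ μ * Fintype.card V)
    (hL : (L : ℝ) * Fintype.card V < (2 * θ - Fintype.card V) * μ) :
    3 ≤ (univ.filter (fun v => (L : ℤ) ≤ r - dg x' v)).card := by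
  by_contra hlt
  have h2 : (univ.filter (fun v => (L : ℤ) ≤ r - dg x' v)).card ≤ 2 := by omega
  obtain ⟨T, hST, hT⟩ := Finset.exists_superset_card_eq h2 hn
  have hdg : ∀ u, dg x u ≤ dg x' u := fun u => Finset.sum_le_sum fun v _ => hle u v
  have hdx' : ∀ u, θ * μ ≤ (dg x' u : ℝ) := fun u => (hdx u).trans (by exact_mod_cast hdg u)
  have h3 : ∑ u ∈ T, (r - dg x' u) + ∑ u ∈ Tᶜ, (r - dg x' u) = r := by
    rw [Finset.sum_add_sum_compl, hs]
  have h4 : ∑ u ∈ Tᶜ, (r - dg x' u) ≤ (L : ℤ) * Fintype.card V := by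
    have e1 : ∑ u ∈ Tᶜ, (r - dg x' u) ≤ ∑ _u ∈ Tᶜ, (L : ℤ) := by
      refine Finset.sum_le_sum fun u hu => ?_
      rw [mem_compl] at hu
      by_contra hc
      exact hu (hST (mem_filter.2 ⟨mem_univ _, by linarith⟩))
    rw [Finset.sum_const, nsmul_eq_mul] at e1
    have e2 : ((Tᶜ.card : ℕ) : ℤ) ≤ Fintype.card V := by exact_mod_cast Finset.card_le_univ _
    have e3 : ((Tᶜ.card : ℕ) : ℤ) * L ≤ (Fintype.card V : ℤ) * L := mul_le_mul_of_nonneg_right e2 (Int.natCast_nonneg L)
    linarith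
  have h5 : ((∑ u ∈ T, (r - dg x' u) : ℤ) : ℝ) ≤ 2 * ((r : ℝ) - θ * μ) := by
    push_cast
    have e1 : ∑ u ∈ T, ((r : ℝ) - (dg x' u : ℝ)) ≤ ∑ _u ∈ T, ((r : ℝ) - θ * μ) :=
      Finset.sum_le_sum fun u _ => by linarith [hdx' u]
    rw [Finset.sum_const, hT, nsmul_eq_mul] at e1
    exact_mod_cast e1
  have h3' : ((∑ u ∈ T, (r - dg x' u) : ℤ) : ℝ) + ((∑ u ∈ Tᶜ, (r - dg x' u) : ℤ) : ℝ) = (r : ℝ) := by exact_mod_cast h3
  have h4' : ((∑ u ∈ Tᶜ, (r - dg x' u) : ℤ) : ℝ) ≤ (L : ℝ) * Fintype.card V := by exact_mod_cast h4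
  have hr' : (r : ℝ) ≤ μ * Fintype.card V := by exact_mod_cast hr
  nlinarith

theorem closable_ext {x x' : V → V → ℤ} {r : ℤ} {L : ℕ} (hx : IsW x) (hx' : IsW x')
    (hle : ∀ u v, x u v ≤ x' u v) (hd : ∀ u, dg x' u ≤ r)
    (hnb : ∀ u, (Fintype.card V : ℝ) / 2 + 1 < nb (heavy x L) u)
    (h3 : 3 ≤ (univ.filter (fun v => (L : ℤ) ≤ r - dg x' v)).card) :
    Closable (heavy (ext x' r) L) := by
  refine closable_of _ fun H' hH hne => ?_
  by_cases hcase : ∃ a b : V, a ≠ b ∧ ¬ H'.Adj (some a) (some b)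
  · obtain ⟨a, b, hab, hadj⟩ := hcase
    refine ⟨some a, some b, fun h => hab (Option.some_injective _ h), hadj, ?_⟩
    have h1 : ∀ a : V, nb (heavy x L) a ≤ nb H' (some a) := by
      intro a
      unfold nb
      refine Finset.card_le_card_of_injOn (fun v => some v) ?_ (fun u _ v _ h => Option.some_injective _ h)
      intro v hv
      have hv' := (mem_filter.1 (Finset.mem_coe.1 hv)).2
      refine Finset.mem_coe.2 (mem_filter.2 ⟨mem_univ _, hH ?_⟩)
      exact ⟨fun h => hv'.1 (Option.some_injective _ h), hv'.2.1.trans (hle _ _), hv'.2.2.trans (hle _ _)⟩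
    have ha := hnb a
    have hb := hnb b
    have ha' : (nb (heavy x L) a : ℝ) ≤ nb H' (some a) := by exact_mod_cast h1 a
    have hb' : (nb (heavy x L) b : ℝ) ≤ nb H' (some b) := by exact_mod_cast h1 b
    rw [Fintype.card_option]
    have h4 : ((Fintype.card V + 1 + 1 : ℕ) : ℝ) ≤ ((nb H' (some a) + nb H' (some b) : ℕ) : ℝ) := by
      push_cast
      linarith
    exact_mod_cast h4
  · push Not at hcase
    have hex : ∃ a : V, ¬ H'.Adj none (some a) := by
      by_contra hcon
      push Not at hcon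
      apply hne
      ext o o'
      rw [SimpleGraph.top_adj]
      refine ⟨fun h => h.ne, fun h => ?_⟩
      cases o with
      | none =>
        cases o' with
        | none => exact absurd rfl h
        | some v => exact hcon v
      | some u =>
        cases o' with
        | none => exact (hcon u).symm
        | some v => exact hcase u v fun e => h (by rw [e])
    obtain ⟨a, ha⟩ := hex
    refine ⟨none, some a, fun h => Option.some_ne_none a h.symm, ha, ?_⟩
    have h1 : 3 ≤ nb H' none := by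
      refine h3.trans ?_
      unfold nb
      refine Finset.card_le_card_of_injOn (fun v => some v) ?_ (fun u _ v _ h => Option.some_injective _ h)
      intro v hv
      have hv' := (mem_filter.1 (Finset.mem_coe.1 hv)).2
      refine Finset.mem_coe.2 (mem_filter.2 ⟨mem_univ _, hH ?_⟩)
      exact ⟨fun h => Option.some_ne_none v h.symm, hv', hv'⟩
    have h2 : Fintype.card V - 1 ≤ nb H' (some a) := by
      rw [← Finset.card_univ, ← Finset.card_erase_of_mem (mem_univ a)]
      unfold nb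
      refine Finset.card_le_card_of_injOn (fun v => some v) ?_ (fun u _ v _ h => Option.some_injective _ h)
      intro v hv
      have hv' := Finset.mem_erase.1 (Finset.mem_coe.1 hv)
      exact Finset.mem_coe.2 (mem_filter.2 ⟨mem_univ _, hcase a v hv'.1.symm⟩)
    have h5 : 1 ≤ Fintype.card V := Fintype.card_pos_iff.2 ⟨a⟩
    rw [Fintype.card_option]
    omega

end Pool.Agent.H44O
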