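import Pool.Agent.Lib.H44O.E4
import Pool.Agent.Lib.H44O.F4
import Pool.Agent.Lib.H44O.F5
import Pool.Agent.Lib.H44O.F6
import Pool.Agent.Lib.H44O.G1
import Pool.Agent.Lib.H44O.G4

/-!
# Chunk G5 (M): large minimum degree, odd order

`L` from `decomposition` for `Option V` (`n + 1` vertices, even), `ε = θ - n/2 - 1 > 0`; `μ0 ≥ 1` with
`L < 2 ε μ0` and `L n < ε μ0` (then also `L n < (2 θ - n) μ`). If `n = 1`: `θ μ ≤ dg x u = 0` is false
for `μ ≥ 1` (`x` has only the diagonal entry), so assume `n ≥ 2`.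
`x'` from `complete_odd`, `y = ext x' r`: `IsW y`, `dg y = r`.
* cuts of `y`: `U` odd, `3 ≤ |U|`, `|U| + 3 ≤ n + 1`. If `none ∉ U`: `cut_ext` gives `A` with `|A| = |U|`
  and `cutW x' A ≤ cutW y U`; `cutW x' A ≥ cutW x A ≥ μ (n + 2 ε) ≥ r + L` (`cut_large`, `|A| ≥ 2`,
  `|A| + 2 ≤ n`). If `none ∈ U` use `Uᶜ` (`cutW_compl`; `|Uᶜ| = n + 1 - |U|`, odd or not does not
  matter, it satisfies the same bounds).
* `closable_ext` with `heavy_deg` (`c = n/2 + 1`) and `three_heavy`.
* `decomposition` gives `Dec y`, and `out_of_dec_ext` the result.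
-/

namespace Pool.Agent.H44O

open Finset
open scoped Classical

variable {V : Type*} [Fintype V]

theorem min_degree_odd (hV : Odd (Fintype.card V)) {θ : ℝ}
    (hθ : (Fintype.card V : ℝ) / 2 + 1 < θ) :
    ∃ μ0 : ℕ, ∀ (x : V → V → ℤ) (μ : ℕ) (r : ℤ), μ0 ≤ μ → IsW x → (∀ u v, x u v ≤ μ) →
      (∀ u, θ * μ ≤ dg x u) → Ok x r → r ≤ μ * Fintype.card V → Cov x r := by
  have hVo : Even (Fintype.card (Option V)) := by
    rw [Fintype.card_option]
    exact hV.add_one
  obtain ⟨L, hL1, hdecomp⟩ := decomposition hVo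
  obtain ⟨m, hm⟩ := exists_nat_gt (((L : ℝ) * (Fintype.card V + 1)) / (θ - Fintype.card V / 2 - 1))
  have hε : 0 < θ - Fintype.card V / 2 - 1 := by linarith
  rw [div_lt_iff₀ hε] at hm
  refine ⟨m + 1, fun x μ r hμ hx hxμ hdx hok hr => ?_⟩
  have hμ0 : 0 < μ := by omega
  have hμR : (0 : ℝ) < (μ : ℝ) := by exact_mod_cast hμ0
  have hμm : (m : ℝ) ≤ μ := by exact_mod_cast (by omega : m ≤ μ)
  have hLn : (0 : ℝ) ≤ (L : ℝ) * Fintype.card V := by positivity
  have hL0 : (0 : ℝ) < (L : ℝ) := by exact_mod_cast hL1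
  have hn0 : (0 : ℝ) ≤ (Fintype.card V : ℝ) := by positivity
  have hbig : (L : ℝ) * (Fintype.card V + 1) < μ * (θ - Fintype.card V / 2 - 1) :=
    lt_of_lt_of_le hm (mul_le_mul_of_nonneg_right hμm hε.le)
  have hbig' : (L : ℝ) * Fintype.card V + L < μ * (θ - Fintype.card V / 2 - 1) := by linarith
  have hn2 : 2 ≤ Fintype.card V := by
    by_contra hlt
    have h1 : Fintype.card V = 1 := by
      obtain ⟨k, hk⟩ := hV
      omega
    obtain ⟨u, hu⟩ := Fintype.card_eq_one_iff.1 h1
    have h2 : dg x u = 0 := by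
      unfold dg
      refine Finset.sum_eq_zero fun v _ => ?_
      rw [hu v]
      exact hx.diag u
    have h3 := hdx u
    rw [h2] at h3
    have h4 : 0 < θ * μ := mul_pos (by linarith) hμR
    push_cast at h3
    linarith
  obtain ⟨x', hx', hle, hd, hs⟩ := complete_odd hV hx hok
  have hy := isW_ext hx' hd
  have hdg := dg_ext hs
  have hnb : ∀ u, (Fintype.card V : ℝ) / 2 + 1 < nb (heavy x L) u := by
    intro u
    refine heavy_deg hx hμ0 hxμ (hdx u) ?_
    have : (θ - ((Fintype.card V : ℝ) / 2 + 1)) * μ = μ * (θ - Fintype.card V / 2 - 1) := by ring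
    rw [this]
    linarith
  have h3 : 3 ≤ (univ.filter (fun v => (L : ℤ) ≤ r - dg x' v)).card := by
    refine three_heavy hn2 hle hdx hd hs hr ?_
    have : (2 * θ - Fintype.card V) * μ = 2 * (μ * (θ - Fintype.card V / 2 - 1)) + 2 * μ := by ring
    rw [this]
    linarith
  have hcut : ∀ U : Finset (Option V), none ∉ U → 2 ≤ U.card → U.card + 2 ≤ Fintype.card V →
      r + L ≤ cutW (ext x' r) U := by
    intro U hU h2 h2'
    obtain ⟨A, hA, hAc⟩ := cut_ext hd U hU
    have h1 : cutW x A ≤ cutW x' A := by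
      unfold cutW
      exact Finset.sum_le_sum fun u _ => Finset.sum_le_sum fun v _ => hle u v
    have h4 := cut_large hx hxμ hθ hdx (A := A) (by omega) (by omega)
    have h5 : (r : ℝ) ≤ μ * Fintype.card V := by exact_mod_cast hr
    have h6 : ((r + L : ℤ) : ℝ) ≤ (cutW (ext x' r) U : ℝ) := by
      have h7 : (cutW x A : ℝ) ≤ (cutW (ext x' r) U : ℝ) := by exact_mod_cast h1.trans hAc
      push_cast
      linarith
    exact_mod_cast h6
  refine out_of_dec_ext (y := ext x' r) (fun u v => hle u v) hdg (hdecomp (ext x' r) r hy hdg ?_ ?_)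
  · intro U _ h3U h3U'
    rw [Fintype.card_option] at h3U'
    by_cases hU : none ∈ U
    · rw [← cutW_compl hy U]
      have hc : ∀ i : DecidableEq (Option V), (@compl (Finset (Option V))
          (@BooleanAlgebra.toCompl (Finset (Option V)) (@Finset.booleanAlgebra (Option V) _ i)) U).card =
          Fintype.card V + 1 - U.card := by
        intro i
        rw [Finset.card_compl, Fintype.card_option]
      refine hcut _ (by simpa using hU) ?_ ?_
      · rw [hc]
        omega
      · rw [hc]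
        omega
    · exact hcut U hU (by omega) (by omega)
  · exact closable_ext hx hx' hle hd hnb h3

end Pool.Agent.H44O
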