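import Pool.Agent.Lib.H44O.Defs

/-!
# Chunk H1 (M): the weight of a multigraph

`G.wgt u v := G.mult u v` (as an integer).
* `isW_wgt`: `s(u, v) = s(v, u)`; `G.mult v v = 0` because there are no loops.
* `dg_wgt`: the edges at `u` are partitioned by their other end.
* `inW_wgt`: `∑ u ∈ S, ∑ v ∈ S, mult u v = 2 * inside S`: every edge inside `S` with ends `a ≠ b` is
  counted for `(a, b)` and `(b, a)`. (`Finset.card_eq_sum_ones`, exchange sums: for a fixed edge
  `e` the number of `(u, v) ∈ S × S` with `ends e = s(u, v)` is `2` or `0`.)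
* `wgt_le`: `Finset.le_sup`.
-/

namespace Pool.Agent.H44O

open Finset
open scoped Classical

namespace MGraph

variable {V E : Type*} [Fintype V] [Fintype E] (G : MGraph V E)

/-- The number of edges between two vertices, as an integer. -/
noncomputable def wgt (u v : V) : ℤ := G.mult u v

theorem isW_wgt : IsW G.wgt := by
  refine ⟨fun u v => ?_, fun v => ?_, fun u v => ?_⟩
  · unfold wgt mult
    rw [Sym2.eq_swap]
  · unfold wgt mult
    rw [Nat.cast_eq_zero, Finset.card_eq_zero, Finset.filter_eq_empty_iff]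
    intro e _ he
    apply G.not_loop e
    rw [he]
    exact Sym2.mk_isDiag_iff.2 rfl
  · exact Int.natCast_nonneg _

theorem h1_sum_one (u : V) (p : Sym2 V) :
    ∑ v, (if p = s(u, v) then (1 : ℤ) else 0) = if u ∈ p then 1 else 0 := by
  by_cases hu : u ∈ p
  · obtain ⟨w, rfl⟩ := Sym2.mem_iff_exists.1 hu
    rw [if_pos hu, Finset.sum_eq_single w]
    · simp
    · intro v _ hv
      rw [if_neg]
      intro h
      exact hv (Sym2.congr_right.1 h).symm
    · intro h
      exact absurd (mem_univ w) h
  · rw [if_neg hu]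
    refine Finset.sum_eq_zero fun v _ => ?_
    rw [if_neg]
    rintro rfl
    exact hu (Sym2.mem_mk_left u v)

theorem h1_sum_two (p : Sym2 V) (hp : ¬ p.IsDiag) (S : Finset V) :
    ∑ u ∈ S, ∑ v ∈ S, (if p = s(u, v) then (1 : ℤ) else 0) =
      2 * (if ∀ v ∈ p, v ∈ S then 1 else 0) := by
  induction p using Sym2.inductionOn with
  | hf a b =>
    have hab : a ≠ b := fun h => hp (by rw [h]; exact Sym2.mk_isDiag_iff.2 rfl)
    have h1 : ∀ u v : V, (if s(a, b) = s(u, v) then (1 : ℤ) else 0) =
        (if a = u then 1 else 0) * (if b = v then 1 else 0) +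
          (if b = u then 1 else 0) * (if a = v then 1 else 0) := by
      intro u v
      simp only [Sym2.eq_iff]
      by_cases h1 : a = u
      · subst h1
        by_cases h2 : b = v
        · subst h2
          simp [hab, hab.symm]
        · simp [h2, hab.symm]
      · by_cases h3 : b = u
        · subst h3
          simp [hab]
        · simp [h1, h3]
    simp only [h1]
    simp only [Finset.sum_add_distrib, ← Finset.mul_sum, ← Finset.sum_mul, Finset.sum_ite_eq]
    have h2 : (∀ v ∈ s(a, b), v ∈ S) ↔ a ∈ S ∧ b ∈ S := by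
      constructor
      · intro h
        exact ⟨h a (Sym2.mem_mk_left a b), h b (Sym2.mem_mk_right a b)⟩
      · rintro ⟨ha, hb⟩ v hv
        rcases Sym2.mem_iff.1 hv with h | h
        · rw [h]; exact ha
        · rw [h]; exact hb
    by_cases ha : a ∈ S <;> by_cases hb : b ∈ S
    · rw [if_pos (h2.2 ⟨ha, hb⟩)]; simp [ha, hb]
    · rw [if_neg (fun h => hb (h2.1 h).2)]; simp [hb]
    · rw [if_neg (fun h => ha (h2.1 h).1)]; simp [ha]
    · rw [if_neg (fun h => ha (h2.1 h).1)]; simp [ha]

theorem h1_wgt_eq (u v : V) : G.wgt u v = ∑ e, (if G.ends e = s(u, v) then (1 : ℤ) else 0) := by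
  unfold wgt mult
  rw [Finset.card_filter]
  push_cast
  rfl

theorem dg_wgt (u : V) : dg G.wgt u = G.deg u := by
  unfold dg
  simp only [h1_wgt_eq]
  rw [Finset.sum_comm]
  unfold deg
  rw [Finset.card_filter]
  push_cast
  exact Finset.sum_congr rfl fun e _ => h1_sum_one u (G.ends e)

theorem inW_wgt (S : Finset V) : inW G.wgt S = 2 * G.inside S := by
  unfold inW
  simp only [h1_wgt_eq]
  have h1 : ∀ u ∈ S, ∑ v ∈ S, ∑ e, (if G.ends e = s(u, v) then (1 : ℤ) else 0) =
      ∑ e, ∑ v ∈ S, (if G.ends e = s(u, v) then (1 : ℤ) else 0) := fun u _ => Finset.sum_comm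
  rw [Finset.sum_congr rfl h1, Finset.sum_comm]
  unfold inside
  rw [Finset.card_filter]
  push_cast
  rw [Finset.mul_sum]
  exact Finset.sum_congr rfl fun e _ => h1_sum_two (G.ends e) (G.not_loop e) S

theorem wgt_le (u v : V) : G.wgt u v ≤ G.maxMult := by
  unfold wgt maxMult
  have h := Finset.le_sup (f := fun p : V × V => G.mult p.1 p.2) (mem_univ (u, v))
  exact_mod_cast h

end MGraph

end Pool.Agent.H44O
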