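import Pool.Agent.Lib.H44O.Defs

/-!
# Chunk H2 (M): lower bounds for the number of colours

* `exists_proper`: colour the edges injectively with `card E` colours.
* `deg_le_of_proper`: the edges at `v` have different colours: `c` is injective on them, so
  `G.deg v ≤ k`.
* `inside_le_of_proper`: for a colour `i` the edges inside `S` with colour `i` are pairwise disjoint
  pairs contained in `S`, so there are at most `|S| / 2` of them; summing over the colours,
  `G.inside S ≤ k * (|S| / 2)`. (Counting: the sum over the edges of the class of the number of their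
  ends is twice the number of edges, and every vertex of `S` is an end of at most one of them.)
* `dens_le_of_proper`: `Finset.sup_le`; `⌈inside / (|S| / 2)⌉₊ ≤ k` since `|S| / 2 ≥ 1`
  (`Nat.ceil_le`, `div_le_iff₀`).
* `le_chromaticIndex`: the set of possible `k` is nonempty, so its infimum is one of its elements
  (`Nat.sInf_mem`).
-/

namespace Pool.Agent.H44O

open Finset
open scoped Classical

namespace MGraph

variable {V E : Type*} [Fintype V] [Fintype E] (G : MGraph V E)

theorem exists_proper : ∃ (k : ℕ) (c : E → Fin k), G.Proper c := by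
  refine ⟨Fintype.card E, Fintype.equivFin E, ?_⟩
  intro e f hef _ h
  exact hef ((Fintype.equivFin E).injective h)

theorem deg_le_of_proper {k : ℕ} {c : E → Fin k} (h : G.Proper c) (v : V) : G.deg v ≤ k := by
  unfold deg
  have h1 : (univ.filter (fun e => v ∈ G.ends e)).card ≤ (univ : Finset (Fin k)).card := by
    refine Finset.card_le_card_of_injOn c (fun e _ => mem_univ _) ?_
    intro e he f hf hc
    by_contra hne
    simp only [coe_filter, mem_univ, true_and, Set.mem_setOf_eq] at he hf
    exact h e f hne ⟨v, he, hf⟩ hc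
  simpa using h1

theorem h2_class {k : ℕ} {c : E → Fin k} (h : G.Proper c) (S : Finset V) (i : Fin k) :
    (univ.filter (fun e => (∀ v ∈ G.ends e, v ∈ S) ∧ c e = i)).card ≤ S.card / 2 := by
  rw [Nat.le_div_iff_mul_le (by norm_num)]
  set F := univ.filter (fun e => (∀ v ∈ G.ends e, v ∈ S) ∧ c e = i) with hF
  have h1 : F.card * 2 = ∑ e ∈ F, ((S.filter (fun v => v ∈ G.ends e)).card) := by
    rw [Finset.sum_congr rfl (g := fun _ => 2), Finset.sum_const, smul_eq_mul]
    intro e he
    rw [hF, mem_filter] at he
    obtain ⟨_, he, _⟩ := he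
    have hd := G.not_loop e
    generalize G.ends e = p at he hd
    induction p using Sym2.inductionOn with
    | hf a b =>
      have hab : a ≠ b := fun h => hd (by rw [h]; exact Sym2.mk_isDiag_iff.2 rfl)
      have h2 : S.filter (fun v => v ∈ s(a, b)) = {a, b} := by
        ext v
        simp only [mem_filter, Sym2.mem_iff, mem_insert, mem_singleton]
        constructor
        · exact fun h => h.2
        · intro hv
          refine ⟨he v (Sym2.mem_iff.2 hv), hv⟩
      rw [h2, Finset.card_pair hab]
  rw [h1]
  have h3 : ∑ e ∈ F, ((S.filter (fun v => v ∈ G.ends e)).card) =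
      ∑ v ∈ S, ((F.filter (fun e => v ∈ G.ends e)).card) := by
    simp only [Finset.card_filter]
    exact Finset.sum_comm
  rw [h3]
  calc ∑ v ∈ S, ((F.filter (fun e => v ∈ G.ends e)).card) ≤ ∑ v ∈ S, 1 := by
        refine Finset.sum_le_sum fun v _ => ?_
        rw [Finset.card_le_one]
        intro e he f hf
        rw [mem_filter, hF, mem_filter] at he hf
        by_contra hne
        exact h e f hne ⟨v, he.2, hf.2⟩ (he.1.2.2.trans hf.1.2.2.symm)
    _ = S.card := by simp

theorem inside_le_of_proper {k : ℕ} {c : E → Fin k} (h : G.Proper c) (S : Finset V) :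
    G.inside S ≤ k * (S.card / 2) := by
  unfold inside
  have h1 : (univ.filter (fun e => ∀ v ∈ G.ends e, v ∈ S)).card =
      ∑ i : Fin k, (univ.filter (fun e => (∀ v ∈ G.ends e, v ∈ S) ∧ c e = i)).card := by
    rw [Finset.card_eq_sum_card_fiberwise (f := c) (t := univ) (fun e _ => mem_univ _)]
    refine Finset.sum_congr rfl fun i _ => ?_
    rw [Finset.filter_filter]
  rw [h1]
  calc ∑ i : Fin k, (univ.filter (fun e => (∀ v ∈ G.ends e, v ∈ S) ∧ c e = i)).card
      ≤ ∑ i : Fin k, S.card / 2 := Finset.sum_le_sum fun i _ => h2_class G h S i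
    _ = k * (S.card / 2) := by simp

theorem dens_le_of_proper {k : ℕ} {c : E → Fin k} (h : G.Proper c) : G.dens ≤ k := by
  unfold dens
  refine Finset.sup_le fun S hS => ?_
  rw [mem_filter] at hS
  have h2 : 0 < S.card / 2 := Nat.div_pos hS.2 (by norm_num)
  refine Nat.ceil_le.2 ?_
  rw [div_le_iff₀ (by exact_mod_cast h2)]
  exact_mod_cast G.inside_le_of_proper h S

theorem le_chromaticIndex : max G.maxDeg G.dens ≤ G.chromaticIndex := by
  unfold chromaticIndex
  obtain ⟨c, hc⟩ := Nat.sInf_mem (s := {k : ℕ | ∃ c : E → Fin k, G.Proper c}) G.exists_proper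
  refine max_le ?_ (G.dens_le_of_proper hc)
  unfold maxDeg
  exact Finset.sup_le fun v _ => G.deg_le_of_proper hc v

end MGraph

end Pool.Agent.H44O
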