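import Pool.Agent.Lib.H44O.F6
import Pool.Agent.Lib.H44O.H1

/-!
# Chunk H3 (M/L): from `r` matchings to a proper colouring with `r` colours

Let `a` be given by `Cov G.wgt r`. Colours: `I = Σ τ, Fin (a τ)`, `card I = ∑ τ, a τ = r`
(`Fintype.card_sigma`). For a pair `p : Sym2 V` let `I p` be the set of the `(τ, i)` with
`p = s(u, τ u)` for some `u` with `τ u ≠ u`. For `u ≠ v`, the number of elements of `I s(u, v)` is
`∑ τ, a τ * chi τ u v` (as `τ` is an involution whenever `a τ ≠ 0`, `s(u, v) = s(w, τ w)` for some `w`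
iff `τ u = v`), which is at least `G.mult u v`. So for each pair `p` which is not a loop there is an
injection from the edges with ends `p` to `I p` (`Finset.exists_injOn_of_card_le` or
`Finset.card_le_card` style: choose an embedding of the subtypes). Let `c e` be the image of `e` under
the injection for `p = G.ends e`.
Proper: let `e ≠ f` share the end `v`, and suppose `c e = c f = (τ, i)`. Then `G.ends e = s(v, τ v)` and
`G.ends f = s(v, τ v)` (from `s(w, τ w)` containing `v` and `τ` an involution), so the ends are the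
same pair and the injection gives `c e ≠ c f`: contradiction.
Finally transport the colours along `I ≃ Fin r.toNat`.
-/

namespace Pool.Agent.H44O

open Finset
open scoped Classical

namespace MGraph

variable {V E : Type*} [Fintype V] [Fintype E] (G : MGraph V E)

theorem chromaticIndex_le_of_cov {r : ℕ} (h : Cov G.wgt r) : G.chromaticIndex ≤ r := by
  obtain ⟨a, hsum, hinv, hcov⟩ := h
  have hsum' : ∑ τ, a τ = r := by exact_mod_cast hsum
  have hcard : Fintype.card (Σ τ : Equiv.Perm V, Fin (a τ)) = Fintype.card (Fin r) := by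
    rw [Fintype.card_sigma, Fintype.card_fin]
    rw [← hsum']
    exact Finset.sum_congr rfl fun τ _ => Fintype.card_fin _
  have heq := Fintype.equivOfCardEq hcard
  -- an involution
  have hI : ∀ (i : Σ τ : Equiv.Perm V, Fin (a τ)) (v : V), i.1 (i.1 v) = v := by
    intro i v
    refine hinv i.1 ?_ v
    intro h0
    have := i.2.isLt
    omega
  have hIp : ∀ (i : Σ τ : Equiv.Perm V, Fin (a τ)) (u v w : V), s(w, i.1 w) = s(u, v) → i.1 u = v := by
    intro i u v w hw
    rw [Sym2.eq_iff] at hw
    rcases hw with ⟨h1, h2⟩ | ⟨h1, h2⟩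
    · rw [← h1]; exact h2
    · rw [← h1, ← h2]
      exact hI i w
  have hf : ∀ p : Sym2 V, ¬ p.IsDiag → Nonempty ({e : E // G.ends e = p} ↪
      {i : (Σ τ : Equiv.Perm V, Fin (a τ)) // ∃ u, s(u, i.1 u) = p}) := by
    intro p
    induction p using Sym2.inductionOn with
    | hf u v =>
      intro hp
      have huv : u ≠ v := fun h => hp (by rw [h]; exact Sym2.mk_isDiag_iff.2 rfl)
      apply Function.Embedding.nonempty_of_card_le
      have h1 : Fintype.card {e : E // G.ends e = s(u, v)} = G.mult u v := by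
        rw [Fintype.card_subtype]
        rfl
      have h2 : (Fintype.card {i : (Σ τ : Equiv.Perm V, Fin (a τ)) // ∃ w, s(w, i.1 w) = s(u, v)} : ℤ) =
          ∑ τ, (a τ : ℤ) * chi τ u v := by
        rw [Fintype.card_subtype]
        have h3 : (univ.filter (fun i : (Σ τ : Equiv.Perm V, Fin (a τ)) => ∃ w, s(w, i.1 w) = s(u, v))) =
            univ.filter (fun i : (Σ τ : Equiv.Perm V, Fin (a τ)) => i.1 u = v) := by
          ext i
          simp only [mem_filter, mem_univ, true_and]
          constructor
          · rintro ⟨w, hw⟩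
            exact hIp i u v w hw
          · intro hw
            exact ⟨u, by rw [hw]⟩
        rw [h3, card_filter]
        push_cast
        rw [Fintype.sum_sigma]
        refine Finset.sum_congr rfl fun τ _ => ?_
        unfold chi
        by_cases ht : τ u = v
        · simp [ht, huv]
        · simp [ht]
      have h4 := hcov u v huv
      rw [← h2] at h4
      rw [h1]
      have h5 : (G.mult u v : ℤ) ≤ (Fintype.card {i : (Σ τ : Equiv.Perm V, Fin (a τ)) // ∃ w, s(w, i.1 w) = s(u, v)} : ℤ) := h4
      exact_mod_cast h5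
  let f := fun (p : Sym2 V) (hp : ¬ p.IsDiag) => (hf p hp).some
  have key : ∀ (p q : Sym2 V) (hp : ¬ p.IsDiag) (hq : ¬ q.IsDiag) (e : {e : E // G.ends e = p})
      (e' : {e : E // G.ends e = q}), p = q → (f p hp e).1 = (f q hq e').1 → e.1 = e'.1 := by
    intro p q hp hq e e' hpq he
    subst hpq
    have h1 : f p hp e = f p hp e' := Subtype.ext he
    rw [(f p hp).injective h1]
  refine Nat.sInf_le ⟨fun e => heq (f (G.ends e) (G.not_loop e) ⟨e, rfl⟩).1, ?_⟩
  rintro e e' hne ⟨v, hv, hv'⟩ hc
  have hc' := heq.injective hc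
  apply hne
  refine key (G.ends e) (G.ends e') (G.not_loop e) (G.not_loop e') ⟨e, rfl⟩ ⟨e', rfl⟩ ?_ hc'
  have hends : ∀ (e : E) (i : (Σ τ : Equiv.Perm V, Fin (a τ))), (∃ u, s(u, i.1 u) = G.ends e) → v ∈ G.ends e →
      G.ends e = s(v, i.1 v) := by
    rintro e i ⟨u, hu⟩ hv
    rw [← hu, Sym2.mem_iff] at hv
    rcases hv with h1 | h1
    · rw [← hu, h1]
    · rw [← hu, h1, hI, Sym2.eq_swap]
  rw [hends e _ (f (G.ends e) (G.not_loop e) ⟨e, rfl⟩).2 hv, hends e' _ (f (G.ends e') (G.not_loop e') ⟨e', rfl⟩).2 hv', hc']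

end MGraph

end Pool.Agent.H44O
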