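import Pool.Agent.Lib.H44O.H1
import Pool.Agent.Lib.H44O.G1

/-!
# Chunk H4 (S/M): the inequalities of Edmonds for `r = max Δ w`

* `ok_max`: degrees: `Finset.le_sup`. For an odd set `U`: if `|U| = 1` then `inW = 2 * inside U = 0`
  (`inW_singleton`) and the right side is `0`. If `|U| ≥ 3`: `⌈inside U / (|U| / 2)⌉₊ ≤ dens ≤ r`,
  so `inside U ≤ r * (|U| / 2)` and `2 * (|U| / 2) = |U| - 1` for odd `|U|`; multiply by two.
* `max_le`: `maxDeg ≤ μ n`: `deg u = ∑ v, mult u v ≤ n μ`. `dens ≤ μ n`: for `|S| ≥ 2`,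
  `2 inside S = inW ≤ μ |S| (|S| - 1)` (`inW_le`) and `2 (|S| / 2) ≥ |S| - 1`, so
  `inside S ≤ μ |S| (|S| / 2) ≤ (μ n) (|S| / 2)`, and the ceiling of the quotient is at most `μ n`.
-/

namespace Pool.Agent.H44O

open Finset
open scoped Classical

namespace MGraph

variable {V E : Type*} [Fintype V] [Fintype E] (G : MGraph V E)

theorem ok_max : Ok G.wgt (max G.maxDeg G.dens : ℕ) := by
  refine ⟨fun u => ?_, fun U hU => ?_⟩
  · rw [G.dg_wgt]
    have h1 : G.deg u ≤ G.maxDeg := le_sup (f := G.deg) (mem_univ u)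
    exact_mod_cast h1.trans (le_max_left _ _)
  · by_cases h1 : U.card = 1
    · obtain ⟨a, ha⟩ := card_eq_one.1 h1
      rw [ha, inW_singleton G.isW_wgt, card_singleton]
      simp
    · have h3 : 3 ≤ U.card := by
        rw [Nat.odd_iff] at hU
        omega
      have hk : 0 < U.card / 2 := by omega
      have hkU : 2 * (U.card / 2) + 1 = U.card := by
        rw [Nat.odd_iff] at hU
        omega
      have h4 : ⌈(G.inside U : ℚ) / ((U.card / 2 : ℕ) : ℚ)⌉₊ ≤ G.dens :=
        le_sup (f := fun S : Finset V => ⌈(G.inside S : ℚ) / ((S.card / 2 : ℕ) : ℚ)⌉₊)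
          (mem_filter.2 ⟨mem_univ U, by omega⟩)
      have h5 := h4.trans (le_max_right G.maxDeg G.dens)
      rw [Nat.ceil_le, div_le_iff₀ (by exact_mod_cast hk)] at h5
      have h6 : G.inside U ≤ max G.maxDeg G.dens * (U.card / 2) := by exact_mod_cast h5
      rw [G.inW_wgt]
      have h7 : ((U.card : ℕ) : ℤ) - 1 = 2 * ((U.card / 2 : ℕ) : ℤ) := by
        have : ((2 * (U.card / 2) + 1 : ℕ) : ℤ) = (U.card : ℤ) := by rw [hkU]
        push_cast at this ⊢
        linarith
      rw [h7]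
      have h8 : (G.inside U : ℤ) ≤ ((max G.maxDeg G.dens : ℕ) : ℤ) * ((U.card / 2 : ℕ) : ℤ) := by
        exact_mod_cast h6
      linarith

theorem max_le : max G.maxDeg G.dens ≤ G.maxMult * Fintype.card V := by
  refine _root_.max_le ?_ ?_
  · refine Finset.sup_le fun u _ => ?_
    have h1 := G.dg_wgt u
    have h2 : dg G.wgt u ≤ ∑ _v : V, (G.maxMult : ℤ) := by
      unfold dg
      exact sum_le_sum fun v _ => G.wgt_le u v
    rw [h1, sum_const, card_univ, nsmul_eq_mul] at h2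
    have h3 : G.deg u ≤ Fintype.card V * G.maxMult := by exact_mod_cast h2
    rw [mul_comm]
    exact h3
  · refine Finset.sup_le fun S hS => ?_
    have hS2 : 2 ≤ S.card := (mem_filter.1 hS).2
    have hk : 0 < S.card / 2 := by omega
    have hSn : S.card ≤ Fintype.card V := card_le_univ S
    rw [Nat.ceil_le, div_le_iff₀ (by exact_mod_cast hk)]
    have h1 := inW_le G.isW_wgt G.wgt_le S
    rw [G.inW_wgt] at h1
    have h2 : (S.card : ℤ) - 1 ≤ 2 * ((S.card / 2 : ℕ) : ℤ) := by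
      have : S.card ≤ 2 * (S.card / 2) + 1 := by omega
      have h3 : (S.card : ℤ) ≤ ((2 * (S.card / 2) + 1 : ℕ) : ℤ) := by exact_mod_cast this
      push_cast at h3 ⊢
      linarith
    have hm0 : (0 : ℤ) ≤ G.maxMult := Nat.cast_nonneg _
    have hs0 : (0 : ℤ) ≤ S.card := Nat.cast_nonneg _
    have hk0 : (0 : ℤ) ≤ ((S.card / 2 : ℕ) : ℤ) := Nat.cast_nonneg _
    have h3 : (S.card : ℤ) * ((S.card : ℤ) - 1) ≤ Fintype.card V * (2 * ((S.card / 2 : ℕ) : ℤ)) := by
      have h4 : (S.card : ℤ) ≤ Fintype.card V := by exact_mod_cast hSn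
      calc (S.card : ℤ) * ((S.card : ℤ) - 1) ≤ S.card * (2 * ((S.card / 2 : ℕ) : ℤ)) :=
            mul_le_mul_of_nonneg_left h2 hs0
        _ ≤ Fintype.card V * (2 * ((S.card / 2 : ℕ) : ℤ)) :=
            mul_le_mul_of_nonneg_right h4 (by linarith)
    have h4 : (G.maxMult : ℤ) * (S.card * ((S.card : ℤ) - 1)) ≤
        G.maxMult * (Fintype.card V * (2 * ((S.card / 2 : ℕ) : ℤ))) :=
      mul_le_mul_of_nonneg_left h3 hm0
    have h5 : (G.inside S : ℤ) ≤ ((G.maxMult * Fintype.card V * (S.card / 2) : ℕ) : ℤ) := by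
      push_cast
      push_cast at h1 h4
      nlinarith
    have h6 : G.inside S ≤ G.maxMult * Fintype.card V * (S.card / 2) := by exact_mod_cast h5
    exact_mod_cast h6

end MGraph

end Pool.Agent.H44O
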