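import Pool.Agent.Lib.H44O.Defs
import Pool.Agent.Lib.H44O.F6

/-!
# Chunk H5 (S): renaming the vertices

Let `f : V ≃ W` and `x` a weight on `W`; the weight `fun u v => x (f u) (f v)` on `V`.
* `cov_comap`: `Cov` goes both ways; here from `W` to `V`: `a' τ := a (f.permCongr τ)`
  (`(f.symm.trans τ).trans f`), use `Equiv.sum_comp` with `f.permCongr`.
* `isW_comap`, `dg_comap` (`Equiv.sum_comp`), `ok_comap` (map the sets by `f`).
The three last statements are used to pass from `V` to `W = Fin n`: `x` on `V`, and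
`x' i j = x (f.symm i) (f.symm j)`.
-/

namespace Pool.Agent.H44O

open Finset
open scoped Classical

variable {V W : Type*} [Fintype V] [Fintype W]

theorem isW_comap (f : V ≃ W) {x : W → W → ℤ} (hx : IsW x) : IsW (fun u v => x (f u) (f v)) :=
  ⟨fun _ _ => hx.symm _ _, fun _ => hx.diag _, fun _ _ => hx.nonneg _ _⟩

theorem dg_comap (f : V ≃ W) (x : W → W → ℤ) (u : V) :
    dg (fun u v => x (f u) (f v)) u = dg x (f u) := by
  unfold dg
  exact Equiv.sum_comp f (fun v => x (f u) v)

theorem ok_comap (f : V ≃ W) {x : W → W → ℤ} {r : ℤ} (h : Ok x r) :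
    Ok (fun u v => x (f u) (f v)) r := by
  refine ⟨fun u => ?_, fun U hU => ?_⟩
  · rw [dg_comap]
    exact h.1 _
  · have h1 := h.2 (U.map f.toEmbedding) (by rwa [card_map])
    rw [card_map] at h1
    refine le_trans (le_of_eq ?_) h1
    unfold inW
    rw [sum_map]
    refine sum_congr rfl fun u _ => ?_
    rw [sum_map]
    rfl

theorem cov_comap (f : V ≃ W) {x : W → W → ℤ} {r : ℤ} (h : Cov x r) :
    Cov (fun u v => x (f u) (f v)) r := by
  obtain ⟨a, h1, h2, h3⟩ := h
  refine ⟨fun τ => a (f.permCongr τ), ?_, ?_, ?_⟩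
  · rw [← h1]
    congr 1
    exact Equiv.sum_comp f.permCongr a
  · intro τ hτ v
    have h4 := h2 _ hτ (f v)
    simp only [Equiv.permCongr_apply, Equiv.symm_apply_apply] at h4
    exact f.injective h4
  · intro u v huv
    refine le_trans (h3 (f u) (f v) (fun h => huv (f.injective h))) (le_of_eq ?_)
    rw [← Equiv.sum_comp f.permCongr (fun σ => (a σ : ℤ) * chi σ (f u) (f v))]
    refine sum_congr rfl fun τ _ => ?_
    congr 1
    unfold chi
    simp only [Equiv.permCongr_apply, Equiv.symm_apply_apply, EmbeddingLike.apply_eq_iff_eq,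
      ne_eq]

end Pool.Agent.H44O
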