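import Pool.Agent.Lib.H44O.G3
import Pool.Agent.Lib.H44O.G5
import Pool.Agent.Lib.H44O.H2
import Pool.Agent.Lib.H44O.H3
import Pool.Agent.Lib.H44O.H4
import Pool.Agent.Lib.H44O.H5

/-!
# Chunk H6 (S/M): the first main theorem

`n` even, `n ≥ 1` or `n` odd: take `μ0` from `min_degree_even` / `min_degree_odd` for `Fin n` (for `n = 0`:
`μ0 = 1`; with no vertices there are no edges and `maxMult = 0`, so the hypothesis fails). Let `f : V ≃
Fin n` (`Fintype.equivFinOfCardEq`), `x i j = G.wgt (f.symm i) (f.symm j)`. Hypotheses for `x` by `H5`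
(`f.symm`), `H1`, `H4`; get `Cov x r`, `r = max Δ w`, then `Cov G.wgt r` by `cov_comap f`
(`f.symm (f u) = u`), then `chromaticIndex ≤ r` (`H3`); the other inequality is
`le_chromaticIndex`.
-/

namespace Pool.Agent.H44O

open Finset
open scoped Classical

theorem h6_key (n : ℕ) (θ : ℝ) (hθ : (n : ℝ) / 2 + 1 < θ) :
    ∃ μ0 : ℕ, 0 < n → ∀ (x : Fin n → Fin n → ℤ) (μ : ℕ) (r : ℤ), μ0 ≤ μ → IsW x →
      (∀ u v, x u v ≤ μ) → (∀ u, θ * μ ≤ dg x u) → Ok x r → r ≤ μ * n → Cov x r := by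
  rcases Nat.eq_zero_or_pos n with h0 | hpos
  · exact ⟨0, fun h => by omega⟩
  · haveI : Nonempty (Fin n) := ⟨⟨0, hpos⟩⟩
    have hc : Fintype.card (Fin n) = n := Fintype.card_fin n
    rcases Nat.even_or_odd n with he | ho
    · obtain ⟨m, hm⟩ := min_degree_even (V := Fin n) (by rw [hc]; exact he) (θ := θ)
        (by rw [hc]; exact hθ)
      exact ⟨m, fun _ x μ r h1 h2 h3 h4 h5 h6 =>
        hm x μ r h1 h2 h3 h4 h5 (by rw [hc]; exact h6)⟩
    · obtain ⟨m, hm⟩ := min_degree_odd (V := Fin n) (by rw [hc]; exact ho) (θ := θ)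
        (by rw [hc]; exact hθ)
      exact ⟨m, fun _ x μ r h1 h2 h3 h4 h5 h6 =>
        hm x μ r h1 h2 h3 h4 h5 (by rw [hc]; exact h6)⟩

theorem min_degree (n : ℕ) (θ : ℝ) (hθ : (n : ℝ) / 2 + 1 < θ) :
    ∃ μ0 : ℕ, ∀ (V E : Type) [Fintype V] [Fintype E] (G : MGraph V E), Fintype.card V = n →
      μ0 ≤ G.maxMult → (∀ v, θ * G.maxMult ≤ G.deg v) →
      G.chromaticIndex = max G.maxDeg G.dens := by
  obtain ⟨m, hm⟩ := h6_key n θ hθ
  refine ⟨m + 1, fun V E _ _ G hn hμ hdeg => ?_⟩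
  have hpos : 0 < n := by
    rcases Nat.eq_zero_or_pos n with h0 | hpos
    · exfalso
      rw [h0] at hn
      haveI := Fintype.card_eq_zero_iff.1 hn
      unfold MGraph.maxMult at hμ
      simp at hμ
    · exact hpos
  refine le_antisymm ?_ G.le_chromaticIndex
  let f : V ≃ Fin n := Fintype.equivFinOfCardEq hn
  have hx : Cov (fun i j => G.wgt (f.symm i) (f.symm j)) (max G.maxDeg G.dens : ℕ) := by
    refine hm hpos _ G.maxMult _ (by omega) (isW_comap f.symm G.isW_wgt)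
      (fun u v => G.wgt_le _ _) ?_ (ok_comap f.symm G.ok_max) ?_
    · intro u
      rw [dg_comap, G.dg_wgt]
      have := hdeg (f.symm u)
      push_cast
      exact this
    · have := G.max_le
      rw [hn] at this
      exact_mod_cast this
  have h2 := cov_comap f hx
  simp only [Equiv.symm_apply_apply] at h2
  exact G.chromaticIndex_le_of_cov h2

end Pool.Agent.H44O
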