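import Pool.Agent.Lib.H44O.E4
import Pool.Agent.Lib.H44O.G1
import Pool.Agent.Lib.H44O.G2

/-!
# Chunk R1 (M): regular weights of even order, degree more than half of the maximum

`n = card V`, `L` from `decomposition`; `μ0 ≥ 1` with `L < 2 (θ - n/2) μ0` and
`L n < (θ - n/2) μ0`.
* cuts: `U` odd, `3 ≤ |U| ≤ n - 3`; we may assume `2 |U| ≤ n` (otherwise `Uᶜ`, `cutW_compl`; `|Uᶜ|` is
  odd too). With `j = |U|`: `cutW x U = r j - inW x U ≥ r j - μ j (j - 1)` (`sum_dg`, `inW_le`), so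
  `cutW x U - r ≥ (j - 1) (r - μ j) ≥ 2 (θ - n/2) μ ≥ L` since `r ≥ θ μ` and `j ≤ n/2`.
* closable: `closable_of`, `heavy_deg` with `c = n/2` and `nb_mono`: `nb > n/2`, and `n` is even, so
  `nb ≥ n/2 + 1` and the sum of two of them is at least `n + 2`.
-/

namespace Pool.Agent.H44O

open Finset
open scoped Classical

variable {V : Type*} [Fintype V]

theorem regular_even (hV : Even (Fintype.card V)) {θ : ℝ} (hθ : (Fintype.card V : ℝ) / 2 < θ) :
    ∃ μ0 : ℕ, ∀ (x : V → V → ℤ) (μ : ℕ) (r : ℤ), μ0 ≤ μ → IsW x → (∀ u v, x u v ≤ μ) →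
      (∀ u, dg x u = r) → θ * μ ≤ r → Dec x := by
  obtain ⟨L, hL1, hdecomp⟩ := decomposition hV
  have hε : 0 < θ - (Fintype.card V : ℝ) / 2 := by linarith
  obtain ⟨m, hm⟩ := exists_nat_gt (((L : ℝ) * (Fintype.card V + 1)) / (θ - (Fintype.card V : ℝ) / 2))
  rw [div_lt_iff₀ hε] at hm
  refine ⟨m + 1, fun x μ r hμ hx hxμ hd hθr => ?_⟩
  have hμ0 : 0 < μ := by omega
  have hμm : (m : ℝ) ≤ μ := by exact_mod_cast (by omega : m ≤ μ)
  have hLn : (0 : ℝ) ≤ (L : ℝ) * Fintype.card V := by positivity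
  have hL0 : (0 : ℝ) < (L : ℝ) := by exact_mod_cast hL1
  have hbig : (L : ℝ) * (Fintype.card V + 1) < μ * (θ - (Fintype.card V : ℝ) / 2) :=
    lt_of_lt_of_le hm (mul_le_mul_of_nonneg_right hμm hε.le)
  have hbig' : (L : ℝ) * Fintype.card V + L < μ * (θ - (Fintype.card V : ℝ) / 2) := by linarith
  have hcut : ∀ W : Finset V, 2 ≤ W.card → 2 * W.card ≤ Fintype.card V → r + L ≤ cutW x W := by
    intro W h2 hn
    have h3 := sum_dg x W
    rw [Finset.sum_congr rfl fun u _ => hd u, Finset.sum_const, nsmul_eq_mul] at h3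
    have h4 := inW_le hx hxμ W
    have hj2 : (2 : ℝ) ≤ W.card := by exact_mod_cast h2
    have hjn : 2 * (W.card : ℝ) ≤ Fintype.card V := by exact_mod_cast hn
    have h5 : ((W.card : ℝ) * r) = (inW x W : ℝ) + (cutW x W : ℝ) := by exact_mod_cast h3
    have h6 : (inW x W : ℝ) ≤ μ * (W.card * ((W.card : ℝ) - 1)) := by exact_mod_cast h4
    have hμR : (0 : ℝ) ≤ μ := by positivity
    have h7 : (L : ℝ) ≤ (r : ℝ) - μ * W.card := by
      have : (μ : ℝ) * W.card ≤ μ * ((Fintype.card V : ℝ) / 2) :=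
        mul_le_mul_of_nonneg_left (by linarith) hμR
      have h8 : (μ : ℝ) * (θ - (Fintype.card V : ℝ) / 2) = θ * μ - μ * ((Fintype.card V : ℝ) / 2) := by
        ring
      linarith
    have h9 : (L : ℝ) ≤ ((W.card : ℝ) - 1) * ((r : ℝ) - μ * W.card) := by
      have h10 : (1 : ℝ) * ((r : ℝ) - μ * W.card) ≤ ((W.card : ℝ) - 1) * ((r : ℝ) - μ * W.card) :=
        mul_le_mul_of_nonneg_right (by linarith) (by linarith)
      linarith
    have h11 : ((r + L : ℤ) : ℝ) ≤ (cutW x W : ℝ) := by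
      push_cast
      have h12 : ((W.card : ℝ) - 1) * ((r : ℝ) - μ * W.card) =
          (W.card : ℝ) * r - μ * (W.card * ((W.card : ℝ) - 1)) - r := by ring
      linarith
    exact_mod_cast h11
  have hnb : ∀ u, (Fintype.card V : ℝ) / 2 < nb (heavy x L) u := by
    intro u
    refine heavy_deg hx hμ0 hxμ (θ := θ) ?_ ?_
    · rw [hd u]
      exact hθr
    · have : (θ - ((Fintype.card V : ℝ) / 2)) * μ = μ * (θ - (Fintype.card V : ℝ) / 2) := by ring
      rw [this]
      linarith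
  refine hdecomp x r hx hd ?_ ?_
  · intro U _ h3 h3'
    by_cases h : 2 * U.card ≤ Fintype.card V
    · exact hcut U (by omega) h
    · have h4 := Finset.card_compl U
      have h5 : U.card ≤ Fintype.card V := Finset.card_le_univ U
      rw [← cutW_compl hx U]
      exact hcut Uᶜ (by omega) (by omega)
  · refine closable_of _ fun H' hle hne => ?_
    have hex : ∃ a b, a ≠ b ∧ ¬ H'.Adj a b := by
      by_contra hno
      push Not at hno
      apply hne
      ext a b
      rw [SimpleGraph.top_adj]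
      exact ⟨fun h => h.ne, fun h => hno a b h⟩
    obtain ⟨a, b, hab, hna⟩ := hex
    refine ⟨a, b, hab, hna, ?_⟩
    have ha := (hnb a).trans_le (Nat.cast_le.2 (nb_mono hle a))
    have hb := (hnb b).trans_le (Nat.cast_le.2 (nb_mono hle b))
    have h6 : (Fintype.card V : ℝ) < ((nb H' a + nb H' b : ℕ) : ℝ) := by
      push_cast
      linarith
    have h7 : Fintype.card V < nb H' a + nb H' b := by exact_mod_cast h6
    omega

end Pool.Agent.H44O
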