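import Pool.Agent.Lib.H44O.G1

/-!
# Chunk R2 (M): regular weights of odd order satisfy the inequalities of Edmonds

`n = card V` odd. `r` with `n D ≤ (n - 1) r` and `D ≤ r`. Let `U` be odd, `j = |U|`.
* `j = n`: `inW x univ = ∑ dg = n D ≤ r (n - 1)` (`sum_dg`; the cut of `univ` is `0`).
* `j = 1`: `inW_singleton`.
* `3 ≤ j ≤ n - 2`: let `m = min j (n - j) ≥ 2` and `B = U` or `Uᶜ` of size `m`, `2 m ≤ n`.
  `cutW x U = cutW x B = D m - inW x B ≥ D m - μ m (m - 1)` (`inW_le`), so
  `cutW x U - D ≥ (m - 1) (D - μ m) ≥ 0`, because `2 D ≥ n μ ≥ 2 m μ`.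
  Hence `inW x U = D j - cutW x U ≤ D (j - 1) ≤ r (j - 1)`.
-/

namespace Pool.Agent.H44O

open Finset
open scoped Classical

variable {V : Type*} [Fintype V]

theorem ok_regular (hV : Odd (Fintype.card V)) {x : V → V → ℤ} (hx : IsW x) {μ : ℕ}
    (hμ : ∀ u v, x u v ≤ μ) {D r : ℤ} (hD : ∀ u, dg x u = D)
    (h2 : (Fintype.card V : ℤ) * μ ≤ 2 * D) (hDr : D ≤ r)
    (hr : (Fintype.card V : ℤ) * D ≤ ((Fintype.card V : ℤ) - 1) * r) : Ok x r := by
  have hcut : ∀ U : Finset V, D * U.card = inW x U + cutW x U := by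
    intro U
    rw [← sum_dg, sum_congr rfl fun u _ => hD u, sum_const, nsmul_eq_mul, mul_comm]
  refine ⟨fun u => (hD u).le.trans hDr, ?_⟩
  intro U hU
  have hUle : U.card ≤ Fintype.card V := card_le_univ U
  have h0 := hcut U
  rcases eq_or_ne U.card 1 with h1 | h1
  · obtain ⟨a, ha⟩ := card_eq_one.1 h1
    rw [ha, inW_singleton hx, card_singleton]
    simp
  rcases eq_or_ne U.card (Fintype.card V) with h3 | h3
  · have h4 : U = univ := (card_eq_iff_eq_univ U).1 h3
    have h5 : cutW x U = 0 := by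
      unfold cutW
      rw [h4]
      simp
    rw [h5, add_zero, h3] at h0
    rw [← h0, h3]
    linarith
  have hcD : D ≤ cutW x U := by
    have key : ∀ B : Finset V, 2 ≤ B.card → 2 * B.card ≤ Fintype.card V → D ≤ cutW x B := by
      intro B hB2 hBn
      have e1 := hcut B
      have e2 := inW_le hx hμ B
      have e3 : (2 : ℤ) ≤ B.card := by exact_mod_cast hB2
      have e4 : (2 : ℤ) * B.card ≤ Fintype.card V := by exact_mod_cast hBn
      have e5 : (0 : ℤ) ≤ μ := by positivity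
      have e6 : (μ : ℤ) * B.card ≤ D := by nlinarith
      nlinarith [mul_nonneg (sub_nonneg.2 e6) (show (0 : ℤ) ≤ B.card - 1 by linarith)]
    rw [Nat.odd_iff] at hU hV
    by_cases h5 : 2 * U.card ≤ Fintype.card V
    · exact key U (by omega) h5
    · rw [← cutW_compl hx U]
      have h6 : Uᶜ.card = Fintype.card V - U.card := card_compl U
      exact key Uᶜ (by omega) (by omega)
  have h6 : (1 : ℤ) ≤ U.card := by
    have := hU.pos
    exact_mod_cast this
  nlinarith [mul_nonneg (sub_nonneg.2 hDr) (show (0 : ℤ) ≤ U.card - 1 by linarith)]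

end Pool.Agent.H44O
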