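import Pool.Agent.Lib.H44O.F4
import Pool.Agent.Lib.H44O.F5
import Pool.Agent.Lib.H44O.F6
import Pool.Agent.Lib.H44O.R1
import Pool.Agent.Lib.H44O.R2

/-!
# Chunk R3 (M): regular weights of odd order

`n = card V ≥ 3` odd, `θ > n/2`. Let `θ' := (n + 1)/2 + 1/(4 (n - 1))` and `μ1` from `regular_even` for
`Option V` (`n + 1` vertices) and `θ'`. Take `μ0 ≥ μ1`, `μ0 ≥ 1`, `μ0 ≥ 4 (n - 1) n θ'`.
Let `x` be regular of degree `D ≥ θ μ`. The number `r` satisfies `n D ≤ (n - 1) r ≤ n D + n - 2` (that is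
`r = ⌈n D / (n - 1)⌉`); also `D ≤ r` (as `D ≥ 0`).
`Ok x r` by `ok_regular`; `x'` from `complete_odd`; `y = ext x' r`.
* `∑ u, (dg x' u - D) = n r - r - n D ≤ n - 2` and all terms are nonnegative, so
  `dg x' u - D ≤ n - 2` and `x' u v ≤ x u v + (n - 2) ≤ μ + n` (`dg x' u - dg x u` is the sum of the
  nonnegative `x' u v - x u v`).
* `r - dg x' u ≤ r - D`, and `(n - 1) (r - D) ≤ D + n - 2 ≤ μ (n - 1) + n - 2` (`D ≤ μ (n - 1)`, the
  diagonal is zero), so `r - D ≤ μ + 1 ≤ μ + n`.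
So all entries of `y` are at most `μ + n`, `y` is regular of degree `r`, and
`r ≥ n D / (n - 1) ≥ n² μ / (2 (n - 1)) = ((n + 1)/2 + 1/(2 (n - 1))) μ ≥ θ' (μ + n)`.
`regular_even` gives `Dec y`; `out_of_dec_ext` gives `Cov x r`.
-/

namespace Pool.Agent.H44O

open Finset
open scoped Classical

variable {V : Type*} [Fintype V]

theorem regular_odd (hV : Odd (Fintype.card V)) (h3 : 3 ≤ Fintype.card V) {θ : ℝ}
    (hθ : (Fintype.card V : ℝ) / 2 < θ) :
    ∃ μ0 : ℕ, ∀ (x : V → V → ℤ) (μ : ℕ) (D r : ℤ), μ0 ≤ μ → IsW x → (∀ u v, x u v ≤ μ) →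
      (∀ u, dg x u = D) → θ * μ ≤ D → (Fintype.card V : ℤ) * D ≤ ((Fintype.card V : ℤ) - 1) * r →
      ((Fintype.card V : ℤ) - 1) * r ≤ (Fintype.card V : ℤ) * D + (Fintype.card V : ℤ) - 2 →
      Cov x r := by
  have hVo : Even (Fintype.card (Option V)) := by
    rw [Fintype.card_option]
    exact hV.add_one
  set N : ℝ := (Fintype.card V : ℝ) with hN
  have hN3 : (3 : ℝ) ≤ N := by rw [hN]; exact_mod_cast h3
  have hN1 : 0 < N - 1 := by linarith
  set θ' : ℝ := (N + 1) / 2 + 1 / (4 * (N - 1)) with hθ'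
  have hθ'1 : ((Fintype.card (Option V) : ℕ) : ℝ) / 2 < θ' := by
    rw [Fintype.card_option]
    push_cast
    rw [← hN, hθ']
    have : 0 < 1 / (4 * (N - 1)) := by positivity
    linarith
  have hθ'2 : (N - 1) * θ' = (N ^ 2 - 1) / 2 + 1 / 4 := by
    rw [hθ']
    field_simp
    ring
  obtain ⟨μ1, hμ1⟩ := regular_even hVo hθ'1
  obtain ⟨m, hm⟩ := exists_nat_gt (4 * ((N - 1) * θ') * N)
  refine ⟨max (μ1 + 1) (m + 1), fun x μ D r hμ hx hxμ hD hθD hr1 hr2 => ?_⟩
  have hμa : μ1 + 1 ≤ μ := le_trans (le_max_left _ _) hμ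
  have hμb : m + 1 ≤ μ := le_trans (le_max_right _ _) hμ
  have hμm : (m : ℝ) ≤ μ := by exact_mod_cast (by omega : m ≤ μ)
  have hμR : (0 : ℝ) ≤ (μ : ℝ) := by positivity
  have hcard3 : (3 : ℤ) ≤ (Fintype.card V : ℤ) := by exact_mod_cast h3
  have hne : Nonempty V := Fintype.card_pos_iff.1 (by omega)
  obtain ⟨u0⟩ := hne
  -- the degree
  have hD1 : D ≤ μ * ((Fintype.card V : ℤ) - 1) := by
    rw [← hD u0]
    unfold dg
    rw [← Finset.add_sum_erase _ _ (Finset.mem_univ u0), hx.diag, zero_add]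
    have h4 : ∑ v ∈ Finset.univ.erase u0, x u0 v ≤ ∑ _v ∈ Finset.univ.erase u0, (μ : ℤ) :=
      Finset.sum_le_sum fun v _ => hxμ u0 v
    rw [Finset.sum_const, Finset.card_erase_of_mem (Finset.mem_univ u0), Finset.card_univ,
      nsmul_eq_mul, Nat.cast_sub (by omega)] at h4
    push_cast at h4
    linarith
  have hD0 : 0 ≤ D := by
    rw [← hD u0]
    exact Finset.sum_nonneg fun v _ => hx.nonneg u0 v
  have hDr : D ≤ r := by
    by_contra hlt
    push Not at hlt
    have : ((Fintype.card V : ℤ) - 1) * r < ((Fintype.card V : ℤ) - 1) * D :=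
      mul_lt_mul_of_pos_left hlt (by omega)
    nlinarith
  have hnD : (Fintype.card V : ℤ) * μ ≤ 2 * D := by
    have h5 : N / 2 * μ ≤ θ * μ := mul_le_mul_of_nonneg_right hθ.le hμR
    have h6 : (((Fintype.card V : ℤ) * μ : ℤ) : ℝ) ≤ ((2 * D : ℤ) : ℝ) := by
      push_cast
      rw [← hN]
      linarith
    exact_mod_cast h6
  have hok : Ok x r := ok_regular hV hx hxμ hD hnD hDr hr1
  obtain ⟨x', hx', hle, hd', hs⟩ := complete_odd hV hx hok
  have hy : IsW (ext x' r) := isW_ext hx' hd'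
  have hdy : ∀ o, dg (ext x' r) o = r := dg_ext hs
  have hdeg : ∀ u, D ≤ dg x' u := by
    intro u
    rw [← hD u]
    exact (Finset.sum_le_sum fun v _ => hle u v : ∑ v, x u v ≤ ∑ v, x' u v)
  have hsum : ∑ u, (dg x' u - D) ≤ (Fintype.card V : ℤ) - 2 := by
    have h7 : ∑ u, (dg x' u - D) = ∑ _u : V, (r - D) - ∑ u, (r - dg x' u) := by
      rw [← Finset.sum_sub_distrib]
      exact Finset.sum_congr rfl fun u _ => by ring
    rw [h7, hs, Finset.sum_const, Finset.card_univ, nsmul_eq_mul]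
    linarith
  have hexc : ∀ u, dg x' u - D ≤ (Fintype.card V : ℤ) - 2 := by
    intro u
    refine le_trans ?_ hsum
    exact Finset.single_le_sum (f := fun u => dg x' u - D) (fun v _ => sub_nonneg.2 (hdeg v))
      (Finset.mem_univ u)
  have hent : ∀ u v, x' u v ≤ ((μ + Fintype.card V : ℕ) : ℤ) := by
    intro u v
    have h8 : x' u v - x u v ≤ dg x' u - dg x u := by
      unfold dg
      rw [← Finset.sum_sub_distrib]
      exact Finset.single_le_sum (f := fun v => x' u v - x u v)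
        (fun w _ => sub_nonneg.2 (hle u w)) (Finset.mem_univ v)
    have h9 := hexc u
    have h10 := hxμ u v
    rw [hD u] at h8
    push_cast
    linarith
  have hnone : ∀ u, r - dg x' u ≤ ((μ + Fintype.card V : ℕ) : ℤ) := by
    intro u
    have h11 := hdeg u
    have h12 : r - D ≤ μ + 1 := by
      by_contra hlt
      push Not at hlt
      have h13 : ((Fintype.card V : ℤ) - 1) * (μ + 1) < ((Fintype.card V : ℤ) - 1) * (r - D) :=
        mul_lt_mul_of_pos_left hlt (by omega)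
      nlinarith
    push_cast
    linarith
  have hent' : ∀ o p, ext x' r o p ≤ ((μ + Fintype.card V : ℕ) : ℤ) := by
    rintro (_ | u) (_ | v)
    · show (0 : ℤ) ≤ _
      positivity
    · exact hnone v
    · exact hnone u
    · exact hent u v
  have hθr : θ' * ((μ + Fintype.card V : ℕ) : ℝ) ≤ (r : ℝ) := by
    have h14 : N * (D : ℝ) ≤ (N - 1) * r := by
      rw [hN]
      exact_mod_cast hr1
    have h15 : N / 2 * μ ≤ (D : ℝ) := (mul_le_mul_of_nonneg_right hθ.le hμR).trans hθD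
    have h16 : N * (N / 2 * μ) ≤ N * (D : ℝ) := mul_le_mul_of_nonneg_left h15 (by linarith)
    have h17 : (N - 1) * (θ' * ((μ + Fintype.card V : ℕ) : ℝ)) ≤ (N - 1) * (r : ℝ) := by
      push_cast
      rw [← hN, ← mul_assoc, mul_add, hθ'2]
      rw [hθ'2] at hm
      nlinarith
    exact le_of_mul_le_mul_left h17 hN1
  have hdec : Dec (ext x' r) := hμ1 (ext x' r) (μ + Fintype.card V) r (by omega) hy hent' hdy hθr
  exact out_of_dec_ext (fun u v => hle u v) hdy hdec

end Pool.Agent.H44O
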