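import Pool.Agent.Lib.H44O.R1
import Pool.Agent.Lib.H44O.R3
import Pool.Agent.Lib.H44O.H2
import Pool.Agent.Lib.H44O.H3
import Pool.Agent.Lib.H44O.H4
import Pool.Agent.Lib.H44O.H5

/-!
# Chunk R4 (M): the second main theorem

Pass to `Fin n` as in chunk H6 (`x i j = G.wgt (f.symm i) (f.symm j)`).
* `n` even (`n ≥ 2`; for `n = 0` take `μ0 = 1`): `regular_even` gives `Dec x`, `out_of_dec` gives
  `Cov x D`, so `χ' ≤ D = maxDeg` (`D ≤ maxDeg` by `Finset.le_sup`), and `le_chromaticIndex`.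
* `n = 1`: there are no edges (no loops), `maxMult = 0`; take `μ0 = 1`.
* `n ≥ 3` odd: let `r := ⌈n D / (n - 1)⌉₊` (for instance `r = (n * D + (n - 2)) / (n - 1)` in `ℕ`).
  `regular_odd` gives `Cov x r`, so `χ' ≤ r`. And `r ≤ dens`: for `S = univ`,
  `2 * inside univ = inW wgt univ = n D` and `2 * (n / 2) = n - 1`, so
  `⌈inside univ / (n / 2)⌉₊ = ⌈n D / (n - 1)⌉₊ = r` (`Finset.le_sup`). With `le_chromaticIndex` the
  equality follows.
-/

namespace Pool.Agent.H44O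

open Finset
open scoped Classical

theorem r4_even (n : ℕ) (θ : ℝ) (hθ : (n : ℝ) / 2 < θ) :
    ∃ μ0 : ℕ, Even n → ∀ (x : Fin n → Fin n → ℤ) (μ : ℕ) (r : ℤ), μ0 ≤ μ → IsW x →
      (∀ u v, x u v ≤ μ) → (∀ u, dg x u = r) → θ * μ ≤ r → Dec x := by
  by_cases he : Even n
  · have hc : Fintype.card (Fin n) = n := Fintype.card_fin n
    obtain ⟨m, hm⟩ := regular_even (V := Fin n) (by rw [hc]; exact he) (θ := θ)
      (by rw [hc]; exact hθ)
    exact ⟨m, fun _ => hm⟩
  · exact ⟨0, fun h => absurd h he⟩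

theorem r4_odd (n : ℕ) (θ : ℝ) (hθ : (n : ℝ) / 2 < θ) :
    ∃ μ0 : ℕ, Odd n → 3 ≤ n → ∀ (x : Fin n → Fin n → ℤ) (μ : ℕ) (D r : ℤ), μ0 ≤ μ → IsW x →
      (∀ u v, x u v ≤ μ) → (∀ u, dg x u = D) → θ * μ ≤ D → (n : ℤ) * D ≤ ((n : ℤ) - 1) * r →
      ((n : ℤ) - 1) * r ≤ (n : ℤ) * D + (n : ℤ) - 2 → Cov x r := by
  by_cases ho : Odd n ∧ 3 ≤ n
  · have hc : Fintype.card (Fin n) = n := Fintype.card_fin n
    obtain ⟨m, hm⟩ := regular_odd (V := Fin n) (by rw [hc]; exact ho.1) (by rw [hc]; exact ho.2)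
      (θ := θ) (by rw [hc]; exact hθ)
    refine ⟨m, fun _ _ x μ D r h1 h2 h3 h4 h5 h6 h7 => hm x μ D r h1 h2 h3 h4 h5 ?_ ?_⟩
    · rw [hc]; exact h6
    · rw [hc]; exact h7
  · exact ⟨0, fun h1 h2 => absurd ⟨h1, h2⟩ ho⟩

theorem r4_round (n D : ℕ) (hn : 3 ≤ n) :
    ∃ r : ℕ, (n : ℤ) * D ≤ ((n : ℤ) - 1) * r ∧ ((n : ℤ) - 1) * r ≤ (n : ℤ) * D + (n : ℤ) - 2 := by
  obtain ⟨k, rfl⟩ : ∃ k, n = k + 1 := ⟨n - 1, by omega⟩
  have hk : 0 < k := by omega
  refine ⟨((k + 1) * D + (k - 1)) / k, ?_, ?_⟩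
  · have h1 := Nat.div_add_mod ((k + 1) * D + (k - 1)) k
    have h2 := Nat.mod_lt ((k + 1) * D + (k - 1)) hk
    have h3 : (k + 1) * D ≤ k * (((k + 1) * D + (k - 1)) / k) := by omega
    have h4 : (((k + 1) * D : ℕ) : ℤ) ≤ ((k * (((k + 1) * D + (k - 1)) / k) : ℕ) : ℤ) := by
      exact_mod_cast h3
    push_cast at h4 ⊢
    linarith
  · have h3 := Nat.mul_div_le ((k + 1) * D + (k - 1)) k
    have h3' : k * (((k + 1) * D + (k - 1)) / k) + 1 ≤ (k + 1) * D + k := by omega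
    have h4 : ((k * (((k + 1) * D + (k - 1)) / k) + 1 : ℕ) : ℤ) ≤ (((k + 1) * D + k : ℕ) : ℤ) := by
      exact_mod_cast h3'
    push_cast at h4 ⊢
    linarith

theorem regular_half (n : ℕ) (θ : ℝ) (hθ : (n : ℝ) / 2 < θ) :
    ∃ μ0 : ℕ, ∀ (V E : Type) [Fintype V] [Fintype E] (G : MGraph V E) (D : ℕ),
      Fintype.card V = n → μ0 ≤ G.maxMult → (∀ v, G.deg v = D) → θ * G.maxMult ≤ D →
      G.chromaticIndex = max G.maxDeg G.dens := by
  obtain ⟨m1, hm1⟩ := r4_even n θ hθ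
  obtain ⟨m2, hm2⟩ := r4_odd n θ hθ
  refine ⟨m1 + m2 + 1, fun V E _ _ G D hn hμ hdeg hD => ?_⟩
  have hne : Nonempty V := by
    by_contra hcon
    rw [not_nonempty_iff] at hcon
    unfold MGraph.maxMult at hμ
    simp at hμ
  have hpos : 0 < n := by
    rw [← hn]
    exact Fintype.card_pos
  refine le_antisymm ?_ G.le_chromaticIndex
  let f : V ≃ Fin n := Fintype.equivFinOfCardEq hn
  have hDle : D ≤ max G.maxDeg G.dens := by
    obtain ⟨v⟩ := hne
    refine le_trans ?_ (le_max_left _ _)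
    rw [← hdeg v]
    exact Finset.le_sup (f := G.deg) (mem_univ v)
  have hdx : ∀ u, dg (fun i j => G.wgt (f.symm i) (f.symm j)) u = (D : ℤ) := by
    intro u
    rw [dg_comap, G.dg_wgt, hdeg]
  rcases Nat.even_or_odd n with he | ho
  · haveI : Nonempty (Fin n) := ⟨⟨0, hpos⟩⟩
    have hdec : Dec (fun i j => G.wgt (f.symm i) (f.symm j)) :=
      hm1 he _ G.maxMult D (by omega) (isW_comap f.symm G.isW_wgt)
        (fun u v => G.wgt_le _ _) hdx (by exact_mod_cast hD)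
    have hx : Cov (fun i j => G.wgt (f.symm i) (f.symm j)) (D : ℕ) :=
      out_of_dec (fun _ _ => le_refl _) hdx hdec
    have h2 := cov_comap f hx
    simp only [Equiv.symm_apply_apply] at h2
    exact (G.chromaticIndex_le_of_cov h2).trans hDle
  · have h3 : 3 ≤ n := by
      by_contra hlt
      have hn1 : n = 1 := by
        obtain ⟨k, hk⟩ := ho
        omega
      obtain ⟨v, hv⟩ := Fintype.card_eq_one_iff.1 (hn.trans hn1)
      have h5 : G.maxMult ≤ 0 := by
        unfold MGraph.maxMult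
        refine Finset.sup_le fun p _ => ?_
        have h6 := G.isW_wgt.diag v
        unfold MGraph.wgt at h6
        rw [hv p.1, hv p.2]
        exact_mod_cast h6.le
      omega
    obtain ⟨r, hr1, hr2⟩ := r4_round n D h3
    have hx : Cov (fun i j => G.wgt (f.symm i) (f.symm j)) (r : ℕ) :=
      hm2 ho h3 _ G.maxMult D r (by omega) (isW_comap f.symm G.isW_wgt)
        (fun u v => G.wgt_le _ _) hdx (by exact_mod_cast hD) hr1 hr2
    have h2 := cov_comap f hx
    simp only [Equiv.symm_apply_apply] at h2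
    refine (G.chromaticIndex_le_of_cov h2).trans (le_trans ?_ (le_max_right _ _))
    -- the density of the whole graph
    have hsum : (n : ℤ) * D = 2 * G.inside univ := by
      rw [← G.inW_wgt]
      unfold inW
      have h7 : ∀ u ∈ (univ : Finset V), ∑ v, G.wgt u v = (D : ℤ) := by
        intro u _
        have := G.dg_wgt u
        unfold dg at this
        rw [this, hdeg]
      rw [Finset.sum_congr rfl h7, Finset.sum_const, Finset.card_univ, hn]
      simp
    have hS : (univ : Finset V) ∈ univ.filter (fun S : Finset V => 2 ≤ S.card) := by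
      rw [mem_filter, Finset.card_univ, hn]
      exact ⟨mem_univ _, by omega⟩
    refine le_trans ?_ (Finset.le_sup (f := fun S : Finset V =>
      ⌈(G.inside S : ℚ) / ((S.card / 2 : ℕ) : ℚ)⌉₊) hS)
    rw [Finset.card_univ, hn]
    obtain ⟨k, hk⟩ := ho
    have hk2 : n / 2 = k := by omega
    have hk0 : 0 < k := by omega
    rw [hk2]
    have hr0 : r = (r - 1) + 1 ∨ r = 0 := by omega
    rcases hr0 with hr0 | hr0
    · rw [hr0, Nat.succ_le_iff, Nat.lt_ceil, lt_div_iff₀ (by exact_mod_cast hk0)]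
      have h8 : ((r - 1 : ℕ) : ℤ) = (r : ℤ) - 1 := by omega
      have h9 : ((r - 1 : ℕ) : ℤ) * k < G.inside univ := by
        rw [h8]
        rw [hk] at hr2 hsum
        push_cast at hr2 hsum
        rw [hsum] at hr2
        nlinarith
      have h10 : (((r - 1 : ℕ) : ℤ) : ℚ) * k < G.inside univ := by exact_mod_cast h9
      exact_mod_cast h10
    · rw [hr0]
      exact Nat.zero_le _

end Pool.Agent.H44O
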